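import Pool.Agent.Lib.H96H.A0
import Pool.Agent.Lib.H63F.F1

/-! # H47T, chunk F1: a complex is acyclic if the fibres over the `P`-parts are -/

set_option autoImplicit false

namespace H47T

open Finset H98P H98Z H98M H63F H96H

variable {C : Type*} [Fintype C] [DecidableEq C]

open Classical in
private theorem fib_step (K : Finset C → Prop) (hK : Dn K) (P : C → Prop)
    (h : ∀ τ : Finset C, (∀ S ∈ τ, P S) → K τ → AC fun ρ : Finset C => (∀ S ∈ ρ, ¬ P S) ∧ K (τ ∪ ρ))
    (k : ℕ) (z : Finset C → ZMod 2) (hz : ∀ s, z s ≠ 0 → K s) (hb : ∀ r, bd z r = 0)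
    (hc : ∀ s, z s ≠ 0 → (s.filter P).card < k + 1) :
    ∃ c : Finset C → ZMod 2, (∀ s, c s ≠ 0 → K s) ∧
      ∀ r : Finset C, k ≤ (r.filter P).card → bd c r = z r := by
  have key : ∀ τ : Finset C, ∃ cc : Finset C → ZMod 2, (∀ S ∈ τ, P S) → τ.card = k →
      (∀ ρ, cc ρ ≠ 0 → (∀ S ∈ ρ, ¬ P S) ∧ K (τ ∪ ρ)) ∧
      ∀ ρ, (∀ S ∈ ρ, ¬ P S) → bd cc ρ = z (τ ∪ ρ) := by
    intro τ
    by_cases h1 : (∀ S ∈ τ, P S) ∧ τ.card = k ∧ K τ
    · obtain ⟨hP, hk, hKt⟩ := h1
      obtain ⟨zt, hzt⟩ : ∃ zt : Finset C → ZMod 2,
          ∀ ρ, zt ρ = if ∀ S ∈ ρ, ¬ P S then z (τ ∪ ρ) else 0 := ⟨_, fun _ => rfl⟩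
      have hs : ∀ ρ, zt ρ ≠ 0 → (∀ S ∈ ρ, ¬ P S) ∧ K (τ ∪ ρ) := by
        intro ρ hρ
        rw [hzt] at hρ
        by_cases h2 : ∀ S ∈ ρ, ¬ P S
        · rw [if_pos h2] at hρ
          exact ⟨h2, hz _ hρ⟩
        · rw [if_neg h2] at hρ
          exact absurd rfl hρ
      have hcyc : ∀ ρ, bd zt ρ = 0 := by
        intro ρ
        by_cases h2 : ∀ S ∈ ρ, ¬ P S
        · rw [← hb (τ ∪ ρ)]
          unfold bd
          symm
          have hsub : (τ ∪ ρ)ᶜ ⊆ ρᶜ := compl_subset_compl.2 subset_union_right
          rw [← sum_subset hsub (f := fun e => zt (insert e ρ))]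
          · refine sum_congr rfl fun e he => ?_
            rw [mem_compl, mem_union, not_or] at he
            by_cases hPe : P e
            · rw [hzt, if_neg (fun h3 => h3 e (mem_insert_self _ _) hPe)]
              by_contra hne
              have h4 := hc _ hne
              have h5 : insert e τ ⊆ (insert e (τ ∪ ρ)).filter P := by
                intro x hx
                rw [mem_filter, mem_insert, mem_union]
                rcases mem_insert.1 hx with h6 | h6
                · exact ⟨Or.inl h6, h6 ▸ hPe⟩
                · exact ⟨Or.inr (Or.inl h6), hP x h6⟩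
              have h7 := card_le_card h5
              rw [card_insert_of_notMem he.1, hk] at h7
              omega
            · rw [hzt, if_pos, union_insert]
              intro S hS
              rcases mem_insert.1 hS with h6 | h6
              · rw [h6]
                exact hPe
              · exact h2 S h6
          · intro e he1 he2
            rw [mem_compl] at he1
            have he3 : e ∈ τ := by
              by_contra h8
              exact he2 (by rw [mem_compl, mem_union, not_or]; exact ⟨h8, he1⟩)
            rw [hzt, if_neg (fun h3 => h3 e (mem_insert_self _ _) (hP e he3))]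
        · unfold bd
          refine sum_eq_zero fun e _ => ?_
          rw [hzt, if_neg]
          intro h3
          exact h2 fun S hS => h3 S (mem_insert_of_mem hS)
      obtain ⟨cc, hc1, hc2⟩ := h τ hP hKt zt hs hcyc
      refine ⟨cc, fun _ _ => ⟨hc1, fun ρ hρ => ?_⟩⟩
      rw [hc2, hzt, if_pos hρ]
    · refine ⟨fun _ => 0, fun hP hk => ⟨fun ρ hρ => absurd rfl hρ, fun ρ _ => ?_⟩⟩
      have h0 : z (τ ∪ ρ) = 0 := by
        by_contra hne
        exact h1 ⟨hP, hk, hK τ (τ ∪ ρ) subset_union_left (hz _ hne)⟩
      rw [h0]
      unfold bd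
      exact sum_eq_zero fun _ _ => rfl
  choose cc hcc using key
  obtain ⟨c, hcd⟩ : ∃ c : Finset C → ZMod 2, ∀ s, c s =
      if (s.filter P).card = k then cc (s.filter P) (s.filter fun x => ¬ P x) else 0 :=
    ⟨_, fun _ => rfl⟩
  have hfP : ∀ s : Finset C, ∀ S ∈ s.filter P, P S := fun s S hS => (mem_filter.1 hS).2
  refine ⟨c, ?_, ?_⟩
  · intro s hs
    rw [hcd] at hs
    by_cases h1 : (s.filter P).card = k
    · rw [if_pos h1] at hs
      have h2 := ((hcc (s.filter P) (hfP s) h1).1 _ hs).2
      rwa [filter_union_filter_not_eq] at h2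
    · rw [if_neg h1] at hs
      exact absurd rfl hs
  · intro r hr
    rcases Nat.lt_or_ge k (r.filter P).card with h1 | h1
    · have hz0 : z r = 0 := by
        by_contra hne
        have := hc _ hne
        omega
      rw [hz0]
      unfold bd
      refine sum_eq_zero fun e _ => ?_
      rw [hcd, if_neg]
      have h2 : r.filter P ⊆ (insert e r).filter P := filter_subset_filter _ (subset_insert _ _)
      have := card_le_card h2
      omega
    · have hk : (r.filter P).card = k := le_antisymm h1 hr
      have h3 := (hcc (r.filter P) (hfP r) hk).2 (r.filter fun x => ¬ P x)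
        (fun S hS => (mem_filter.1 hS).2)
      rw [filter_union_filter_not_eq] at h3
      rw [← h3]
      unfold bd
      have hsub : rᶜ ⊆ (r.filter fun x => ¬ P x)ᶜ := compl_subset_compl.2 (filter_subset _ _)
      rw [← sum_subset hsub (f := fun e => cc (r.filter P) (insert e (r.filter fun x => ¬ P x)))]
      · refine sum_congr rfl fun e he => ?_
        rw [mem_compl] at he
        rw [hcd]
        by_cases hPe : P e
        · rw [if_neg]
          · symm
            by_contra hne
            exact ((hcc (r.filter P) (hfP r) hk).1 _ hne).1 e (mem_insert_self _ _) hPe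
          · rw [filter_insert, if_pos hPe, card_insert_of_notMem (fun h5 => he (mem_filter.1 h5).1)]
            omega
        · rw [filter_insert, if_neg hPe, if_pos hk, filter_insert, if_pos hPe]
      · intro e he1 he2
        rw [mem_compl, not_not] at he2
        have hPe : P e := by
          by_contra h6
          exact (mem_compl.1 he1) (mem_filter.2 ⟨he2, h6⟩)
        by_contra hne
        exact ((hcc (r.filter P) (hfP r) hk).1 _ hne).1 e (mem_insert_self _ _) hPe

/-- PROOF. Claim for all `k`: a cycle `z` supported on the `s` with `K s` and `|s.filter P| < k` is a boundary `bd c`,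
`c` supported on `K`. Induction on `k` (`k = 0`: `z = 0`). Step: for `τ` with all elements in `P`, `|τ| = k`, let
`z_τ ρ = z (τ ∪ ρ)` if `ρ` has no element in `P`, else `0`. It is a cycle: for `ρ` without elements in `P`
`bd z_τ ρ = bd z (τ ∪ ρ)` minus the sum over `e ∉ τ ∪ ρ`, `P e`, of `z (insert e (τ ∪ ρ)) = 0` (the `P`-part has `k + 1`
elements); for the others it is `0`. If `K τ` then `h τ` gives `c_τ` with `bd c_τ = z_τ` (if not `K τ` then `z_τ = 0`
by `hK`: take `c_τ = 0`). Put `c s = c_(s.filter P) (s \ s.filter P)` if `|s.filter P| = k`, else `0`. Then `c` is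
supported on `K` and `bd c r = z r` for `|r.filter P| = k`, so `z + bd c` is a cycle (`bd_bd`, `bd_add`) supported on
`K` and `|r.filter P| < k`; induction. Finally take `k = card C + 1`. -/
theorem ac_fiber (K : Finset C → Prop) (hK : Dn K) (P : C → Prop)
    (h : ∀ τ : Finset C, (∀ S ∈ τ, P S) → K τ → AC fun ρ : Finset C => (∀ S ∈ ρ, ¬ P S) ∧ K (τ ∪ ρ)) :
    AC K := by
  classical
  have claim : ∀ (k : ℕ) (z : Finset C → ZMod 2), (∀ s, z s ≠ 0 → K s) → (∀ r, bd z r = 0) →
      (∀ s, z s ≠ 0 → (s.filter P).card < k) →
      ∃ c : Finset C → ZMod 2, (∀ s, c s ≠ 0 → K s) ∧ ∀ r, bd c r = z r := by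
    intro k
    induction k with
    | zero =>
      intro z hz hb hc
      refine ⟨fun _ => 0, fun s hs => absurd rfl hs, fun r => ?_⟩
      have h0 : z r = 0 := by
        by_contra hne
        exact absurd (hc r hne) (Nat.not_lt_zero _)
      rw [h0]
      unfold bd
      exact sum_eq_zero fun _ _ => rfl
    | succ k ih =>
      intro z hz hb hc
      obtain ⟨c, hc1, hc2⟩ := fib_step K hK P h k z hz hb hc
      have hsmall : ∀ r, bd c r ≠ 0 → K r := by
        intro r hr
        by_contra hcon
        apply hr
        unfold bd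
        refine sum_eq_zero fun e _ => ?_
        by_contra h0
        exact hcon (hK r (insert e r) (subset_insert _ _) (hc1 _ h0))
      obtain ⟨c', hd1, hd2⟩ := ih (fun s => z s + bd c s)
        (by
          intro s hs
          by_cases h1 : z s = 0
          · exact hsmall s (by simpa [h1] using hs)
          · exact hz s h1)
        (by
          intro r
          rw [bd_add, hb r, bd_bd, add_zero])
        (by
          intro s hs
          by_contra hcon
          apply hs
          show z s + bd c s = 0
          rw [hc2 s (not_lt.1 hcon)]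
          exact CharTwo.add_self_eq_zero _)
      refine ⟨fun s => c s + c' s, ?_, ?_⟩
      · intro s hs
        by_cases h1 : c s = 0
        · exact hd1 s (by simpa [h1] using hs)
        · exact hc1 s h1
      · intro r
        rw [bd_add, hd2 r]
        have h2 : bd c r + bd c r = 0 := CharTwo.add_self_eq_zero _
        calc bd c r + (z r + bd c r) = z r + (bd c r + bd c r) := by ring
          _ = z r := by rw [h2, add_zero]
  intro z hz hb
  refine claim (Fintype.card C + 1) z hz hb fun s _ => ?_
  have := card_le_univ (s.filter P)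
  omega

end H47T
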