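import Pool.Agent.Lib.H96H.D

/-!
# H47T, file D: definitions for Theorem T (plane spanning theta graph through every edge `st`), see PROOF.md

The requirements are those of a Hamiltonian cycle plus `M` times the edge `st` (`M ≥ 0` real), divided by the total
weight `n + M`.
-/

set_option autoImplicit false

namespace H47T

open Finset H98P H98Z H98M H63F H96H

/-- The cut `S` separates `s` and `t`. -/
def Sep {V : Type*} (s t : V) (S : Finset V) : Prop := ¬ (s ∈ S ↔ t ∈ S)

open Classical in
/-- The requirement of the cut `S`: `2/(n+M)`, and `(2+M)/(n+M)` if `S` separates `s` and `t`. -/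
noncomputable def rq {V : Type*} [Fintype V] (s t : V) (M : ℝ) (S : Finset V) : ℝ :=
  (2 + if Sep s t S then M else 0) / ((Fintype.card V : ℝ) + M)

open Classical in
/-- The payoff matrix (strategies `St V` as in H96H: signed vertices and nontrivial cuts). -/
noncomputable def pT {V : Type*} [Fintype V] [DecidableEq V] (s t : V) (M : ℝ) (e : Sym2 V) : St V → ℝ
  | .inl (v, b) => if e.IsDiag then -10 else (if b = true then 1 else -1) * (px e {v} - rq s t M {v})
  | .inr S => if e.IsDiag then -10 else px e S.1 - rq s t M S.1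

/-- The payoff matrix for two copies of every strategy. -/
noncomputable def pT2 {V : Type*} [Fintype V] [DecidableEq V] (s t : V) (M : ℝ) (e : Sym2 V) (q : St V × Bool) : ℝ :=
  pT s t M e q.1

/-- The payoff of the column `S` against `x`. -/
noncomputable def py {V : Type*} [Fintype V] [DecidableEq V] (s t : V) (M : ℝ) (x : Sym2 V → ℝ) (S : St V) : ℝ :=
  pay (pT s t M) (fun _ => 0) x S

/-- Feasible weights. -/
def Feas {V : Type*} [Fintype V] [DecidableEq V] (s t : V) (M : ℝ) (x : Sym2 V → ℝ) : Prop :=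
  (∀ v, cutw x {v} = rq s t M {v}) ∧ ∀ S : Finset V, S.Nonempty → S ≠ univ → rq s t M S ≤ cutw x S

/-- `S` is unstable: `G` has an edge inside of `S` and an edge outside of `S`. -/
def Uns {V : Type*} (G : Finset (Sym2 V)) (S : Finset V) : Prop :=
  (∃ a ∈ S, ∃ b ∈ S, a ≠ b ∧ s(a, b) ∈ G) ∧ ∃ a, a ∉ S ∧ ∃ b, b ∉ S ∧ a ≠ b ∧ s(a, b) ∈ G

/-- The families which are allowed over feasible points: all cuts are unstable, and some edge `ab` of `G - s - t` is
separated by no cut of the family which separates `s` and `t`. -/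
def BB {V : Type*} [Fintype V] [DecidableEq V] (s t : V) (G : Finset (Sym2 V)) (T : Finset (St V)) : Prop :=
  LL T ∧ (∀ S : NCut V, (Sum.inr S : St V) ∈ T → Uns G S.1) ∧
    ∃ a b : V, a ≠ b ∧ a ≠ s ∧ a ≠ t ∧ b ≠ s ∧ b ≠ t ∧ s(a, b) ∈ G ∧
      ∀ S : NCut V, (Sum.inr S : St V) ∈ T → Sep s t S.1 → (a ∈ S.1 ↔ b ∈ S.1)

/-- The sets of the two-copy carrier: the strategies of the copy `false` are minimizers; strategies of the copy `true`
are used only if `st ∈ G`, only over feasible points and only if the whole family is in `BB`. -/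
def YY {V : Type*} [Fintype V] [DecidableEq V] (s t : V) (M : ℝ) (G : Finset (Sym2 V)) (T : Finset (St V × Bool)) :
    Set (Sym2 V → ℝ) :=
  {x | x ∈ Sx G ∧ LL (T.image Prod.fst) ∧
    (∀ S, (S, false) ∈ T → ∀ S', py s t M x S ≤ py s t M x S') ∧
    ((∀ S, (S, true) ∉ T) ∨ (s(s, t) ∈ G ∧ Feas s t M x ∧ BB s t G (T.image Prod.fst)))}

/-- `L` is a list of lists of inner vertices of internally disjoint paths from `s` to `t` which together contain all
vertices; all their edges are in `G`. -/
def Th {V : Type*} (s t : V) (G : Finset (Sym2 V)) (L : List (List V)) : Prop :=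
  (∀ l ∈ L, l ≠ []) ∧ L.flatten.Nodup ∧ (∀ v, v ∈ L.flatten ↔ v ≠ s ∧ v ≠ t) ∧
    ∀ l ∈ L, (s :: (l ++ [t])).IsChain fun a b => s(a, b) ∈ G

/-- The block of `a`: the vertices different from `s`, `t` which are separated from `a` by no cut of `τ`. -/
def blk {V : Type*} [Fintype V] [DecidableEq V] (s t : V) (τ : Finset (St V)) (a : V) : Finset V :=
  univ.filter fun c => c ≠ s ∧ c ≠ t ∧ ∀ S ∈ (univ : Finset (NCut V)), (Sum.inr S : St V) ∈ τ → (a ∈ S.1 ↔ c ∈ S.1)

/-- The flow property: every vertex `v ≠ s, t` receives `c` from `s` and the vertices of smaller rank, and sends `c`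
to `t` and the vertices of larger rank. -/
def Flow {V : Type*} [Fintype V] [DecidableEq V] (s t : V) (x : Sym2 V → ℝ) (c : ℝ) (ρ : V → ℕ) : Prop :=
  ∀ v, v ≠ s → v ≠ t →
    x s(s, v) + ∑ u ∈ univ.filter (fun u => u ≠ s ∧ u ≠ t ∧ ρ u < ρ v), x s(u, v) = c ∧
    x s(v, t) + ∑ u ∈ univ.filter (fun u => u ≠ s ∧ u ≠ t ∧ ρ v < ρ u), x s(v, u) = c

end H47T
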