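import Pool.Agent.Lib.H96H.A0
import Pool.Agent.Lib.H47T.D

/-! # H47T, chunk A0: payoffs -/

set_option autoImplicit false

namespace H47T

open Finset H98P H98Z H98M H63F H96H

variable {V : Type*} [Fintype V] [DecidableEq V]

private theorem a0_loop {x : Sym2 V → ℝ} (hl : ∀ v, x s(v, v) = 0) {e : Sym2 V} (he : e.IsDiag) :
    x e = 0 := by
  induction e using Sym2.ind with
  | _ a b =>
    have hab : a = b := he
    subst hab
    exact hl a

private theorem a0_pay {s t : V} {M : ℝ} {x : Sym2 V → ℝ} (h1 : ∑ e, x e = 1) (hl : ∀ v, x s(v, v) = 0) (c r : ℝ)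
    (S : Finset V) (q : St V)
    (hs : ∀ e : Sym2 V, ¬ e.IsDiag → pT s t M e q = c * (px e S - r)) :
    py s t M x q = c * (cutw x S - r) := by
  have h2 : ∀ e ∈ (univ : Finset (Sym2 V)),
      x e * pT s t M e q = c * (x e * px e S) - c * r * x e := by
    intro e _
    by_cases he : e.IsDiag
    · rw [a0_loop hl he]
      ring
    · rw [hs e he]
      ring
  unfold py pay cutw
  rw [sum_congr rfl h2, sum_sub_distrib, ← mul_sum, ← mul_sum, h1]
  ring

/-- PROOF: as `H96H.pay_pos` (`A0.lean` there, private lemma `a0_pay`: copy it). -/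
theorem py_pos {s t : V} {M : ℝ} {x : Sym2 V → ℝ} (h1 : ∑ e, x e = 1) (hl : ∀ v, x s(v, v) = 0) (v : V) :
    py s t M x (Sum.inl (v, true)) = cutw x {v} - rq s t M {v} := by
  rw [a0_pay h1 hl 1 (rq s t M {v}) {v} _ (fun e he => ?_), one_mul]
  simp only [pT]
  rw [if_neg he, if_pos trivial]

theorem py_neg {s t : V} {M : ℝ} {x : Sym2 V → ℝ} (h1 : ∑ e, x e = 1) (hl : ∀ v, x s(v, v) = 0) (v : V) :
    py s t M x (Sum.inl (v, false)) = -(cutw x {v} - rq s t M {v}) := by
  rw [a0_pay h1 hl (-1) (rq s t M {v}) {v} _ (fun e he => ?_), neg_one_mul]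
  simp only [pT]
  rw [if_neg he, if_neg Bool.false_ne_true]

theorem py_cut {s t : V} {M : ℝ} {x : Sym2 V → ℝ} (h1 : ∑ e, x e = 1) (hl : ∀ v, x s(v, v) = 0) (S : NCut V) :
    py s t M x (Sum.inr S) = cutw x S.1 - rq s t M S.1 := by
  rw [a0_pay h1 hl 1 (rq s t M S.1) S.1 _ (fun e he => ?_), one_mul]
  simp only [pT]
  rw [if_neg he, one_mul]

private theorem a0_px (a b v : V) (hab : a ≠ b) :
    px s(a, b) ({v} : Finset V) = (if v = a then (1 : ℝ) else 0) + (if v = b then (1 : ℝ) else 0) := by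
  unfold px
  by_cases h1 : v = a
  · have h2 : ¬ v = b := fun h => hab (h1 ▸ h)
    have h3 : ∃ a' ∈ ({v} : Finset V), ∃ b', b' ∉ ({v} : Finset V) ∧ s(a, b) = s(a', b') :=
      ⟨a, by simp [h1], b, by rw [mem_singleton]; exact fun h => h2 h.symm, rfl⟩
    rw [if_pos h3, if_pos h1, if_neg h2, add_zero]
  · by_cases h2 : v = b
    · have h3 : ∃ a' ∈ ({v} : Finset V), ∃ b', b' ∉ ({v} : Finset V) ∧ s(a, b) = s(a', b') :=
        ⟨b, by simp [h2], a, by rw [mem_singleton]; exact fun h => h1 h.symm, Sym2.eq_swap⟩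
      rw [if_pos h3, if_neg h1, if_pos h2, zero_add]
    · have h3 : ¬ ∃ a' ∈ ({v} : Finset V), ∃ b', b' ∉ ({v} : Finset V) ∧ s(a, b) = s(a', b') := by
        rintro ⟨a', ha', b', -, h⟩
        rw [mem_singleton] at ha'
        subst ha'
        rcases Sym2.eq_iff.1 h with ⟨h4, -⟩ | ⟨-, h4⟩
        · exact h1 h4.symm
        · exact h2 h4.symm
      rw [if_neg h3, if_neg h1, if_neg h2, add_zero]

private theorem a0_sum {w : Sym2 V → ℝ} (hl : ∀ v, w s(v, v) = 0) :
    ∑ v, cutw w {v} = 2 * ∑ e, w e := by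
  unfold cutw
  rw [sum_comm, mul_sum]
  refine sum_congr rfl fun e _ => ?_
  rw [← mul_sum]
  induction e using Sym2.ind with
  | _ a b =>
    by_cases hab : a = b
    · subst hab
      rw [hl a]
      ring
    · have h1 : ∑ v : V, px s(a, b) ({v} : Finset V) = 2 := by
        rw [sum_congr rfl fun v _ => a0_px a b v hab, sum_add_distrib,
          Finset.sum_ite_eq' univ a (fun _ => (1 : ℝ)), Finset.sum_ite_eq' univ b (fun _ => (1 : ℝ)),
          if_pos (mem_univ _), if_pos (mem_univ _)]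
        norm_num
      rw [h1]
      ring

private theorem a0_rq {s t : V} (hst : s ≠ t) (M : ℝ) (v : V) :
    rq s t M {v} = (2 + ((if v = s then M else 0) + (if v = t then M else 0))) / ((Fintype.card V : ℝ) + M) := by
  unfold rq
  by_cases h1 : v = s
  · have h2 : ¬ v = t := fun h => hst (h1 ▸ h)
    have h3 : Sep s t ({v} : Finset V) := by
      intro h
      have h4 : t ∈ ({v} : Finset V) := h.1 (mem_singleton.2 h1.symm)
      exact h2 (mem_singleton.1 h4).symm
    rw [if_pos h3, if_pos h1, if_neg h2, add_zero]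
  · by_cases h2 : v = t
    · have h3 : Sep s t ({v} : Finset V) := by
        intro h
        have h4 : s ∈ ({v} : Finset V) := h.2 (mem_singleton.2 h2.symm)
        exact h1 (mem_singleton.1 h4).symm
      rw [if_pos h3, if_neg h1, if_pos h2, zero_add]
    · have h3 : ¬ Sep s t ({v} : Finset V) := by
        intro h
        refine h ⟨fun h4 => absurd (mem_singleton.1 h4).symm h1, fun h4 => absurd (mem_singleton.1 h4).symm h2⟩
      rw [if_neg h3, if_neg h1, if_neg h2, add_zero (0 : ℝ)]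

/-- PROOF: `{v}` separates `s` and `t` iff `v = s` or `v = t`; the sum is `(2 n + 2 M)/(n + M)`. -/
theorem sum_rq {s t : V} (hst : s ≠ t) {M : ℝ} (hM : 0 ≤ M) : ∑ v : V, rq s t M {v} = 2 := by
  have h0 : (0 : ℝ) < Fintype.card V := by
    exact_mod_cast Fintype.card_pos_iff.2 ⟨s⟩
  have h1 : (Fintype.card V : ℝ) + M ≠ 0 := (add_pos_of_pos_of_nonneg h0 hM).ne'
  rw [sum_congr rfl fun v _ => a0_rq hst M v, ← sum_div, sum_add_distrib, sum_add_distrib,
    Finset.sum_ite_eq' univ s (fun _ => M), Finset.sum_ite_eq' univ t (fun _ => M),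
    if_pos (mem_univ _), if_pos (mem_univ _), sum_const, card_univ, nsmul_eq_mul, div_eq_iff h1]
  ring

/-- PROOF: `sum_rq`, and the sum of the `cutw x {v}` is `2` (`a0_sum` in `H96H/A0.lean`: copy). -/
theorem sum_dev {s t : V} (hst : s ≠ t) {M : ℝ} (hM : 0 ≤ M) {x : Sym2 V → ℝ} (h1 : ∑ e, x e = 1)
    (hl : ∀ v, x s(v, v) = 0) : ∑ v : V, (cutw x {v} - rq s t M {v}) = 0 := by
  rw [sum_sub_distrib, a0_sum hl, h1, sum_rq hst hM]
  ring

theorem rq_compl {s t : V} {M : ℝ} (S : Finset V) : rq s t M (univ \ S) = rq s t M S := by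
  have h : Sep s t (univ \ S) ↔ Sep s t S := by
    unfold Sep
    simp only [mem_sdiff, mem_univ, true_and]
    rw [not_iff_not, not_iff_not]
  unfold rq
  by_cases h1 : Sep s t S
  · rw [if_pos h1, if_pos (h.2 h1)]
  · rw [if_neg h1, if_neg fun h2 => h1 (h.1 h2)]

theorem cutw_compl (x : Sym2 V → ℝ) (S : Finset V) : cutw x (univ \ S) = cutw x S := by
  unfold cutw
  refine sum_congr rfl fun e _ => ?_
  have h : (∃ a ∈ univ \ S, ∃ b, b ∉ univ \ S ∧ e = s(a, b)) ↔ ∃ a ∈ S, ∃ b, b ∉ S ∧ e = s(a, b) := by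
    constructor
    · rintro ⟨a, ha, b, hb, he⟩
      refine ⟨b, ?_, a, (mem_sdiff.1 ha).2, by rw [he]; exact Sym2.eq_swap⟩
      by_contra h1
      exact hb (mem_sdiff.2 ⟨mem_univ _, h1⟩)
    · rintro ⟨a, ha, b, hb, he⟩
      exact ⟨b, mem_sdiff.2 ⟨mem_univ _, hb⟩, a, fun h1 => (mem_sdiff.1 h1).2 ha, by rw [he]; exact Sym2.eq_swap⟩
  unfold px
  by_cases h1 : ∃ a ∈ S, ∃ b, b ∉ S ∧ e = s(a, b)
  · rw [if_pos h1, if_pos (h.2 h1)]
  · rw [if_neg h1, if_neg fun h2 => h1 (h.1 h2)]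

end H47T
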