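import Pool.Agent.Lib.H47T.A1
import Pool.Agent.Lib.H63F.G1

/-! # H47T, chunk A2: hypothesis (a), no signed vertex is a minimizer -/

set_option autoImplicit false

namespace H47T

open Finset H98P H98Z H98M H63F H96H

variable {V : Type*} [Fintype V] [DecidableEq V]

/-- PROOF. The place of `s` and of `t` among the four sets `S ∩ T`, `S \ T`, `T \ S`, `univ \ (S ∪ T)` decides: 16 cases. -/
theorem rq_uncross {s t : V} {M : ℝ} (hM : 0 ≤ M) (S T : Finset V) :
    rq s t M S + rq s t M T ≤ rq s t M (S ∩ T) + rq s t M (S ∪ T) ∨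
      rq s t M S + rq s t M T ≤ rq s t M (S \ T) + rq s t M (T \ S) := by
  classical
  have hd : 0 ≤ (Fintype.card V : ℝ) + M := add_nonneg (Nat.cast_nonneg _) hM
  have key : ((2 + (if Sep s t S then M else 0)) + (2 + (if Sep s t T then M else 0)) ≤
      (2 + (if Sep s t (S ∩ T) then M else 0)) + (2 + (if Sep s t (S ∪ T) then M else 0))) ∨
      ((2 + (if Sep s t S then M else 0)) + (2 + (if Sep s t T then M else 0)) ≤
      (2 + (if Sep s t (S \ T) then M else 0)) + (2 + (if Sep s t (T \ S) then M else 0))) := by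
    unfold Sep
    simp only [mem_inter, mem_union, mem_sdiff]
    by_cases h1 : s ∈ S <;> by_cases h2 : s ∈ T <;> by_cases h3 : t ∈ S <;> by_cases h4 : t ∈ T <;>
      simp [h1, h2, h3, h4] <;> linarith
  unfold rq
  rw [← add_div, ← add_div, ← add_div]
  rcases key with h | h
  · left
    refine div_le_div_of_nonneg_right ?_ hd
    exact h
  · right
    refine div_le_div_of_nonneg_right ?_ hd
    exact h

private theorem a2_submod {x : Sym2 V → ℝ} (h0 : ∀ e, 0 ≤ x e) (S T : Finset V) :
    cutw x (S ∩ T) + cutw x (S ∪ T) ≤ cutw x S + cutw x T := by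
  unfold cutw
  rw [← sum_add_distrib, ← sum_add_distrib]
  refine sum_le_sum fun e _ => ?_
  rw [← mul_add, ← mul_add]
  exact mul_le_mul_of_nonneg_left (px_submod e S T) (h0 e)

private theorem a2_submod' {x : Sym2 V → ℝ} (h0 : ∀ e, 0 ≤ x e) (S T : Finset V) :
    cutw x (S \ T) + cutw x (T \ S) ≤ cutw x S + cutw x T := by
  have h1 := a2_submod h0 S (univ \ T)
  have h2 : S ∩ (univ \ T) = S \ T := by
    ext v
    simp
  have h3 : S ∪ (univ \ T) = univ \ (T \ S) := by
    ext v
    simp only [mem_union, mem_sdiff, mem_univ, true_and, not_and, not_not]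
    constructor
    · rintro (h | h) h'
      · exact h
      · exact absurd h' h
    · intro h
      by_cases hT : v ∈ T
      · exact Or.inl (h hT)
      · exact Or.inr hT
  rw [h2, h3, cutw_compl, cutw_compl] at h1
  exact h1

/-- As `H96H.caseN`: let `S0` be a minimizer (a nontrivial cut) with the smallest number of elements, suppose that it
crosses a minimizer `S`; `f R = cutw x R - rq R`, `m` the minimum; `f R ≥ m` for all nonempty `R ≠ univ`, `f {v} > m`
(otherwise `v+` is a minimizer), `f (univ \ R) = f R`. By `rq_uncross` and the submodularity of `cutw` (for the second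
alternative apply it to `S0` and `univ \ S`) `f (S0 ∩ S) = m` or `f (S0 \ S) = m`, a smaller minimizer, nontrivial as
`f {v} > m`. So `S0` crosses no minimizer: `caseS`. -/
theorem caseN (hV : 4 ≤ Fintype.card V) {s t : V} {M : ℝ} (hM : 0 ≤ M) {x : Sym2 V → ℝ}
    (h0 : ∀ e, 0 ≤ x e) (h1 : ∑ e, x e = 1) (hl : ∀ v, x s(v, v) = 0)
    (hv : ∀ (v : V) (b : Bool), ¬ ∀ S', py s t M x (Sum.inl (v, b)) ≤ py s t M x S') :
    AC fun T : Finset (St V) => LL T ∧ ∀ S ∈ T, ∀ S', py s t M x S ≤ py s t M x S' := by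
  classical
  have hVne : (univ : Finset (St V)).Nonempty := by
    obtain ⟨v⟩ := Fintype.card_pos_iff.1 (by omega : 0 < Fintype.card V)
    exact ⟨Sum.inl (v, true), mem_univ _⟩
  have hex : ∃ S1 : NCut V, ∀ q : St V, py s t M x (Sum.inr S1 : St V) ≤ py s t M x q := by
    obtain ⟨s0, _, hs0⟩ := exists_min_image univ (fun q : St V => py s t M x q) hVne
    rcases s0 with ⟨v, b⟩ | S1
    · exact absurd (fun S' => hs0 S' (mem_univ S')) (hv v b)
    · exact ⟨S1, fun q => hs0 q (mem_univ q)⟩
  obtain ⟨S1, hS1⟩ := hex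
  obtain ⟨S0, hS0A, hS0m⟩ := exists_min_image (univ.filter fun S : NCut V => ∀ q : St V,
      py s t M x (Sum.inr S : St V) ≤ py s t M x q) (fun S => S.1.card)
    ⟨S1, mem_filter.2 ⟨mem_univ _, hS1⟩⟩
  have hS0 : ∀ q : St V, py s t M x (Sum.inr S0 : St V) ≤ py s t M x q := (mem_filter.1 hS0A).2
  obtain ⟨f, hf⟩ : ∃ f : Finset V → ℝ, ∀ R, f R = cutw x R - rq s t M R := ⟨_, fun _ => rfl⟩
  have hcut : ∀ S : NCut V, py s t M x (Sum.inr S : St V) = f S.1 := fun S => by rw [hf, py_cut h1 hl S]
  have hcompl : ∀ R : Finset V, f (univ \ R) = f R := fun R => by rw [hf, hf, cutw_compl, rq_compl]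
  have hsing : ∀ v : V, f S0.1 < f {v} := by
    intro v
    by_contra hcon
    push Not at hcon
    refine hv v true ?_
    intro S'
    refine le_trans ?_ (hS0 S')
    rw [py_pos h1 hl v, hcut S0, ← hf {v}]
    exact hcon
  have hgen : ∀ R : Finset V, R.Nonempty → R ≠ univ → f S0.1 ≤ f R := by
    intro R hR1 hR2
    have hcR : 0 < R.card := card_pos.2 hR1
    have hne : (univ \ R).Nonempty := by
      rw [sdiff_nonempty]
      intro h
      exact hR2 (eq_univ_iff_forall.2 fun v => h (mem_univ v))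
    have hcR' : 0 < (univ \ R).card := card_pos.2 hne
    by_cases h2 : R.card = 1
    · obtain ⟨v, rfl⟩ := card_eq_one.1 h2
      exact (hsing v).le
    · by_cases h3 : (univ \ R).card = 1
      · obtain ⟨w, hw⟩ := card_eq_one.1 h3
        rw [← hcompl R, hw]
        exact (hsing w).le
      · have h4 := hS0 (Sum.inr ⟨R, by omega, by omega⟩)
        rw [hcut S0, hcut] at h4
        exact h4
  have hsmall : ∀ R : Finset V, R.Nonempty → R ⊆ S0.1 → ¬ S0.1 ⊆ R → f S0.1 < f R := by
    intro R hR1 hR2 hR3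
    by_contra hcon
    push Not at hcon
    have h9 : 2 ≤ R.card := by
      by_contra hc2
      have h10 : R.card = 1 := by
        have := card_pos.2 hR1
        omega
      obtain ⟨v, hv'⟩ := card_eq_one.1 h10
      rw [hv'] at hcon
      exact absurd hcon (not_le.2 (hsing v))
    have h11 : 2 ≤ (univ \ R).card :=
      le_trans S0.2.2 (card_le_card (sdiff_subset_sdiff (Subset.refl _) hR2))
    have h12 := hS0m ⟨R, h9, h11⟩ (mem_filter.2 ⟨mem_univ _, fun q => by
      refine le_trans ?_ (hS0 q)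
      rw [hcut, hcut]
      exact hcon⟩)
    have h13 : R.card < S0.1.card := card_lt_card ⟨hR2, hR3⟩
    have h14 : S0.1.card ≤ R.card := h12
    omega
  refine caseS S0 hS0 ?_
  intro S hS
  by_contra hX
  unfold NonX at hX
  push Not at hX
  obtain ⟨hX1, hX2, hX3, hX4⟩ := hX
  have hSm : f S.1 ≤ f S0.1 := by
    have h6 := hS (Sum.inr S0)
    rw [hcut S, hcut S0] at h6
    exact h6
  have hRne : (S0.1 ∩ S.1).Nonempty := hX1
  rcases rq_uncross (s := s) (t := t) hM S0.1 S.1 with hq | hq
  · have hsub := a2_submod h0 S0.1 S.1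
    have hUne : (S0.1 ∪ S.1).Nonempty := hRne.mono (inter_subset_left.trans subset_union_left)
    have h7 := hgen (S0.1 ∪ S.1) hUne hX4
    have h8 := hsmall (S0.1 ∩ S.1) hRne inter_subset_left fun h => hX2 fun a ha => (mem_inter.1 (h ha)).2
    rw [hf, hf] at h7 h8
    rw [hf, hf] at hSm
    linarith
  · have hsub := a2_submod' h0 S0.1 S.1
    have h7 := hgen (S.1 \ S0.1) (sdiff_nonempty.2 hX3) (by
      intro h
      obtain ⟨v, hv'⟩ := hRne
      have h5 : v ∈ S.1 \ S0.1 := by
        rw [h]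
        exact mem_univ v
      exact (mem_sdiff.1 h5).2 (mem_inter.1 hv').1)
    have h8 := hsmall (S0.1 \ S.1) (sdiff_nonempty.2 hX2) sdiff_subset (by
      intro h
      obtain ⟨v, hv'⟩ := hRne
      exact (mem_sdiff.1 (h (mem_inter.1 hv').1)).2 (mem_inter.1 hv').2)
    rw [hf, hf] at h7 h8
    rw [hf, hf] at hSm
    linarith

end H47T
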