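import Pool.Agent.Lib.H47T.A2

/-! # H47T, chunk A3: hypothesis (a) for infeasible points -/

set_option autoImplicit false

namespace H47T

open Finset H98P H98Z H98M H63F H96H

variable {V : Type*} [Fintype V] [DecidableEq V]

/-- PROOF. If no signed vertex is a minimizer: `caseN`. If `(v, b)` is a minimizer with negative payoff: `caseV`. If
its payoff is `≥ 0`, all payoffs are `≥ 0`, so by `py_pos`, `py_neg`, `py_cut` `x` is feasible (trivial cuts: `{v}` or
its complement, `rq_compl`, `cutw_compl`): contradiction. -/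
theorem hyp_a (hV : 4 ≤ Fintype.card V) {s t : V} (hst : s ≠ t) {M : ℝ} (hM : 0 ≤ M) {x : Sym2 V → ℝ}
    (h0 : ∀ e, 0 ≤ x e) (h1 : ∑ e, x e = 1) (hl : ∀ v, x s(v, v) = 0) (hf : ¬ Feas s t M x) :
    AC fun T : Finset (St V) => LL T ∧ ∀ S ∈ T, ∀ S', py s t M x S ≤ py s t M x S' := by
  by_cases hN : ∀ (v : V) (b : Bool), ¬ ∀ S', py s t M x (Sum.inl (v, b)) ≤ py s t M x S'
  · exact caseN hV hM h0 h1 hl hN
  rw [not_forall] at hN
  obtain ⟨v, hN⟩ := hN
  rw [not_forall] at hN
  obtain ⟨b, hv⟩ := hN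
  rw [not_not] at hv
  by_cases hP : py s t M x (Sum.inl (v, b) : St V) < 0
  · exact caseV hst hM h1 hl v b hv hP
  push Not at hP
  have hall : ∀ S' : St V, 0 ≤ py s t M x S' := fun S' => hP.trans (hv S')
  have hdeg : ∀ u, cutw x {u} = rq s t M {u} := by
    intro u
    have e1 := hall (Sum.inl (u, true))
    have e2 := hall (Sum.inl (u, false))
    rw [py_pos h1 hl] at e1
    rw [py_neg h1 hl] at e2
    linarith
  have hN' : ∀ S : NCut V, rq s t M S.1 ≤ cutw x S.1 := by
    intro S
    have e1 := hall (Sum.inr S)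
    rw [py_cut h1 hl] at e1
    linarith
  refine absurd ⟨hdeg, fun S hS hS' => ?_⟩ hf
  have hc : (univ \ S).Nonempty := by
    rw [Finset.sdiff_nonempty]
    intro h
    exact hS' (Finset.univ_subset_iff.1 h)
  by_cases c1 : S.card = 1
  · obtain ⟨u, hu⟩ := Finset.card_eq_one.1 c1
    rw [hu, hdeg]
  by_cases c2 : (univ \ S).card = 1
  · obtain ⟨u, hu⟩ := Finset.card_eq_one.1 c2
    rw [← cutw_compl, ← rq_compl, hu, hdeg]
  have d1 := Finset.card_pos.2 hS
  have d2 := Finset.card_pos.2 hc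
  exact hN' ⟨S, by omega, by omega⟩

/-- For feasible points all payoffs are `≥ 0`, those of the signed vertices are `0`; the minimizers are the signed
vertices and the tight nontrivial cuts. -/
theorem min_of_feas (hV : 4 ≤ Fintype.card V) {s t : V} {M : ℝ} {x : Sym2 V → ℝ} (h1 : ∑ e, x e = 1)
    (hl : ∀ v, x s(v, v) = 0) (hf : Feas s t M x) (S : NCut V)
    (hS : ∀ S', py s t M x (Sum.inr S) ≤ py s t M x S') : cutw x S.1 = rq s t M S.1 := by
  have hne : Nonempty V := Fintype.card_pos_iff.1 (by omega)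
  obtain ⟨v⟩ := hne
  have e1 := hS (Sum.inl (v, true))
  rw [py_cut h1 hl, py_pos h1 hl, hf.1 v, sub_self] at e1
  have e2 : S.1.Nonempty := by
    rw [← Finset.card_pos]
    have := S.2.1
    omega
  have e3 : S.1 ≠ univ := by
    intro h
    have h2 := S.2.2
    rw [h, sdiff_self] at h2
    simp at h2
  have e4 := hf.2 S.1 e2 e3
  linarith

end H47T
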