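import Pool.Agent.Lib.H47T.D

/-! # H47T, chunk PF: push forward of strategies -/

set_option autoImplicit false

namespace H47T

open Finset H98P H98Z H98M H63F H96H

variable {V : Type*} [Fintype V] [DecidableEq V]

/-- PROOF. `μ' S = μ (S, false) + μ (S, true)`; `Fintype.sum_prod_type`, `Fintype.sum_bool`. -/
theorem push {s t : V} {M : ℝ} {T : Finset (St V × Bool)} {μ : St V × Bool → ℝ} (hμ : μ ∈ Sx T) :
    ∃ μ' ∈ Sx (T.image Prod.fst), (∀ S, μ' S = μ (S, false) + μ (S, true)) ∧
      ∀ e : Sym2 V, mm (pT2 s t M) μ e = mm (pT s t M) μ' e := by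
  classical
  obtain ⟨h0, hT, h1⟩ := hμ
  refine ⟨fun S => μ (S, false) + μ (S, true), ⟨fun S => add_nonneg (h0 _) (h0 _), fun S hS => ?_, ?_⟩,
    fun S => rfl, fun e => ?_⟩
  · have e1 : μ (S, false) = 0 := hT _ fun h => hS (Finset.mem_image.2 ⟨_, h, rfl⟩)
    have e2 : μ (S, true) = 0 := hT _ fun h => hS (Finset.mem_image.2 ⟨_, h, rfl⟩)
    change μ (S, false) + μ (S, true) = 0
    rw [e1, e2, add_zero]
  · rw [Fintype.sum_prod_type] at h1
    rw [← h1]
    refine Finset.sum_congr rfl fun S _ => ?_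
    rw [Fintype.sum_bool, add_comm]
  · unfold mm
    rw [Fintype.sum_prod_type]
    refine Finset.sum_congr rfl fun S _ => ?_
    rw [Fintype.sum_bool]
    change μ (S, true) * pT s t M e S + μ (S, false) * pT s t M e S =
      (μ (S, false) + μ (S, true)) * pT s t M e S
    ring

end H47T
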