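import Pool.Agent.Lib.H96H.B2
import Pool.Agent.Lib.H47T.PF

/-! # H47T, chunk B: hypothesis (b) -/

set_option autoImplicit false

namespace H47T

open Finset H98P H98Z H98M H63F H96H

variable {V : Type*} [Fintype V] [DecidableEq V]

private theorem b_px_nonneg (e : Sym2 V) (S : Finset V) : 0 ≤ px e S := by
  unfold px
  split_ifs
  · exact zero_le_one
  · exact le_rfl

private theorem b_px_le (e : Sym2 V) (S : Finset V) : px e S ≤ 1 := by
  unfold px
  split_ifs
  · exact le_rfl
  · exact zero_le_one

private theorem b_rq_nonneg (s t : V) {M : ℝ} (hM : 0 ≤ M) (S : Finset V) : 0 ≤ rq s t M S := by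
  unfold rq
  have hn : (0 : ℝ) ≤ (Fintype.card V : ℝ) := Nat.cast_nonneg _
  refine div_nonneg ?_ (by linarith)
  split_ifs <;> linarith

private theorem b_rq_le (hV : 4 ≤ Fintype.card V) (s t : V) {M : ℝ} (hM : 0 ≤ M) (S : Finset V) :
    rq s t M S ≤ 1 := by
  unfold rq
  have hn : (4 : ℝ) ≤ (Fintype.card V : ℝ) := by exact_mod_cast hV
  rw [div_le_one (by linarith)]
  split_ifs <;> linarith

/-- PROOF. For `e` not a loop `mm (pT s t M) μ e - mm pp μ e` does not depend on `e` (the sum of `μ S` times the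
difference of the two constants), for loops both are `-10`; both are `≥ -1` for non-loops (entries `≥ -1`: `rq ≤ 1`
as `n ≥ 4`). So for `G` without loops `Amax (pT s t M) μ G ↔ Amax pp μ G`; `H96H.hyp_b` and `H63F.ac_congr`. -/
theorem hyp_b (hV : 4 ≤ Fintype.card V) {cross : Sym2 V → Sym2 V → Prop}
    (hsymm : ∀ e f, cross e f → cross f e) (hHD : ∀ W : Finset V, HD cross W) {s t : V} {M : ℝ} (hM : 0 ≤ M)
    {T : Finset (St V)} (hT : LL T) {μ : St V → ℝ} (hμ : μ ∈ Sx T) :
    AC fun G : Finset (Sym2 V) => KK cross G ∧ Amax (pT s t M) μ G := by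
  classical
  have hmain := H96H.hyp_b hV hsymm hHD hT hμ
  obtain ⟨hμ0, -, hμ1⟩ := hμ
  have hn : (4 : ℝ) ≤ (Fintype.card V : ℝ) := by exact_mod_cast hV
  have hn2 : 2 / (Fintype.card V : ℝ) ≤ 1 := by
    rw [div_le_one (by linarith)]
    linarith
  have hn0 : 0 ≤ 2 / (Fintype.card V : ℝ) := by positivity
  -- the loops
  have hTl : ∀ e : Sym2 V, e.IsDiag → mm (pT s t M) μ e = -10 := by
    intro e he
    have h1 : ∀ q : St V, pT s t M e q = -10 := by
      rintro (⟨v, b⟩ | R)
      · simp only [pT, if_pos he]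
      · simp only [pT, if_pos he]
    unfold mm
    rw [sum_congr rfl fun q _ => by rw [h1 q], ← sum_mul, hμ1, one_mul]
  have hPl : ∀ e : Sym2 V, e.IsDiag → mm pp μ e = -10 := by
    intro e he
    have h1 : ∀ q : St V, pp e q = -10 := by
      rintro (⟨v, b⟩ | R)
      · simp only [pp, if_pos he]
      · simp only [pp, if_pos he]
    unfold mm
    rw [sum_congr rfl fun q _ => by rw [h1 q], ← sum_mul, hμ1, one_mul]
  -- lower bounds
  have hTge : ∀ e : Sym2 V, ¬ e.IsDiag → -1 ≤ mm (pT s t M) μ e := by
    intro e he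
    have h1 : ∀ q : St V, -1 ≤ pT s t M e q := by
      rintro (⟨v, b⟩ | R)
      · have h2 := b_px_nonneg e {v}
        have h3 := b_px_le e {v}
        have h4 := b_rq_nonneg s t hM {v}
        have h5 := b_rq_le hV s t hM {v}
        cases b
        · simp only [pT, if_neg he]
          norm_num
          linarith
        · simp only [pT, if_neg he]
          norm_num
          linarith
      · have h2 := b_px_nonneg e R.1
        have h5 := b_rq_le hV s t hM R.1
        simp only [pT, if_neg he]
        linarith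
    unfold mm
    calc (-1 : ℝ) = ∑ q, μ q * (-1) := by rw [← sum_mul, hμ1, one_mul]
      _ ≤ ∑ q, μ q * pT s t M e q := sum_le_sum fun q _ => mul_le_mul_of_nonneg_left (h1 q) (hμ0 q)
  have hPge : ∀ e : Sym2 V, ¬ e.IsDiag → -1 ≤ mm pp μ e := by
    intro e he
    have h1 : ∀ q : St V, -1 ≤ pp e q := by
      rintro (⟨v, b⟩ | R)
      · have h2 := b_px_nonneg e {v}
        have h3 := b_px_le e {v}
        cases b
        · simp only [pp, if_neg he]
          norm_num
          linarith
        · simp only [pp, if_neg he]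
          norm_num
          linarith
      · have h2 := b_px_nonneg e R.1
        simp only [pp, if_neg he]
        linarith
    unfold mm
    calc (-1 : ℝ) = ∑ q, μ q * (-1) := by rw [← sum_mul, hμ1, one_mul]
      _ ≤ ∑ q, μ q * pp e q := sum_le_sum fun q _ => mul_le_mul_of_nonneg_left (h1 q) (hμ0 q)
  -- the constant
  obtain ⟨κ, hκ⟩ : ∃ κ : ℝ, ∀ e : Sym2 V, ¬ e.IsDiag → mm (pT s t M) μ e = mm pp μ e + κ := by
    refine ⟨∑ q : St V, μ q * (match q with
      | .inl (v, b) => (if b = true then 1 else -1) * (2 / (Fintype.card V : ℝ) - rq s t M {v})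
      | .inr S => 2 / (Fintype.card V : ℝ) - rq s t M S.1), fun e he => ?_⟩
    unfold mm
    rw [← sum_add_distrib]
    refine sum_congr rfl fun q _ => ?_
    rw [← mul_add]
    congr 1
    rcases q with ⟨v, b⟩ | R
    · simp only [pT, pp, if_neg he]
      ring
    · simp only [pT, pp, if_neg he]
      ring
  have hiff : ∀ G : Finset (Sym2 V), (KK cross G ∧ Amax (pT s t M) μ G) ↔ (KK cross G ∧ Amax pp μ G) := by
    intro G
    refine and_congr_right fun hG => ?_
    have hel : ∀ e ∈ G, ¬ e.IsDiag := by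
      intro e he h
      induction e with
      | _ x y =>
        rw [Sym2.mk_isDiag_iff] at h
        subst h
        exact hG.2 x he
    constructor
    · intro h e he f
      by_cases hf : f.IsDiag
      · rw [hPl f hf]
        have h5 := hPge e (hel e he)
        linarith
      · have h4 := h e he f
        rw [hκ f hf, hκ e (hel e he)] at h4
        linarith
    · intro h e he f
      by_cases hf : f.IsDiag
      · rw [hTl f hf]
        have h5 := hTge e (hel e he)
        linarith
      · have h4 := h e he f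
        rw [hκ f hf, hκ e (hel e he)]
        linarith
  intro z hz hb
  obtain ⟨c, hc, hcb⟩ := hmain z (fun G hG => (hiff G).1 (hz G hG)) hb
  exact ⟨c, fun G hG => (hiff G).2 (hc G hG), hcb⟩

/-- PROOF. `μ' S = μ (S, false) + μ (S, true)` is in `Sx (T.image Prod.fst)` and
`mm (pT2 s t M) μ e = mm (pT s t M) μ' e`. -/
theorem hyp_b2 (hV : 4 ≤ Fintype.card V) {cross : Sym2 V → Sym2 V → Prop}
    (hsymm : ∀ e f, cross e f → cross f e) (hHD : ∀ W : Finset V, HD cross W) {s t : V} {M : ℝ} (hM : 0 ≤ M)
    {T : Finset (St V × Bool)} (hT : LL (T.image Prod.fst)) {μ : St V × Bool → ℝ} (hμ : μ ∈ Sx T) :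
    AC fun G : Finset (Sym2 V) => KK cross G ∧ Amax (pT2 s t M) μ G := by
  obtain ⟨μ', hμ', -, h2⟩ := push (s := s) (t := t) (M := M) hμ
  have hmain := hyp_b hV hsymm hHD (s := s) (t := t) hM hT hμ'
  have hiff : ∀ G : Finset (Sym2 V),
      (KK cross G ∧ Amax (pT2 s t M) μ G) ↔ (KK cross G ∧ Amax (pT s t M) μ' G) := by
    intro G
    refine and_congr_right fun _ => ?_
    constructor
    · intro h e he f
      rw [← h2, ← h2]
      exact h e he f
    · intro h e he f
      rw [h2, h2]
      exact h e he f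
  intro z hz hb
  obtain ⟨c, hc, hcb⟩ := hmain z (fun G hG => (hiff G).1 (hz G hG)) hb
  exact ⟨c, fun G hG => (hiff G).2 (hc G hG), hcb⟩

end H47T
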