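import Pool.Agent.Lib.H47T.A0
import Pool.Agent.Lib.H96H.C1

/-! # H47T, chunk C1: the weighted column sums of the payoff matrix -/

set_option autoImplicit false

namespace H47T

open Finset H98P H98Z H98M H63F H96H

variable {V : Type*} [Fintype V] [DecidableEq V]

open Classical in
/-- The weights of the average of all Hamiltonian cycles plus `M` times `st`, divided by `n + M`. -/
noncomputable def yw (s t : V) (M : ℝ) (e : Sym2 V) : ℝ :=
  if e.IsDiag then 0 else (2 / ((Fintype.card V : ℝ) - 1) + if e = s(s, t) then M else 0) / ((Fintype.card V : ℝ) + M)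

private theorem C1_px (S : Finset V) :
    ∑ e ∈ (univ : Finset (Sym2 V)).filter (fun e => ¬ e.IsDiag), px e S =
      (S.card : ℝ) * ((univ \ S).card : ℝ) := by
  classical
  have h1 : (((univ : Finset (Sym2 V)).filter (fun e => ¬ e.IsDiag)).filter
      (fun e => ∃ a ∈ S, ∃ b, b ∉ S ∧ e = s(a, b))) =
      (S ×ˢ (univ \ S)).image (fun p : V × V => s(p.1, p.2)) := by
    ext e
    simp only [mem_filter, mem_univ, true_and, mem_image, mem_product, mem_sdiff, Prod.exists]
    constructor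
    · rintro ⟨_, a, ha, b, hb, rfl⟩
      exact ⟨a, b, ⟨ha, hb⟩, rfl⟩
    · rintro ⟨a, b, ⟨ha, hb⟩, rfl⟩
      refine ⟨?_, a, ha, b, hb, rfl⟩
      intro hd
      rw [Sym2.mk_isDiag_iff] at hd
      exact hb (hd ▸ ha)
  have h2 : ∑ e ∈ (univ : Finset (Sym2 V)).filter (fun e => ¬ e.IsDiag), px e S =
      (((((univ : Finset (Sym2 V)).filter (fun e => ¬ e.IsDiag)).filter
      (fun e => ∃ a ∈ S, ∃ b, b ∉ S ∧ e = s(a, b)))).card : ℝ) := by
    rw [← Finset.sum_boole]
    apply Finset.sum_congr rfl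
    intro e _
    unfold px
    by_cases h : ∃ a ∈ S, ∃ b, b ∉ S ∧ e = s(a, b)
    · rw [if_pos h, if_pos h]
    · rw [if_neg h, if_neg h]
  rw [h2, h1, Finset.card_image_of_injOn, Finset.card_product]
  · push_cast
    ring
  · rintro ⟨a, b⟩ hab ⟨c, d⟩ hcd h
    simp only [Finset.coe_product, Set.mem_prod, mem_coe, mem_sdiff, mem_univ, true_and] at hab hcd
    have h' : s(a, b) = s(c, d) := h
    rw [Sym2.eq_iff] at h'
    rcases h' with ⟨h3, h4⟩ | ⟨h3, h4⟩
    · rw [h3, h4]
    · exact absurd (h3 ▸ hab.1) hcd.2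

private theorem C1_card :
    (((univ : Finset (Sym2 V)).filter (fun e => ¬ e.IsDiag)).card : ℝ) =
      (Fintype.card V : ℝ) * ((Fintype.card V : ℝ) - 1) / 2 := by
  classical
  have h1 : ((univ : Finset (Sym2 V)).filter (fun e => ¬ e.IsDiag)).card = (Fintype.card V).choose 2 := by
    rw [← Sym2.card_subtype_not_diag, Fintype.card_subtype]
  rw [h1, Nat.cast_choose_two]

private theorem C1_mk (a b : V) (S : Finset V) : px s(a, b) S = if (a ∈ S ↔ b ∈ S) then 0 else 1 := by
  unfold px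
  by_cases ha : a ∈ S <;> by_cases hb : b ∈ S
  · rw [if_neg, if_pos (by simp [ha, hb])]
    rintro ⟨x, hx, y, hy, h⟩
    rcases Sym2.eq_iff.1 h with ⟨h1, h2⟩ | ⟨h1, h2⟩
    · exact hy (h2 ▸ hb)
    · exact hy (h1 ▸ ha)
  · rw [if_pos ⟨a, ha, b, hb, rfl⟩, if_neg (by simp [ha, hb])]
  · rw [if_pos ⟨b, hb, a, ha, Sym2.eq_swap⟩, if_neg (by simp [ha, hb])]
  · rw [if_neg, if_pos (by simp [ha, hb])]
    rintro ⟨x, hx, y, hy, h⟩
    rcases Sym2.eq_iff.1 h with ⟨h1, h2⟩ | ⟨h1, h2⟩
    · exact ha (h1 ▸ hx)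
    · exact hb (h2 ▸ hx)

private theorem C1_main (hV : 4 ≤ Fintype.card V) {s t : V} (hst : s ≠ t) {M : ℝ} (hM : 0 ≤ M) (S : Finset V) :
    ∑ e ∈ (univ : Finset (Sym2 V)).filter (fun e => ¬ e.IsDiag), yw s t M e * (px e S - rq s t M S) =
      (2 * ((S.card : ℝ) * ((univ \ S).card : ℝ)) / ((Fintype.card V : ℝ) - 1) - 2) / ((Fintype.card V : ℝ) + M) := by
  classical
  have hn4 : (4 : ℝ) ≤ (Fintype.card V : ℝ) := by exact_mod_cast hV
  set n : ℝ := (Fintype.card V : ℝ) with hn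
  have hN : 0 < n + M := by linarith
  have hn1 : 0 < n - 1 := by linarith
  have hst' : ¬ (s(s, t) : Sym2 V).IsDiag := by
    rw [Sym2.mk_isDiag_iff]
    exact hst
  have hmst : (s(s, t) : Sym2 V) ∈ (univ : Finset (Sym2 V)).filter (fun e => ¬ e.IsDiag) :=
    Finset.mem_filter.2 ⟨Finset.mem_univ _, hst'⟩
  have h1 : ∀ e ∈ (univ : Finset (Sym2 V)).filter (fun e => ¬ e.IsDiag), yw s t M e * (px e S - rq s t M S) =
      2 / (n - 1) / (n + M) * (px e S - rq s t M S) +
        (if e = s(s, t) then M / (n + M) * (px e S - rq s t M S) else 0) := by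
    intro e he
    have hd : ¬ e.IsDiag := (mem_filter.mp he).2
    unfold yw
    rw [if_neg hd]
    by_cases h2 : e = s(s, t)
    · rw [if_pos h2, if_pos h2]
      ring
    · rw [if_neg h2, if_neg h2]
      ring
  rw [Finset.sum_congr rfl h1, Finset.sum_add_distrib, ← Finset.mul_sum, Finset.sum_sub_distrib, C1_px,
    Finset.sum_const, nsmul_eq_mul, C1_card, ← hn,
    Finset.sum_eq_single (s(s, t) : Sym2 V) (fun e _ he => if_neg he)
      (fun h => absurd hmst h), if_pos rfl, C1_mk]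
  have h3 : rq s t M S = (2 + (if (s ∈ S ↔ t ∈ S) then (0 : ℝ) else 1) * M) / (n + M) := by
    unfold rq Sep
    by_cases h4 : (s ∈ S ↔ t ∈ S)
    · rw [if_neg (not_not.2 h4), if_pos h4, zero_mul]
    · rw [if_pos h4, if_neg h4, one_mul]
  rw [h3]
  set σ : ℝ := (if (s ∈ S ↔ t ∈ S) then (0 : ℝ) else 1)
  field_simp
  ring

theorem yw_pos (hV : 4 ≤ Fintype.card V) {s t : V} {M : ℝ} (hM : 0 ≤ M) (e : Sym2 V) (he : ¬ e.IsDiag) :
    0 < yw s t M e := by
  have hn4 : (4 : ℝ) ≤ (Fintype.card V : ℝ) := by exact_mod_cast hV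
  unfold yw
  rw [if_neg he]
  have h1 : 0 < 2 / ((Fintype.card V : ℝ) - 1) := div_pos two_pos (by linarith)
  have h2 : (0 : ℝ) ≤ if e = s(s, t) then M else 0 := by
    split_ifs
    · exact hM
    · exact le_rfl
  exact div_pos (by linarith) (by linarith)

/-- PROOF: `∑ yw e = 1`, `∑ yw e * px e S = (2 |S| |V - S| / (n - 1) + (M if S separates s, t)) / (n + M)` (see `c1_px`
in `H96H/C1.lean`), which is `rq s t M {v}` for `S = {v}`. -/
theorem yw_vert (hV : 4 ≤ Fintype.card V) {s t : V} (hst : s ≠ t) {M : ℝ} (hM : 0 ≤ M) (v : V) (b : Bool) :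
    ∑ e, yw s t M e * pT s t M e (Sum.inl (v, b)) = 0 := by
  classical
  have hn4 : (4 : ℝ) ≤ (Fintype.card V : ℝ) := by exact_mod_cast hV
  have h0 : ∑ e, yw s t M e * pT s t M e (Sum.inl (v, b)) =
      ∑ e ∈ (univ : Finset (Sym2 V)).filter (fun e => ¬ e.IsDiag), yw s t M e * pT s t M e (Sum.inl (v, b)) := by
    refine (Finset.sum_subset (Finset.filter_subset _ _) fun e _ he => ?_).symm
    have hd : e.IsDiag := by
      by_contra h
      exact he (Finset.mem_filter.2 ⟨Finset.mem_univ _, h⟩)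
    unfold yw
    rw [if_pos hd, zero_mul]
  have h1 : ∑ e ∈ (univ : Finset (Sym2 V)).filter (fun e => ¬ e.IsDiag), yw s t M e * pT s t M e (Sum.inl (v, b)) =
      ∑ e ∈ (univ : Finset (Sym2 V)).filter (fun e => ¬ e.IsDiag),
        (if b = true then (1 : ℝ) else -1) * (yw s t M e * (px e {v} - rq s t M {v})) := by
    apply Finset.sum_congr rfl
    intro e he
    have hd : ¬ e.IsDiag := (mem_filter.mp he).2
    unfold pT
    simp only [hd, if_false]
    ring
  have h2 : ((univ \ ({v} : Finset V)).card : ℝ) = (Fintype.card V : ℝ) - 1 := by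
    rw [Finset.card_univ_sdiff, Finset.card_singleton, Nat.cast_sub (by omega)]
    norm_num
  have h3 : (Fintype.card V : ℝ) - 1 ≠ 0 := by
    intro h
    linarith
  rw [h0, h1, ← Finset.mul_sum, C1_main hV hst hM, h2, Finset.card_singleton, Nat.cast_one, one_mul,
    mul_div_assoc, div_self h3]
  simp

/-- ... and larger than `rq s t M S` for nontrivial cuts (`|S| |V - S| > n - 1` as `n ≥ 4`). -/
theorem yw_cut (hV : 4 ≤ Fintype.card V) {s t : V} (hst : s ≠ t) {M : ℝ} (hM : 0 ≤ M) (S : NCut V) :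
    0 < ∑ e, yw s t M e * pT s t M e (Sum.inr S) := by
  classical
  have hn4 : (4 : ℝ) ≤ (Fintype.card V : ℝ) := by exact_mod_cast hV
  have h0 : ∑ e, yw s t M e * pT s t M e (Sum.inr S) =
      ∑ e ∈ (univ : Finset (Sym2 V)).filter (fun e => ¬ e.IsDiag), yw s t M e * (px e S.1 - rq s t M S.1) := by
    rw [← Finset.sum_subset (Finset.filter_subset (fun e => ¬ e.IsDiag) _) (fun e _ he => ?_)]
    · apply Finset.sum_congr rfl
      intro e he
      have hd : ¬ e.IsDiag := (mem_filter.mp he).2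
      unfold pT
      simp only [hd, if_false]
    · have hd : e.IsDiag := by
        by_contra h
        exact he (Finset.mem_filter.2 ⟨Finset.mem_univ _, h⟩)
      unfold yw
      rw [if_pos hd, zero_mul]
  rw [h0, C1_main hV hst hM]
  have h2 : (2 : ℝ) ≤ (S.1.card : ℝ) := by exact_mod_cast S.2.1
  have h3 : (2 : ℝ) ≤ ((univ \ S.1).card : ℝ) := by exact_mod_cast S.2.2
  have h4 : (S.1.card : ℝ) + ((univ \ S.1).card : ℝ) = (Fintype.card V : ℝ) := by
    have h5 : S.1.card + (univ \ S.1).card = Fintype.card V := by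
      rw [Finset.card_univ_sdiff]
      have := Finset.card_le_univ S.1
      omega
    exact_mod_cast h5
  refine div_pos ?_ (by linarith)
  rw [sub_pos, lt_div_iff₀ (by linarith)]
  rw [← h4]
  nlinarith [mul_nonneg (sub_nonneg.mpr h2) (sub_nonneg.mpr h3)]

end H47T
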