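import Pool.Agent.Lib.H47T.C1

/-! # H47T, chunk C2: there is no equilibrium -/

set_option autoImplicit false

namespace H47T

open Finset H98P H98Z H98M H63F H96H

variable {V : Type*} [Fintype V] [DecidableEq V]

private theorem c2_px {a b : V} (hab : a ≠ b) (v : V) :
    px s(a, b) {v} = (if v = a then (1 : ℝ) else 0) + (if v = b then (1 : ℝ) else 0) := by
  unfold px
  by_cases h1 : v = a
  · subst h1
    rw [if_pos ⟨v, mem_singleton_self v, b, by
      rw [mem_singleton]
      exact hab.symm, rfl⟩, if_pos rfl, if_neg hab, add_zero]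
  · by_cases h2 : v = b
    · subst h2
      rw [if_pos ⟨v, mem_singleton_self v, a, by
        rw [mem_singleton]
        exact hab, Sym2.eq_swap⟩, if_neg h1, if_pos rfl, zero_add]
    · rw [if_neg, if_neg h1, if_neg h2, add_zero]
      rintro ⟨c, hc, d, hd, he⟩
      rw [mem_singleton] at hc
      subst hc
      rw [Sym2.eq_iff] at he
      rcases he with ⟨h3, _⟩ | ⟨_, h3⟩
      · exact h1 h3.symm
      · exact h2 h3.symm

/-- PROOF: as `H96H.no_equilibrium`. `c e = mm (pT s t M) μ e` is maximal on `G`, so `max c = ∑ x e c e =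
∑ μ S py S ≤ 0` (Fubini; loops: `-10 < 0`). The sum of `yw e * c e` is `≥ 0` by `yw_vert`, `yw_cut`, so `c e = 0` for
all non-loops (`yw_pos`; `yw = 0` for loops) and `μ S = 0` for all cuts. Then `c s(a,b) = u a + u b - const`,
`u v = μ (v+) - μ (v-)`, so `u` is constant (`n ≥ 3`), `u v = r`. If `r > 0` all `v+ ∈ T`, if `r < 0` all `v- ∈ T`, if
`r = 0` then `μ = 0`. -/
theorem no_mu (hV : 4 ≤ Fintype.card V) {s t : V} (hst : s ≠ t) {M : ℝ} (hM : 0 ≤ M) {G : Finset (Sym2 V)}
    (hG : ∀ v, s(v, v) ∉ G) {x : Sym2 V → ℝ} (hx : x ∈ Sx G) {T : Finset (St V)} (hT : LL T) {μ : St V → ℝ}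
    (hμ : μ ∈ Sx T) (hmax : Amax (pT s t M) μ G) (hle : ∑ S, μ S * py s t M x S ≤ 0) : False := by
  classical
  obtain ⟨hx0, hx1, hx2⟩ := hx
  obtain ⟨hm0, hm1, hm2⟩ := hμ
  obtain ⟨hT1, hT2, hT3⟩ := hT
  have hVne : Nonempty V := Fintype.card_pos_iff.1 (by omega)
  have hfub : ∑ e, x e * mm (pT s t M) μ e = ∑ S, μ S * py s t M x S := by
    unfold mm py pay
    simp only [add_zero, mul_sum]
    rw [sum_comm]
    exact sum_congr rfl fun S _ => sum_congr rfl fun e _ => by ring
  have hGne : G.Nonempty := by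
    by_contra h
    rw [not_nonempty_iff_eq_empty] at h
    have h1 : ∑ e, x e = 0 := sum_eq_zero fun e _ => hx1 e (by
      rw [h]
      exact notMem_empty _)
    rw [hx2] at h1
    exact one_ne_zero h1
  obtain ⟨e0, he0⟩ := hGne
  have hL : ∑ e, x e * mm (pT s t M) μ e = mm (pT s t M) μ e0 := by
    have h1 : ∀ e, x e * mm (pT s t M) μ e = x e * mm (pT s t M) μ e0 := by
      intro e
      by_cases he : e ∈ G
      · rw [le_antisymm (hmax e0 he0 e) (hmax e he e0)]
      · rw [hx1 e he, zero_mul, zero_mul]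
    rw [sum_congr rfl fun e _ => h1 e, ← sum_mul, hx2, one_mul]
  have hle' : ∀ f, mm (pT s t M) μ f ≤ 0 := fun f => (hmax e0 he0 f).trans (by
    rw [← hL, hfub]
    exact hle)
  have hyz : ∀ e : Sym2 V, e.IsDiag → yw s t M e = 0 := fun e he => by
    unfold yw
    rw [if_pos he]
  have hy0 : ∀ e : Sym2 V, 0 ≤ yw s t M e := by
    intro e
    by_cases he : e.IsDiag
    · rw [hyz e he]
    · exact (yw_pos hV hM e he).le
  have hsum : ∑ e, yw s t M e * mm (pT s t M) μ e =
      ∑ S, μ S * ∑ e, yw s t M e * pT s t M e S := by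
    unfold mm
    simp only [mul_sum]
    rw [sum_comm]
    exact sum_congr rfl fun S _ => sum_congr rfl fun e _ => by ring
  have hterm : ∀ S : St V, 0 ≤ μ S * ∑ e, yw s t M e * pT s t M e S := by
    rintro (⟨v, b⟩ | S)
    · rw [yw_vert hV hst hM, mul_zero]
    · exact mul_nonneg (hm0 _) (yw_cut hV hst hM S).le
  have hneg : ∀ e : Sym2 V, yw s t M e * mm (pT s t M) μ e ≤ 0 := fun e =>
    mul_nonpos_of_nonneg_of_nonpos (hy0 e) (hle' e)
  have hz : ∑ e, yw s t M e * mm (pT s t M) μ e = 0 :=
    le_antisymm (sum_nonpos fun e _ => hneg e) (by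
      rw [hsum]
      exact sum_nonneg fun S _ => hterm S)
  have hc : ∀ e : Sym2 V, ¬ e.IsDiag → mm (pT s t M) μ e = 0 := fun e he => by
    have h1 := (sum_eq_zero_iff_of_nonpos fun e _ => hneg e).1 hz e (mem_univ e)
    rcases mul_eq_zero.1 h1 with h2 | h2
    · exact absurd h2 (yw_pos hV hM e he).ne'
    · exact h2
  have hcut : ∀ S : NCut V, μ (Sum.inr S) = 0 := by
    intro S
    have h1 : ∑ S, μ S * ∑ e, yw s t M e * pT s t M e S = 0 := by
      rw [← hsum, hz]
    have h2 := (sum_eq_zero_iff_of_nonneg fun S _ => hterm S).1 h1 (Sum.inr S) (mem_univ _)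
    rcases mul_eq_zero.1 h2 with h3 | h3
    · exact h3
    · exact absurd h3 (yw_cut hV hst hM S).ne'
  obtain ⟨u, hu0⟩ : ∃ u : V → ℝ, ∀ v, u v = μ (Sum.inl (v, true)) - μ (Sum.inl (v, false)) := ⟨_, fun _ => rfl⟩
  have hu : ∀ a b : V, a ≠ b → u a + u b = ∑ v, u v * rq s t M {v} := by
    intro a b hab
    have hd : ¬ (s(a, b) : Sym2 V).IsDiag := by
      rw [Sym2.mk_isDiag_iff]
      exact hab
    have h1 := hc s(a, b) hd
    unfold mm at h1
    rw [Fintype.sum_sum_type, Fintype.sum_prod_type] at h1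
    have h2 : ∑ S : NCut V, μ (Sum.inr S) * pT s t M s(a, b) (Sum.inr S : St V) = 0 :=
      sum_eq_zero fun S _ => by rw [hcut S, zero_mul]
    rw [h2, add_zero] at h1
    have h3 : ∀ v : V, ∑ b' : Bool, μ (Sum.inl (v, b')) * pT s t M s(a, b) (Sum.inl (v, b') : St V) =
        u v * (px s(a, b) {v} - rq s t M {v}) := by
      intro v
      rw [Fintype.sum_bool, hu0]
      unfold pT
      simp only [hd, if_false, if_true, Bool.false_eq_true]
      ring
    rw [sum_congr rfl fun v _ => h3 v] at h1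
    have h4 : ∑ v, u v * (px s(a, b) {v} - rq s t M {v}) =
        u a + u b - ∑ v, u v * rq s t M {v} := by
      have h5 : ∀ v, u v * (px s(a, b) {v} - rq s t M {v}) =
          (if v = a then u v else 0) + (if v = b then u v else 0) - u v * rq s t M {v} := by
        intro v
        rw [c2_px hab]
        split_ifs <;> ring
      rw [sum_congr rfl fun v _ => h5 v, sum_sub_distrib, sum_add_distrib,
        sum_ite_eq' univ a u, sum_ite_eq' univ b u, if_pos (mem_univ _), if_pos (mem_univ _)]
    rw [h4] at h1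
    linarith
  have hthird : ∀ b c : V, ∃ a, a ≠ b ∧ a ≠ c := by
    intro b c
    by_contra h
    push Not at h
    have h1 : (univ : Finset V) ⊆ {b, c} := fun a _ => by
      rw [mem_insert, mem_singleton]
      by_cases h2 : a = b
      · exact Or.inl h2
      · exact Or.inr (h a h2)
    have h2 := card_le_card h1
    have h3 : ({b, c} : Finset V).card ≤ 2 := card_le_two
    rw [card_univ] at h2
    omega
  have hconst : ∀ b c, u b = u c := by
    intro b c
    obtain ⟨a, h1, h2⟩ := hthird b c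
    have h3 := hu a b h1
    have h4 := hu a c h2
    linarith
  have hinT : ∀ S : St V, 0 < μ S → S ∈ T := by
    intro S hS
    by_contra h
    rw [hm1 S h] at hS
    exact lt_irrefl _ hS
  obtain ⟨v0⟩ := hVne
  rcases lt_trichotomy (u v0) 0 with ht | ht | ht
  · obtain ⟨v, hv⟩ := hT3 false
    apply hv
    apply hinT
    have h1 := hconst v v0
    have h2 := hu0 v
    have h3 := hm0 (Sum.inl (v, true))
    linarith
  · have hall : ∀ S : St V, μ S = 0 := by
      rintro (⟨v, b⟩ | S)
      · have h1 : μ (Sum.inl (v, true)) = μ (Sum.inl (v, false)) := by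
          have h2 := hconst v v0
          have h3 := hu0 v
          linarith
        have h2 : μ (Sum.inl (v, true)) = 0 := by
          by_contra h
          have h3 : 0 < μ (Sum.inl (v, true)) := lt_of_le_of_ne (hm0 _) (Ne.symm h)
          exact hT2 v ⟨hinT _ h3, hinT _ (h1 ▸ h3)⟩
        cases b
        · rw [← h1, h2]
        · exact h2
      · exact hcut S
    rw [sum_congr rfl fun S _ => hall S, sum_const_zero] at hm2
    exact zero_ne_one hm2
  · obtain ⟨v, hv⟩ := hT3 true
    apply hv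
    apply hinT
    have h1 := hconst v v0
    have h2 := hu0 v
    have h3 := hm0 (Sum.inl (v, false))
    linarith

end H47T
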