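import Pool.Agent.Lib.H47T.D

/-! # H47T, chunk E1: the block crosses nothing -/

set_option autoImplicit false

namespace H47T

open Finset H98P H98Z H98M H63F H96H

variable {V : Type*} [Fintype V] [DecidableEq V]

/-- Four points in the four corners. -/
private theorem e1_four {S R : Finset V} (h : NonX S R) (c d p q : V) (hc : c ∈ S) (hd : d ∉ S) (hp : p ∈ S)
    (hq : q ∉ S) (hcd : c ∈ R ↔ d ∈ R) (hpq : p ∈ R ↔ q ∈ R) (hcp : ¬ (c ∈ R ↔ p ∈ R)) : False := by
  rcases h with h | h | h | h
  · have h1 : ∀ x, x ∈ S → x ∉ R := fun x hx hx' => by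
      have h2 : x ∈ S ∩ R := Finset.mem_inter.2 ⟨hx, hx'⟩
      rw [h] at h2
      exact absurd h2 (Finset.notMem_empty x)
    have h2 := h1 c hc
    have h3 := h1 p hp
    tauto
  · have h2 := h hc
    have h3 := h hp
    tauto
  · have h2 : d ∉ R := fun hx => hd (h hx)
    have h3 : q ∉ R := fun hx => hq (h hx)
    tauto
  · have h1 : ∀ x, x ∉ S → x ∈ R := fun x hx => by
      have h2 : x ∈ S ∪ R := by rw [h]; exact Finset.mem_univ x
      exact (Finset.mem_union.1 h2).resolve_left hx
    have h2 := h1 d hd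
    have h3 := h1 q hq
    tauto

/-- PROOF. Let `B = blk s t τ a`, `s, t ∉ B`. If `R ∈ τ`: if `a ∈ R` then `B ⊆ R`, otherwise `B ∩ R = ∅`. If `R` does
not separate `s` and `t` let `R'` be `R` or its complement, without `s`, `t`. If some `c ∈ R' ∩ B`, then `R' ⊆ B`: for
`d ∈ R'` and `S ∈ τ` (which separates `s`, `t`) `c ∈ S ↔ d ∈ S`, because otherwise `S` and `R` cross (`c`, `d`, `s`,
`t` are in the four corners). So `B` and `R` do not cross. -/
theorem blk_nonx {s t : V} {τ : Finset (St V)} (hτ : ∀ S : NCut V, Sum.inr S ∈ τ → Sep s t S.1) (a : V) (R : NCut V)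
    (hR : ∀ S : NCut V, Sum.inr S ∈ τ → NonX S.1 R.1) (h : Sum.inr R ∈ τ ∨ ¬ Sep s t R.1) :
    NonX (blk s t τ a) R.1 := by
  classical
  have hmem : ∀ c, c ∈ blk s t τ a ↔
      c ≠ s ∧ c ≠ t ∧ ∀ S : NCut V, (Sum.inr S : St V) ∈ τ → (a ∈ S.1 ↔ c ∈ S.1) := by
    intro c
    unfold blk
    simp
  by_cases hRτ : (Sum.inr R : St V) ∈ τ
  · by_cases haR : a ∈ R.1
    · right
      left
      intro c hc
      exact (((hmem c).1 hc).2.2 R hRτ).1 haR
    · left
      rw [Finset.eq_empty_iff_forall_notMem]
      intro c hc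
      obtain ⟨hc1, hc2⟩ := Finset.mem_inter.1 hc
      exact haR ((((hmem c).1 hc1).2.2 R hRτ).2 hc2)
  · have hns : (s ∈ R.1 ↔ t ∈ R.1) := not_not.1 (h.resolve_left hRτ)
    -- two points on the side of `R` without `s` are not separated
    have key : ∀ c ∈ blk s t τ a, ¬ (c ∈ R.1 ↔ s ∈ R.1) → ∀ d, (c ∈ R.1 ↔ d ∈ R.1) →
        d ∈ blk s t τ a := by
      intro c hc hcs d hcd
      obtain ⟨_, _, hc3⟩ := (hmem c).1 hc
      refine (hmem d).2 ⟨?_, ?_, ?_⟩
      · rintro rfl
        exact hcs hcd
      · rintro rfl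
        exact hcs (hcd.trans hns.symm)
      · intro S hS
        rw [hc3 S hS]
        have hsep : ¬ (s ∈ S.1 ↔ t ∈ S.1) := hτ S hS
        by_contra hne
        by_cases hcS : c ∈ S.1
        · have hdS : d ∉ S.1 := fun hd => hne ⟨fun _ => hd, fun _ => hcS⟩
          by_cases hsS : s ∈ S.1
          · have htS : t ∉ S.1 := fun ht => hsep ⟨fun _ => ht, fun _ => hsS⟩
            exact e1_four (hR S hS) c d s t hcS hdS hsS htS hcd hns hcs
          · have htS : t ∈ S.1 := by
              by_contra ht
              exact hsep ⟨fun hs => absurd hs hsS, fun ht' => absurd ht' ht⟩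
            exact e1_four (hR S hS) c d t s hcS hdS htS hsS hcd hns.symm (fun hh => hcs (hh.trans hns.symm))
        · have hdS : d ∈ S.1 := by
            by_contra hd
            exact hne ⟨fun hc' => absurd hc' hcS, fun hd' => absurd hd' hd⟩
          by_cases hsS : s ∈ S.1
          · have htS : t ∉ S.1 := fun ht => hsep ⟨fun _ => ht, fun _ => hsS⟩
            exact e1_four (hR S hS) d c s t hdS hcS hsS htS hcd.symm hns (fun hh => hcs (hcd.trans hh))
          · have htS : t ∈ S.1 := by
              by_contra ht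
              exact hsep ⟨fun hs => absurd hs hsS, fun ht' => absurd ht' ht⟩
            exact e1_four (hR S hS) d c t s hdS hcS htS hsS hcd.symm hns.symm
              (fun hh => hcs ((hcd.trans hh).trans hns.symm))
    by_cases hsR : s ∈ R.1
    · by_cases hex : ∃ c ∈ blk s t τ a, c ∉ R.1
      · obtain ⟨c, hc, hcR⟩ := hex
        right
        right
        right
        rw [Finset.eq_univ_iff_forall]
        intro d
        rw [Finset.mem_union]
        by_cases hdR : d ∈ R.1
        · exact Or.inr hdR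
        · exact Or.inl (key c hc (fun hh => hcR (hh.2 hsR)) d
            ⟨fun hh => absurd hh hcR, fun hh => absurd hh hdR⟩)
      · right
        left
        intro c hc
        by_contra hcR
        exact hex ⟨c, hc, hcR⟩
    · by_cases hex : ∃ c ∈ blk s t τ a, c ∈ R.1
      · obtain ⟨c, hc, hcR⟩ := hex
        right
        right
        left
        intro d hdR
        exact key c hc (fun hh => hsR (hh.1 hcR)) d ⟨fun _ => hdR, fun _ => hcR⟩
      · left
        rw [Finset.eq_empty_iff_forall_notMem]
        intro c hc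
        obtain ⟨hc1, hc2⟩ := Finset.mem_inter.1 hc
        exact hex ⟨c, hc1, hc2⟩

theorem nonx_symm {S T : Finset V} (h : NonX S T) : NonX T S := by
  rcases h with h | h | h | h
  · exact Or.inl (by rw [Finset.inter_comm]; exact h)
  · exact Or.inr (Or.inr (Or.inl h))
  · exact Or.inr (Or.inl h)
  · exact Or.inr (Or.inr (Or.inr (by rw [Finset.union_comm]; exact h)))

theorem nonx_self (S : Finset V) : NonX S S := Or.inr (Or.inl (Finset.Subset.refl _))

end H47T
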