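import Pool.Agent.Lib.H47T.E1
import Pool.Agent.Lib.H47T.F1

/-! # H47T, chunk E2: the families over feasible points form an acyclic complex -/

set_option autoImplicit false

namespace H47T

open Finset H98P H98Z H98M H63F H96H

variable {V : Type*} [Fintype V] [DecidableEq V]

theorem dn_LL : Dn fun T : Finset (St V) => LL T := by
  intro A T hAT hT
  refine ⟨fun S S' h h' => hT.1 S S' (hAT h) (hAT h'), fun v h => hT.2.1 v ⟨hAT h.1, hAT h.2⟩, fun b => ?_⟩
  obtain ⟨v, hv⟩ := hT.2.2 b
  exact ⟨v, fun h => hv (hAT h)⟩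

theorem dn_BB {s t : V} {G : Finset (Sym2 V)} : Dn (BB s t G) := by
  intro A T hAT hT
  refine ⟨dn_LL A T hAT hT.1, fun S h => hT.2.1 S (hAT h), ?_⟩
  obtain ⟨a, b, h1, h2, h3, h4, h5, h6, h7⟩ := hT.2.2
  exact ⟨a, b, h1, h2, h3, h4, h5, h6, fun S hS hs => h7 S (hAT hS) hs⟩

private def e2P (s t : V) : St V → Prop
  | .inl _ => False
  | .inr S => Sep s t S.1

/-- PROOF. `ac_fiber` with `P (inr S) := Sep s t S.1`, `P (inl _) := False`. Let all members of `τ` be separating cuts,
`BB s t G τ`, `ab` the edge; `B = blk s t τ a` contains `a` and `b`, its complement contains `s` and `t`, so it is a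
nontrivial cut, unstable (`ab` and `st`), which separates not. The fibre is a cone with apex `inr B` (`ac_cone`): for
`ρ` without separating cuts and `BB s t G (τ ∪ ρ)`: `B` crosses no cut of `τ ∪ ρ` (`blk_nonx`, `nonx_symm`), the edge
`ab` is separated by no separating cut of `τ ∪ insert B ρ` (these are the cuts in `τ`). -/
theorem ac_BB {s t : V} (hst : s ≠ t) {G : Finset (Sym2 V)} (hG : s(s, t) ∈ G) : AC (BB s t G) := by
  refine ac_fiber (BB s t G) dn_BB (e2P s t) fun τ hτ hB => ?_
  have hτ' : ∀ S : NCut V, (Sum.inr S : St V) ∈ τ → Sep s t S.1 := fun S hS => hτ _ hS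
  obtain ⟨a, b, hab, has, hat, hbs, hbt, habG, hsep⟩ := hB.2.2
  have haB : a ∈ blk s t τ a := by
    unfold blk
    rw [mem_filter]
    exact ⟨mem_univ a, has, hat, fun S _ _ => Iff.rfl⟩
  have hbB : b ∈ blk s t τ a := by
    unfold blk
    rw [mem_filter]
    exact ⟨mem_univ b, hbs, hbt, fun S _ hS => hsep S hS (hτ' S hS)⟩
  have hsB : s ∉ blk s t τ a := by
    unfold blk
    rw [mem_filter]
    exact fun h => h.2.1 rfl
  have htB : t ∉ blk s t τ a := by
    unfold blk
    rw [mem_filter]
    exact fun h => h.2.2.1 rfl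
  have hc1 : 2 ≤ (blk s t τ a).card := Finset.one_lt_card.2 ⟨a, haB, b, hbB, hab⟩
  have hc2 : 2 ≤ (univ \ blk s t τ a).card :=
    Finset.one_lt_card.2 ⟨s, mem_sdiff.2 ⟨mem_univ s, hsB⟩, t, mem_sdiff.2 ⟨mem_univ t, htB⟩, hst⟩
  have hns : ¬ Sep s t (blk s t τ a) := by
    unfold Sep
    rw [not_not]
    exact ⟨fun h => absurd h hsB, fun h => absurd h htB⟩
  have hU : Uns G (blk s t τ a) := ⟨⟨a, haB, b, hbB, hab, habG⟩, s, hsB, t, htB, hst, hG⟩
  refine ac_cone (a := (Sum.inr ⟨blk s t τ a, hc1, hc2⟩ : St V)) ?_ ?_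
  · intro A T hAT hT
    exact ⟨fun S hS => hT.1 S (hAT hS), dn_BB _ _ (union_subset_union_right hAT) hT.2⟩
  · rintro ρ ⟨hρ, hK⟩
    have hρ' : ∀ S : NCut V, (Sum.inr S : St V) ∈ ρ → ¬ Sep s t S.1 := fun S hS => hρ _ hS
    have hx : ∀ R : NCut V, (Sum.inr R : St V) ∈ τ ∪ ρ → NonX (blk s t τ a) R.1 := by
      intro R hR
      refine blk_nonx hτ' a R (fun S hS => hK.1.1 S R (mem_union_left _ hS) hR) ?_
      rcases mem_union.1 hR with h | h
      · exact Or.inl h
      · exact Or.inr (hρ' R h)
    have hmem : ∀ S : NCut V, (Sum.inr S : St V) ∈ τ ∪ insert (Sum.inr ⟨blk s t τ a, hc1, hc2⟩ : St V) ρ →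
        S.1 = blk s t τ a ∨ (Sum.inr S : St V) ∈ τ ∪ ρ := by
      intro S hS
      rcases mem_union.1 hS with h | h
      · exact Or.inr (mem_union_left _ h)
      · rcases mem_insert.1 h with h | h
        · left
          have := Sum.inr.inj h
          rw [this]
        · exact Or.inr (mem_union_right _ h)
    have hmeml : ∀ q : V × Bool, (Sum.inl q : St V) ∈ τ ∪ insert (Sum.inr ⟨blk s t τ a, hc1, hc2⟩ : St V) ρ →
        (Sum.inl q : St V) ∈ τ ∪ ρ := by
      intro q hq
      rcases mem_union.1 hq with h | h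
      · exact mem_union_left _ h
      · rcases mem_insert.1 h with h | h
        · exact absurd h Sum.inl_ne_inr
        · exact mem_union_right _ h
    refine ⟨fun S hS => ?_, ⟨fun S S' hS hS' => ?_, fun v h => ?_, fun c => ?_⟩, fun S hS => ?_, ?_⟩
    · rcases mem_insert.1 hS with h | h
      · rw [h]
        exact hns
      · exact hρ S h
    · rcases hmem S hS with h | h
      · rcases hmem S' hS' with h' | h'
        · rw [h, h']
          exact nonx_self _
        · rw [h]
          exact hx S' h'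
      · rcases hmem S' hS' with h' | h'
        · rw [h']
          exact nonx_symm (hx S h)
        · exact hK.1.1 S S' h h'
    · exact hK.1.2.1 v ⟨hmeml _ h.1, hmeml _ h.2⟩
    · obtain ⟨v, hv⟩ := hK.1.2.2 c
      exact ⟨v, fun h => hv (hmeml _ h)⟩
    · rcases hmem S hS with h | h
      · rw [h]
        exact hU
      · exact hK.2.1 S h
    · refine ⟨a, b, hab, has, hat, hbs, hbt, habG, fun S hS hs => ?_⟩
      rcases mem_union.1 hS with h | h
      · exact hsep S h hs
      · rcases mem_insert.1 h with h | h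
        · have h2 : S.1 = blk s t τ a := by
            have := Sum.inr.inj h
            rw [this]
          rw [h2] at hs
          exact absurd hs hns
        · exact absurd hs (hρ' S h)

end H47T
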