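import Pool.Agent.Lib.H47T.D

/-! # H47T, chunk N: four points: unstable cuts have weight zero -/

set_option autoImplicit false

namespace H47T

open Finset H98P H98Z H98M H63F H96H

variable {V : Type*} [Fintype V] [DecidableEq V]

omit [Fintype V] in
private theorem n_px (a b : V) (S : Finset V) : px s(a, b) S = if (a ∈ S ↔ b ∈ S) then 0 else 1 := by
  unfold px
  by_cases ha : a ∈ S <;> by_cases hb : b ∈ S
  · rw [if_neg, if_pos (by simp [ha, hb])]
    rintro ⟨x, hx, y, hy, h⟩
    rcases Sym2.eq_iff.1 h with ⟨h1, h2⟩ | ⟨h1, h2⟩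
    · exact hy (h2 ▸ hb)
    · exact hy (h1 ▸ ha)
  · rw [if_pos ⟨a, ha, b, hb, rfl⟩, if_neg (by simp [ha, hb])]
  · rw [if_pos ⟨b, hb, a, ha, Sym2.eq_swap⟩, if_neg (by simp [ha, hb])]
  · rw [if_neg, if_pos (by simp [ha, hb])]
    rintro ⟨x, hx, y, hy, h⟩
    rcases Sym2.eq_iff.1 h with ⟨h1, h2⟩ | ⟨h1, h2⟩
    · exact ha (h1 ▸ hx)
    · exact hb (h2 ▸ hx)

/-- PROOF. Suppose `μ S > 0` for a cut `S` (so `S ∈ T`); `ab`, `cd` edges of `G`, `a, b ∈ S`, `c, d ∉ S`, four different
vertices. For every signed vertex `px ab + px cd = px ac + px bd` (on singletons), for every cut `R ∈ T`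
`px ab R + px cd R ≤ px ac R + px bd R` (otherwise `R` separates `{a,c}` from `{b,d}` or ... then `R` crosses `S`), and
for `S` itself the difference is `2`. So `mm ab + mm cd < mm ac + mm bd`, but `mm ab`, `mm cd` are maximal. (Entries
for non-loops; all four pairs are non-loops, the constants `rq` cancel.) -/
theorem cuts_zero {s t : V} {M : ℝ} {G : Finset (Sym2 V)} {T : Finset (St V)} (hT : LL T)
    (hU : ∀ S : NCut V, Sum.inr S ∈ T → Uns G S.1) {μ : St V → ℝ} (hμ : μ ∈ Sx T)
    (hmax : Amax (pT s t M) μ G) (S : NCut V) : μ (Sum.inr S) = 0 := by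
  by_contra hne
  obtain ⟨hm0, hm1, _⟩ := hμ
  have hpos : 0 < μ (Sum.inr S) := lt_of_le_of_ne (hm0 _) (Ne.symm hne)
  have hST : (Sum.inr S : St V) ∈ T := by
    by_contra h
    exact hne (hm1 _ h)
  obtain ⟨⟨a, ha, b, hb, hab, habG⟩, c, hc, d, hd, hcd, hcdG⟩ := hU S hST
  have hac : a ≠ c := fun h => hc (h ▸ ha)
  have had : a ≠ d := fun h => hd (h ▸ ha)
  have hbc : b ≠ c := fun h => hc (h ▸ hb)
  have hbd : b ≠ d := fun h => hd (h ▸ hb)
  have nab : ¬ (s(a, b) : Sym2 V).IsDiag := by simpa using hab
  have ncd : ¬ (s(c, d) : Sym2 V).IsDiag := by simpa using hcd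
  have nac : ¬ (s(a, c) : Sym2 V).IsDiag := by simpa using hac
  have nbd : ¬ (s(b, d) : Sym2 V).IsDiag := by simpa using hbd
  have h1 := hmax _ habG s(a, c)
  have h2 := hmax _ hcdG s(b, d)
  have hkey : ∀ Q : St V, (if Q = Sum.inr S then 2 * μ (Sum.inr S) else 0) ≤
      μ Q * pT s t M s(a, c) Q + μ Q * pT s t M s(b, d) Q - μ Q * pT s t M s(a, b) Q -
        μ Q * pT s t M s(c, d) Q := by
    intro Q
    rcases Q with ⟨v, β⟩ | R
    · rw [if_neg (by simp)]
      have h3 : pT s t M s(a, c) (Sum.inl (v, β)) + pT s t M s(b, d) (Sum.inl (v, β)) -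
          pT s t M s(a, b) (Sum.inl (v, β)) - pT s t M s(c, d) (Sum.inl (v, β)) = 0 := by
        unfold pT
        simp only [if_neg nab, if_neg ncd, if_neg nac, if_neg nbd]
        have h4 : px s(a, c) {v} + px s(b, d) {v} = px s(a, b) {v} + px s(c, d) {v} := by
          simp only [n_px, mem_singleton]
          by_cases e1 : a = v <;> by_cases e2 : b = v <;> by_cases e3 : c = v <;> by_cases e4 : d = v <;>
            first
              | (exfalso; subst e1; simp_all; done)
              | (exfalso; subst e2; simp_all; done)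
              | (exfalso; subst e3; simp_all; done)
              | simp [e1, e2, e3, e4]
        linear_combination (if β = true then (1 : ℝ) else -1) * h4
      have h5 : μ (Sum.inl (v, β)) * pT s t M s(a, c) (Sum.inl (v, β)) +
          μ (Sum.inl (v, β)) * pT s t M s(b, d) (Sum.inl (v, β)) -
          μ (Sum.inl (v, β)) * pT s t M s(a, b) (Sum.inl (v, β)) -
          μ (Sum.inl (v, β)) * pT s t M s(c, d) (Sum.inl (v, β)) = 0 := by
        linear_combination μ (Sum.inl (v, β)) * h3
      rw [h5]
    · have h3 : pT s t M s(a, c) (Sum.inr R) + pT s t M s(b, d) (Sum.inr R) -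
          pT s t M s(a, b) (Sum.inr R) - pT s t M s(c, d) (Sum.inr R) =
          px s(a, c) R.1 + px s(b, d) R.1 - px s(a, b) R.1 - px s(c, d) R.1 := by
        unfold pT
        simp only [if_neg nab, if_neg ncd, if_neg nac, if_neg nbd]
        ring
      have h5 : μ (Sum.inr R) * pT s t M s(a, c) (Sum.inr R) +
          μ (Sum.inr R) * pT s t M s(b, d) (Sum.inr R) -
          μ (Sum.inr R) * pT s t M s(a, b) (Sum.inr R) -
          μ (Sum.inr R) * pT s t M s(c, d) (Sum.inr R) =
          μ (Sum.inr R) * (px s(a, c) R.1 + px s(b, d) R.1 - px s(a, b) R.1 - px s(c, d) R.1) := by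
        linear_combination μ (Sum.inr R) * h3
      rw [h5]
      by_cases hRS : R = S
      · subst hRS
        rw [if_pos rfl]
        have h6 : px s(a, c) R.1 + px s(b, d) R.1 - px s(a, b) R.1 - px s(c, d) R.1 = 2 := by
          simp only [n_px]
          simp [ha, hb, hc, hd]
          norm_num
        rw [h6]
        linarith
      · rw [if_neg (by simpa using hRS)]
        by_cases hRT : (Sum.inr R : St V) ∈ T
        · have hX := hT.1 R S hRT hST
          have h6 : 0 ≤ px s(a, c) R.1 + px s(b, d) R.1 - px s(a, b) R.1 - px s(c, d) R.1 := by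
            simp only [n_px]
            by_cases ra : a ∈ R.1 <;> by_cases rb : b ∈ R.1 <;> by_cases rc : c ∈ R.1 <;>
              by_cases rd : d ∈ R.1
            all_goals first
              | (simp [ra, rb, rc, rd]; done)
              | (simp [ra, rb, rc, rd]; norm_num; done)
              | skip
            · exfalso
              rcases hX with h | h | h | h
              · have : a ∈ R.1 ∩ S.1 := mem_inter.2 ⟨ra, ha⟩
                rw [h] at this
                exact absurd this (notMem_empty _)
              · exact hc (h rc)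
              · exact rb (h hb)
              · have : d ∈ R.1 ∪ S.1 := by
                  rw [h]
                  exact mem_univ d
                rcases mem_union.1 this with h7 | h7
                · exact rd h7
                · exact hd h7
            · exfalso
              rcases hX with h | h | h | h
              · have : b ∈ R.1 ∩ S.1 := mem_inter.2 ⟨rb, hb⟩
                rw [h] at this
                exact absurd this (notMem_empty _)
              · exact hd (h rd)
              · exact ra (h ha)
              · have : c ∈ R.1 ∪ S.1 := by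
                  rw [h]
                  exact mem_univ c
                rcases mem_union.1 this with h7 | h7
                · exact rc h7
                · exact hc h7
          exact mul_nonneg (hm0 _) h6
        · rw [hm1 _ hRT, zero_mul]
  have hsum := Finset.sum_le_sum fun Q (_ : Q ∈ (univ : Finset (St V))) => hkey Q
  rw [Finset.sum_ite_eq' univ (Sum.inr S : St V), if_pos (mem_univ _)] at hsum
  simp only [Finset.sum_sub_distrib, Finset.sum_add_distrib] at hsum
  unfold mm at h1 h2
  linarith

end H47T
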