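import Pool.Agent.Lib.H47T.C2
import Pool.Agent.Lib.H47T.N
import Pool.Agent.Lib.H47T.PF

/-! # H47T, chunk Q: the carriers are safe -/

set_option autoImplicit false

namespace H47T

open Finset H98P H98Z H98M H63F H96H

variable {V : Type*} [Fintype V] [DecidableEq V]

/-- PROOF. `push` gives `μ'` on `T.image Prod.fst`, `Amax (pT s t M) μ' G`. If `T` has no member in the copy `true`, all
`S` with `μ' S > 0` are minimizers, with payoff `≤ 0` (`v+` and `v-` have opposite payoffs), so `no_mu`. Otherwise `x` is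
feasible and `T.image Prod.fst` is in `BB`: `μ'` of all cuts is `0` by `cuts_zero`, the payoffs of the signed vertices are
`0` (`py_pos`, `py_neg`, feasible), so `∑ μ' S py S = 0`, `no_mu` again. -/
theorem safe (hV : 4 ≤ Fintype.card V) {s t : V} (hst : s ≠ t) {M : ℝ} (hM : 0 ≤ M) {G : Finset (Sym2 V)}
    (hG : ∀ v, s(v, v) ∉ G) {T : Finset (St V × Bool)} {x : Sym2 V → ℝ} (hx : x ∈ YY s t M G T)
    {μ : St V × Bool → ℝ} (hμ : μ ∈ Sx T) (hmax : Amax (pT2 s t M) μ G) : False := by
  classical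
  obtain ⟨hxG, hLL, hmin, hcase⟩ := hx
  obtain ⟨hx0, hx1, hx2⟩ := hxG
  have hl : ∀ v, x s(v, v) = 0 := fun v => hx1 _ (hG v)
  obtain ⟨μ', hμ', hsplit, hmm⟩ := push (s := s) (t := t) (M := M) hμ
  have hmax' : Amax (pT s t M) μ' G := by
    intro e he f
    rw [← hmm e, ← hmm f]
    exact hmax e he f
  obtain ⟨h0, h1, h2⟩ := hμ
  obtain ⟨h0', h1', h2'⟩ := hμ'
  have hVne : Nonempty V := Fintype.card_pos_iff.1 (by omega)
  obtain ⟨v⟩ := hVne
  have hpm : py s t M x (Sum.inl (v, true)) + py s t M x (Sum.inl (v, false)) = 0 := by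
    rw [py_pos hx2 hl, py_neg hx2 hl]
    ring
  refine no_mu hV hst hM hG ⟨hx0, hx1, hx2⟩ hLL ⟨h0', h1', h2'⟩ hmax' ?_
  rcases hcase with hno | ⟨_, hfeas, hBB⟩
  · refine Finset.sum_nonpos fun S _ => ?_
    by_cases hS : S ∈ T.image Prod.fst
    · obtain ⟨⟨S', b⟩, hSb, hSS⟩ := Finset.mem_image.1 hS
      simp only at hSS
      subst hSS
      have hf : (S', false) ∈ T := by
        cases b with
        | false => exact hSb
        | true => exact absurd hSb (hno S')
      have a1 := hmin S' hf (Sum.inl (v, true))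
      have a2 := hmin S' hf (Sum.inl (v, false))
      exact mul_nonpos_of_nonneg_of_nonpos (h0' _) (by linarith)
    · rw [h1' S hS, zero_mul]
  · refine le_of_eq (Finset.sum_eq_zero fun S _ => ?_)
    rcases S with ⟨w, b⟩ | S
    · have hw : cutw x {w} - rq s t M {w} = 0 := by
        rw [hfeas.1 w, sub_self]
      cases b with
      | false => rw [py_neg hx2 hl, hw, neg_zero, mul_zero]
      | true => rw [py_pos hx2 hl, hw, mul_zero]
    · rw [cuts_zero hBB.1 hBB.2.1 ⟨h0', h1', h2'⟩ hmax' S, zero_mul]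

end H47T
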