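import Pool.Agent.Lib.H47T.D

/-! # H47T, chunk T2: Birkhoff: from a flow to paths (successor function) -/

set_option autoImplicit false

namespace H47T

open Finset H98P H98Z H98M H63F H96H

variable {V : Type*} [Fintype V] [DecidableEq V]

private theorem t2_perm {n : Type*} [Fintype n] [DecidableEq n] (σ : Equiv.Perm n) (i j : n) :
    σ.permMatrix ℝ i j = if σ i = j then 1 else 0 := by
  rw [Equiv.Perm.permMatrix, PEquiv.toMatrix_apply, Equiv.toPEquiv_apply]
  simp only [Option.mem_def, Option.some.injEq]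

private theorem t2_sumR {s t : V} (g : V → ℝ) (P : V → Prop) [DecidablePred P] :
    ∑ v : {v : V // v ≠ s ∧ v ≠ t}, (if P v.1 then g v.1 else 0) =
      ∑ v ∈ univ.filter (fun v => v ≠ s ∧ v ≠ t ∧ P v), g v := by
  rw [← Finset.sum_subtype (univ.filter fun v : V => v ≠ s ∧ v ≠ t) (by simp)
    (fun v => if P v then g v else 0), ← Finset.sum_filter, Finset.filter_filter]
  refine Finset.sum_congr ?_ fun _ _ => rfl
  ext v
  simp only [mem_filter, mem_univ, true_and, and_assoc]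

/-- The choice of a permutation. -/
private theorem t2_choose {n : Type*} [Fintype n] [DecidableEq n] {M : Matrix n n ℝ}
    (hM : M ∈ doublyStochastic ℝ n) {ι : Type*} [Fintype ι] (a b : ι → n) :
    ∃ σ : Equiv.Perm n, (∀ i, 0 < M i (σ i)) ∧
      ((univ.filter fun k => σ (a k) = b k).card : ℝ) ≤ ∑ k, M (a k) (b k) := by
  obtain ⟨w, hw0, hw1, hw⟩ := exists_eq_sum_perm_of_mem_doublyStochastic hM
  have hent : ∀ i j, M i j = ∑ σ, w σ * (if σ i = j then 1 else 0) := by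
    intro i j
    rw [← hw, Matrix.sum_apply]
    refine Finset.sum_congr rfl fun σ _ => ?_
    rw [Matrix.smul_apply, smul_eq_mul, t2_perm]
  have hpos : ∀ σ, 0 < w σ → ∀ i, 0 < M i (σ i) := by
    intro σ hσ i
    rw [hent]
    refine lt_of_lt_of_le hσ ?_
    have h1 := Finset.single_le_sum (f := fun τ : Equiv.Perm n => w τ * (if τ i = σ i then 1 else 0))
      (fun τ _ => mul_nonneg (hw0 τ) (by split_ifs <;> norm_num)) (Finset.mem_univ σ)
    beta_reduce at h1
    rw [if_pos rfl, mul_one] at h1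
    exact h1
  have htot : ∑ k, M (a k) (b k) = ∑ σ, w σ * ((univ.filter fun k => σ (a k) = b k).card : ℝ) := by
    simp only [hent]
    rw [Finset.sum_comm]
    refine Finset.sum_congr rfl fun σ _ => ?_
    rw [← Finset.mul_sum, Finset.sum_boole]
  by_contra hc
  push Not at hc
  have h2 : ∀ σ, w σ * ∑ k, M (a k) (b k) ≤ w σ * ((univ.filter fun k => σ (a k) = b k).card : ℝ) := by
    intro σ
    rcases (hw0 σ).eq_or_lt with h3 | h3
    · rw [← h3, zero_mul, zero_mul]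
    · exact mul_le_mul_of_nonneg_left (hc σ (hpos σ h3)).le (hw0 σ)
  obtain ⟨τ, hτ⟩ : ∃ τ, 0 < w τ := by
    by_contra h4
    push Not at h4
    have h5 : ∑ σ, w σ ≤ 0 := Finset.sum_nonpos fun σ _ => h4 σ
    linarith
  have h6 : ∑ σ, w σ * ∑ k, M (a k) (b k) < ∑ σ, w σ * ((univ.filter fun k => σ (a k) = b k).card : ℝ) :=
    Finset.sum_lt_sum (fun σ _ => h2 σ) ⟨τ, Finset.mem_univ τ, mul_lt_mul_of_pos_left (hc τ (hpos τ hτ)) hτ⟩
  rw [← htot, ← Finset.sum_mul, hw1, one_mul] at h6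
  exact lt_irrefl _ h6

/-- The matrix of a flow. -/
private noncomputable def t2A (s t : V) (x : Sym2 V → ℝ) (c : ℝ) (ρ : V → ℕ) :
    Matrix ({v : V // v ≠ s ∧ v ≠ t} ⊕ {v : V // v ≠ s ∧ v ≠ t})
      ({v : V // v ≠ s ∧ v ≠ t} ⊕ {v : V // v ≠ s ∧ v ≠ t}) ℝ
  | .inl u, .inl v => if ρ u.1 < ρ v.1 then x s(u.1, v.1) / c else 0
  | .inl u, .inr w => if u = w then x s(u.1, t) / c else 0
  | .inr v, .inl w => if v = w then x s(s, v.1) / c else 0
  | .inr v, .inr u => if ρ u.1 < ρ v.1 then x s(u.1, v.1) / c else 0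

private theorem t2_mem {s t : V} {x : Sym2 V → ℝ} (h0 : ∀ e, 0 ≤ x e) {c : ℝ} (hc : 0 < c) {ρ : V → ℕ}
    (h : Flow s t x c ρ) : t2A s t x c ρ ∈ doublyStochastic ℝ _ := by
  have hin : ∀ v : {v : V // v ≠ s ∧ v ≠ t},
      ∑ u : {v : V // v ≠ s ∧ v ≠ t}, (if ρ u.1 < ρ v.1 then x s(u.1, v.1) / c else 0) + x s(s, v.1) / c = 1 := by
    intro v
    rw [t2_sumR (fun u => x s(u, v.1) / c) (fun u => ρ u < ρ v.1), ← Finset.sum_div, ← add_div,
      div_eq_one_iff_eq hc.ne', add_comm]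
    exact (h v.1 v.2.1 v.2.2).1
  have hout : ∀ v : {v : V // v ≠ s ∧ v ≠ t},
      ∑ u : {v : V // v ≠ s ∧ v ≠ t}, (if ρ v.1 < ρ u.1 then x s(v.1, u.1) / c else 0) + x s(v.1, t) / c = 1 := by
    intro v
    rw [t2_sumR (fun u => x s(v.1, u) / c) (fun u => ρ v.1 < ρ u), ← Finset.sum_div, ← add_div,
      div_eq_one_iff_eq hc.ne', add_comm]
    exact (h v.1 v.2.1 v.2.2).2
  rw [mem_doublyStochastic_iff_sum]
  refine ⟨?_, ?_, ?_⟩
  · rintro (u | u) (v | v)
    · show 0 ≤ if ρ u.1 < ρ v.1 then x s(u.1, v.1) / c else 0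
      split_ifs
      · exact div_nonneg (h0 _) hc.le
      · exact le_rfl
    · show 0 ≤ if u = v then x s(u.1, t) / c else 0
      split_ifs
      · exact div_nonneg (h0 _) hc.le
      · exact le_rfl
    · show 0 ≤ if u = v then x s(s, u.1) / c else 0
      split_ifs
      · exact div_nonneg (h0 _) hc.le
      · exact le_rfl
    · show 0 ≤ if ρ v.1 < ρ u.1 then x s(v.1, u.1) / c else 0
      split_ifs
      · exact div_nonneg (h0 _) hc.le
      · exact le_rfl
  · rintro (u | u)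
    · rw [Fintype.sum_sum_type]
      show ∑ v : {v : V // v ≠ s ∧ v ≠ t}, (if ρ u.1 < ρ v.1 then x s(u.1, v.1) / c else 0) +
        ∑ w : {v : V // v ≠ s ∧ v ≠ t}, (if u = w then x s(u.1, t) / c else 0) = 1
      rw [Finset.sum_ite_eq, if_pos (Finset.mem_univ u)]
      exact hout u
    · rw [Fintype.sum_sum_type]
      show ∑ w : {v : V // v ≠ s ∧ v ≠ t}, (if u = w then x s(s, u.1) / c else 0) +
        ∑ v : {v : V // v ≠ s ∧ v ≠ t}, (if ρ v.1 < ρ u.1 then x s(v.1, u.1) / c else 0) = 1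
      rw [Finset.sum_ite_eq, if_pos (Finset.mem_univ u), add_comm]
      exact hin u
  · rintro (v | v)
    · rw [Fintype.sum_sum_type]
      show ∑ u : {v : V // v ≠ s ∧ v ≠ t}, (if ρ u.1 < ρ v.1 then x s(u.1, v.1) / c else 0) +
        ∑ w : {v : V // v ≠ s ∧ v ≠ t}, (if w = v then x s(s, w.1) / c else 0) = 1
      rw [Finset.sum_ite_eq', if_pos (Finset.mem_univ v)]
      exact hin v
    · rw [Fintype.sum_sum_type]
      show ∑ w : {v : V // v ≠ s ∧ v ≠ t}, (if w = v then x s(w.1, t) / c else 0) +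
        ∑ u : {v : V // v ≠ s ∧ v ≠ t}, (if ρ v.1 < ρ u.1 then x s(v.1, u.1) / c else 0) = 1
      rw [Finset.sum_ite_eq', if_pos (Finset.mem_univ v), add_comm]
      exact hout v

/-- PROOF. Let `R` be the type of the vertices `≠ s, t` and `A` the matrix on `R ⊕ R` with the entries (divided by `c`)
`A (inl u) (inl v) = x uv` if `ρ u < ρ v` (else `0`), `A (inr v) (inl v) = x sv`, `A (inl u) (inr u) = x ut`,
`A (inr v) (inr u) = x uv` if `ρ u < ρ v`, all others `0`. It is doubly stochastic, so it is a convex combination of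
permutation matrices (`doublyStochastic_eq_convexHull_permMatrix`, or
`exists_eq_sum_perm_of_mem_doublyStochastic`). The trace-like sum `∑ v, A (inr v) (inl v) = (1/c) ∑ v, x sv` is the
average of the numbers `#{v : σ (inr v) = inl v}`, so some permutation `σ` of positive weight (so all `A i (σ i) > 0`) has
this number at most `(1/c) ∑ v, x sv`. `nx u = v` if `σ (inl u) = inl v`, `nx u = t` if `σ (inl u) = inr u`.
The vertices `v` which are no `nx u` have `σ (inr v) = inl v`, so `x sv > 0`, and their number is bounded. -/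
theorem next_of_flow {s t : V} (hst : s ≠ t) {x : Sym2 V → ℝ} (h0 : ∀ e, 0 ≤ x e) {c : ℝ} (hc : 0 < c) {ρ : V → ℕ}
    (h : Flow s t x c ρ) :
    ∃ nx : V → V,
      (∀ v, v ≠ s → v ≠ t → nx v ≠ s ∧ 0 < x s(v, nx v) ∧ (nx v ≠ t → ρ v < ρ (nx v))) ∧
      (∀ u v, u ≠ s → u ≠ t → v ≠ s → v ≠ t → nx u = nx v → nx u ≠ t → u = v) ∧
      (∀ v, v ≠ s → v ≠ t → (∀ u, u ≠ s → u ≠ t → nx u ≠ v) → 0 < x s(s, v)) ∧
      ((univ.filter fun v => v ≠ s ∧ v ≠ t ∧ ∀ u, u ≠ s → u ≠ t → nx u ≠ v).card : ℝ) * c ≤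
        ∑ v ∈ univ.filter (fun v => v ≠ s ∧ v ≠ t), x s(s, v) := by
  obtain ⟨σ, hσ, hcard⟩ := t2_choose (t2_mem h0 hc h)
    (fun v : {v : V // v ≠ s ∧ v ≠ t} => (Sum.inr v : {v : V // v ≠ s ∧ v ≠ t} ⊕ {v : V // v ≠ s ∧ v ≠ t}))
    (fun v => Sum.inl v)
  have hp : ∀ {a : ℝ}, 0 < a / c → 0 < a := by
    intro a ha
    exact (div_pos_iff_of_pos_right hc).1 ha
  have hll : ∀ u v, σ (Sum.inl u) = Sum.inl v → 0 < x s(u.1, v.1) ∧ ρ u.1 < ρ v.1 := by
    intro u v huv
    have h1 := hσ (Sum.inl u)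
    rw [huv] at h1
    have h2 : 0 < if ρ u.1 < ρ v.1 then x s(u.1, v.1) / c else 0 := h1
    split_ifs at h2 with h3
    · exact ⟨hp h2, h3⟩
    · exact absurd h2 (lt_irrefl _)
  have hlr : ∀ u w, σ (Sum.inl u) = Sum.inr w → 0 < x s(u.1, t) := by
    intro u w huw
    have h1 := hσ (Sum.inl u)
    rw [huw] at h1
    have h2 : 0 < if u = w then x s(u.1, t) / c else 0 := h1
    split_ifs at h2 with h3
    · exact hp h2
    · exact absurd h2 (lt_irrefl _)
  have hrl : ∀ v w, σ (Sum.inr v) = Sum.inl w → v = w ∧ 0 < x s(s, v.1) := by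
    intro v w hvw
    have h1 := hσ (Sum.inr v)
    rw [hvw] at h1
    have h2 : 0 < if v = w then x s(s, v.1) / c else 0 := h1
    split_ifs at h2 with h3
    · exact ⟨h3, hp h2⟩
    · exact absurd h2 (lt_irrefl _)
  obtain ⟨val, hval1, hval2⟩ : ∃ val : {v : V // v ≠ s ∧ v ≠ t} ⊕ {v : V // v ≠ s ∧ v ≠ t} → V,
      (∀ v, val (Sum.inl v) = v.1) ∧ ∀ w, val (Sum.inr w) = t :=
    ⟨fun z => z.elim (fun v => v.1) (fun _ => t), fun _ => rfl, fun _ => rfl⟩
  obtain ⟨nx, hnx⟩ : ∃ nx : V → V, ∀ u : {v : V // v ≠ s ∧ v ≠ t}, nx u.1 = val (σ (Sum.inl u)) := by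
    refine ⟨fun u => if hu : u ≠ s ∧ u ≠ t then val (σ (Sum.inl ⟨u, hu⟩)) else t, fun u => ?_⟩
    beta_reduce
    rw [dif_pos u.2]
  have hstart : ∀ v : {v : V // v ≠ s ∧ v ≠ t}, (∀ u, u ≠ s → u ≠ t → nx u ≠ v.1) →
      σ (Sum.inr v) = Sum.inl v := by
    intro v hv
    obtain ⟨i, hi⟩ := σ.surjective (Sum.inl v)
    rcases i with u | w
    · exact absurd (by rw [hnx u, hi, hval1]) (hv u.1 u.2.1 u.2.2)
    · obtain ⟨h1, _⟩ := hrl w v hi
      rw [← h1] at hi ⊢
      exact hi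
  refine ⟨nx, ?_, ?_, ?_, ?_⟩
  · intro v hvs hvt
    have h1 := hnx ⟨v, hvs, hvt⟩
    rcases h2 : σ (Sum.inl ⟨v, hvs, hvt⟩) with w | w
    · rw [h2, hval1] at h1
      have h3 := hll _ _ h2
      change nx v = w.1 at h1
      rw [h1]
      exact ⟨w.2.1, h3.1, fun _ => h3.2⟩
    · rw [h2, hval2] at h1
      have h3 := hlr _ _ h2
      change nx v = t at h1
      rw [h1]
      exact ⟨hst.symm, h3, fun h4 => absurd rfl h4⟩
  · intro u v hus hut hvs hvt huv hne
    have h1 := hnx ⟨u, hus, hut⟩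
    have h2 := hnx ⟨v, hvs, hvt⟩
    change nx u = _ at h1
    change nx v = _ at h2
    rcases h3 : σ (Sum.inl ⟨u, hus, hut⟩) with w | w
    · rcases h4 : σ (Sum.inl ⟨v, hvs, hvt⟩) with w' | w'
      · rw [h3, hval1] at h1
        rw [h4, hval1] at h2
        have h5 : w = w' := Subtype.ext (by rw [← h1, ← h2, huv])
        rw [h5, ← h4] at h3
        have h6 := Sum.inl.inj (σ.injective h3)
        exact congrArg Subtype.val h6
      · rw [h4, hval2] at h2
        exact absurd (huv.trans h2) hne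
    · rw [h3, hval2] at h1
      exact absurd h1 hne
  · intro v hvs hvt hv
    exact (hrl _ _ (hstart ⟨v, hvs, hvt⟩ hv)).2
  · have h1 : (univ.filter fun v => v ≠ s ∧ v ≠ t ∧ ∀ u, u ≠ s → u ≠ t → nx u ≠ v).card ≤
        (univ.filter fun v : {v : V // v ≠ s ∧ v ≠ t} => σ (Sum.inr v) = Sum.inl v).card := by
      have h2 : (univ.filter fun v => v ≠ s ∧ v ≠ t ∧ ∀ u, u ≠ s → u ≠ t → nx u ≠ v) ⊆
          (univ.filter fun v : {v : V // v ≠ s ∧ v ≠ t} => σ (Sum.inr v) = Sum.inl v).image Subtype.val := by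
        intro v hv
        obtain ⟨_, hvs, hvt, hv2⟩ := mem_filter.1 hv
        rw [mem_image]
        exact ⟨⟨v, hvs, hvt⟩, mem_filter.2 ⟨mem_univ _, hstart ⟨v, hvs, hvt⟩ hv2⟩, rfl⟩
      exact le_trans (Finset.card_le_card h2) Finset.card_image_le
    have h3 : ∑ v : {v : V // v ≠ s ∧ v ≠ t}, t2A s t x c ρ (Sum.inr v) (Sum.inl v) =
        (∑ v ∈ univ.filter (fun v => v ≠ s ∧ v ≠ t), x s(s, v)) / c := by
      rw [Finset.sum_div, Finset.sum_subtype (p := fun v : V => v ≠ s ∧ v ≠ t)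
        (univ.filter fun v : V => v ≠ s ∧ v ≠ t) (by simp) (fun v => x s(s, v) / c)]
      refine Finset.sum_congr rfl fun v _ => ?_
      show (if v = v then x s(s, v.1) / c else 0) = _
      rw [if_pos rfl]
    rw [h3, le_div_iff₀ hc] at hcard
    refine le_trans (mul_le_mul_of_nonneg_right ?_ hc.le) hcard
    exact_mod_cast h1

end H47T
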