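import Pool.Agent.Lib.H47T.D

/-! # H47T, chunk T3: lists from a successor function -/

set_option autoImplicit false

namespace H47T

open Finset H98P H98Z H98M H63F H96H

variable {V : Type*} [Fintype V] [DecidableEq V]

private lemma core {t : V} {ρ : V → ℕ} {nx : V → V} {P : V → V → Prop} : ∀ (n : ℕ) (W : Finset V), W.card = n →
    t ∉ W → (∀ v ∈ W, P v (nx v)) →
    (∀ v ∈ W, nx v ≠ t → nx v ∈ W ∧ ρ v < ρ (nx v)) →
    (∀ u ∈ W, ∀ v ∈ W, nx u = nx v → nx u ≠ t → u = v) →
    ∃ L : List (List V), (∀ l ∈ L, l ≠ []) ∧ L.flatten.Nodup ∧ (∀ v, v ∈ L.flatten ↔ v ∈ W) ∧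
      (∀ l ∈ L, (l ++ [t]).IsChain P) ∧
      (∀ v, (∃ l, v :: l ∈ L) ↔ v ∈ W ∧ ∀ u ∈ W, nx u ≠ v) ∧
      L.length = (W.filter fun v => ∀ u ∈ W, nx u ≠ v).card := by
  intro n
  induction n with
  | zero =>
    intro W hW _ _ _ _
    rw [Finset.card_eq_zero] at hW
    subst hW
    exact ⟨[], by simp, by simp, by simp, by simp, by simp, by simp⟩
  | succ n ih =>
    intro W hW htW hP hcl hinj
    have hne : W.Nonempty := by
      rw [← Finset.card_pos]; omega
    obtain ⟨v, hv, hmin⟩ := Finset.exists_min_image W ρ hne
    have hvt : v ≠ t := fun h => htW (h ▸ hv)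
    have hno : ∀ u ∈ W, nx u ≠ v := by
      intro u hu h
      have h3 := (hcl u hu (by rw [h]; exact hvt)).2
      rw [h] at h3
      have h4 := hmin u hu
      omega
    obtain ⟨L, hL1, hL2, hL3, hL4, hL5, hL6⟩ := ih (W.erase v) (by rw [Finset.card_erase_of_mem hv]; omega)
      (fun h => htW (Finset.mem_of_mem_erase h)) (fun w hw => hP w (Finset.mem_of_mem_erase hw))
      (fun w hw h => ⟨Finset.mem_erase.2 ⟨hno w (Finset.mem_of_mem_erase hw),
        (hcl w (Finset.mem_of_mem_erase hw) h).1⟩, (hcl w (Finset.mem_of_mem_erase hw) h).2⟩)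
      (fun u hu w hw => hinj u (Finset.mem_of_mem_erase hu) w (Finset.mem_of_mem_erase hw))
    by_cases hvn : nx v = t
    · refine ⟨[v] :: L, ?_, ?_, ?_, ?_, ?_, ?_⟩
      · intro l hl
        rcases List.mem_cons.1 hl with rfl | hl
        · simp
        · exact hL1 l hl
      · simp only [List.flatten_cons, List.cons_append, List.nil_append, List.nodup_cons]
        exact ⟨fun h => by simpa using (hL3 v).1 h, hL2⟩
      · intro w
        simp only [List.flatten_cons, List.cons_append, List.nil_append, List.mem_cons, hL3, Finset.mem_erase]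
        constructor
        · rintro (rfl | h)
          · exact hv
          · exact h.2
        · intro h
          by_cases hw : w = v
          · exact Or.inl hw
          · exact Or.inr ⟨hw, h⟩
      · intro l hl
        rcases List.mem_cons.1 hl with rfl | hl
        · have := hP v hv
          rw [hvn] at this
          simpa using this
        · exact hL4 l hl
      · intro w
        constructor
        · rintro ⟨l, hl⟩
          rcases List.mem_cons.1 hl with h | h
          · have hw : w = v := by
              injection h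
            subst hw
            exact ⟨hv, hno⟩
          · have h5 := (hL5 w).1 ⟨l, h⟩
            refine ⟨Finset.mem_of_mem_erase h5.1, fun u hu h6 => ?_⟩
            by_cases huv : u = v
            · subst huv
              exact htW (by rw [← hvn, h6]; exact Finset.mem_of_mem_erase h5.1)
            · exact h5.2 u (Finset.mem_erase.2 ⟨huv, hu⟩) h6
        · rintro ⟨hw, h⟩
          by_cases hwv : w = v
          · exact ⟨[], by rw [hwv]; simp⟩
          · obtain ⟨l, hl⟩ := (hL5 w).2 ⟨Finset.mem_erase.2 ⟨hwv, hw⟩,
              fun u hu => h u (Finset.mem_of_mem_erase hu)⟩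
            exact ⟨l, List.mem_cons_of_mem _ hl⟩
      · have hH : (W.filter fun v => ∀ u ∈ W, nx u ≠ v) =
            insert v ((W.erase v).filter fun w => ∀ u ∈ W.erase v, nx u ≠ w) := by
          ext w
          simp only [Finset.mem_filter, Finset.mem_insert, Finset.mem_erase]
          constructor
          · rintro ⟨hw, h⟩
            by_cases hwv : w = v
            · exact Or.inl hwv
            · exact Or.inr ⟨⟨hwv, hw⟩, fun u hu => h u hu.2⟩
          · rintro (rfl | ⟨⟨hwv, hw⟩, h⟩)
            · exact ⟨hv, hno⟩
            · refine ⟨hw, fun u hu h6 => ?_⟩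
              by_cases huv : u = v
              · subst huv
                exact htW (by rw [← hvn, h6]; exact hw)
              · exact h u ⟨huv, hu⟩ h6
        rw [hH, Finset.card_insert_of_notMem (by simp), List.length_cons, hL6]
    · have hw0 := (hcl v hv hvn).1
      have hw1 := (hcl v hv hvn).2
      have hwv : nx v ≠ v := fun h => by rw [h] at hw1; omega
      have hw2 : ∀ u ∈ W.erase v, nx u ≠ nx v := by
        intro u hu h
        have := hinj u (Finset.mem_of_mem_erase hu) v hv h (by rw [h]; exact hvn)
        exact (Finset.mem_erase.1 hu).1 this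
      obtain ⟨l, hl⟩ := (hL5 (nx v)).2 ⟨Finset.mem_erase.2 ⟨hwv, hw0⟩, hw2⟩
      have hp := List.perm_cons_erase hl
      set B := L.erase (nx v :: l) with hB
      have hpf : L.flatten.Perm ((nx v :: l) ++ B.flatten) := by
        simpa using hp.flatten
      have hmem : ∀ m, m ∈ L ↔ m = nx v :: l ∨ m ∈ B := by
        intro m
        rw [hp.mem_iff, List.mem_cons]
      have hv' : v ∉ L.flatten := fun h => by simpa using (hL3 v).1 h
      refine ⟨(v :: nx v :: l) :: B, ?_, ?_, ?_, ?_, ?_, ?_⟩
      · intro m hm
        rcases List.mem_cons.1 hm with rfl | hm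
        · simp
        · exact hL1 m ((hmem m).2 (Or.inr hm))
      · have : ((v :: nx v :: l) :: B).flatten = v :: ((nx v :: l) ++ B.flatten) := by simp
        rw [this, List.nodup_cons]
        exact ⟨fun h => hv' (hpf.mem_iff.2 h), hpf.nodup_iff.1 hL2⟩
      · intro w
        have : ((v :: nx v :: l) :: B).flatten = v :: ((nx v :: l) ++ B.flatten) := by simp
        rw [this, List.mem_cons, ← hpf.mem_iff, hL3, Finset.mem_erase]
        constructor
        · rintro (rfl | h)
          · exact hv
          · exact h.2
        · intro h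
          by_cases hw : w = v
          · exact Or.inl hw
          · exact Or.inr ⟨hw, h⟩
      · intro m hm
        rcases List.mem_cons.1 hm with rfl | hm
        · have h7 := hL4 _ hl
          rw [List.cons_append] at h7 ⊢
          rw [List.cons_append, List.isChain_cons_cons]
          exact ⟨hP v hv, h7⟩
        · exact hL4 m ((hmem m).2 (Or.inr hm))
      · intro w
        constructor
        · rintro ⟨m, hm⟩
          rcases List.mem_cons.1 hm with h | h
          · have hw : w = v := by
              injection h
            subst hw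
            exact ⟨hv, hno⟩
          · have h5 := (hL5 w).1 ⟨m, (hmem _).2 (Or.inr h)⟩
            refine ⟨Finset.mem_of_mem_erase h5.1, fun u hu h6 => ?_⟩
            by_cases huv : u = v
            · -- then `w = nx v` occurs twice
              subst huv
              have hnd : ((nx u :: l) ++ B.flatten).Nodup := hpf.nodup_iff.1 hL2
              have hdis := List.disjoint_of_nodup_append hnd
              refine hdis (a := nx u) (by simp) ?_
              rw [h6]
              exact List.mem_flatten.2 ⟨_, h, by simp⟩
            · exact h5.2 u (Finset.mem_erase.2 ⟨huv, hu⟩) h6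
        · rintro ⟨hw, h⟩
          by_cases hwv' : w = v
          · exact ⟨nx v :: l, by rw [hwv']; simp⟩
          · obtain ⟨m, hm⟩ := (hL5 w).2 ⟨Finset.mem_erase.2 ⟨hwv', hw⟩,
              fun u hu => h u (Finset.mem_of_mem_erase hu)⟩
            rcases (hmem _).1 hm with h8 | h8
            · have hw : w = nx v := by
                injection h8
              exact absurd hw.symm (h v hv)
            · exact ⟨m, List.mem_cons_of_mem _ h8⟩
      · have hH : (W.filter fun v => ∀ u ∈ W, nx u ≠ v) =
            insert v (((W.erase v).filter fun w => ∀ u ∈ W.erase v, nx u ≠ w).erase (nx v)) := by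
          ext w
          simp only [Finset.mem_filter, Finset.mem_insert, Finset.mem_erase]
          constructor
          · rintro ⟨hw, h⟩
            by_cases hwv : w = v
            · exact Or.inl hwv
            · exact Or.inr ⟨fun h9 => h v hv h9.symm, ⟨hwv, hw⟩, fun u hu => h u hu.2⟩
          · rintro (rfl | ⟨h9, ⟨hwv, hw⟩, h⟩)
            · exact ⟨hv, hno⟩
            · refine ⟨hw, fun u hu h6 => ?_⟩
              by_cases huv : u = v
              · subst huv
                exact h9 h6.symm
              · exact h u ⟨huv, hu⟩ h6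
        have hin : nx v ∈ (W.erase v).filter fun w => ∀ u ∈ W.erase v, nx u ≠ w :=
          Finset.mem_filter.2 ⟨Finset.mem_erase.2 ⟨hwv, hw0⟩, hw2⟩
        have hpos := Finset.card_pos.2 ⟨_, hin⟩
        rw [hH, Finset.card_insert_of_notMem (by simp), Finset.card_erase_of_mem hin, List.length_cons]
        have h10 := hp.length_eq
        rw [List.length_cons] at h10
        omega

/-- PROOF. Induction on `|W|` for sets `W` of vertices `≠ s, t` which are closed under `nx` (if `v ∈ W` then `nx v ∈ W`
or `nx v = t`): there is a list `L` of nonempty lists, `L.flatten` without repetitions with the members `W`, every list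
is a chain for `nx` (consecutive members `v, nx v`) with last member `v`, `nx v = t`, and the heads are exactly the
members of `W` which are not `nx u`, `u ∈ W`. Step: take `v` of smallest rank in `W` (so `W - v` is closed and `v` is
no `nx u`), apply the induction hypothesis to `W - v`. If `nx v = t` add the list `[v]`, otherwise `nx v` is a head
(injectivity) of a list `l`, replace `l` by `v :: l`. For `W` = all vertices `≠ s, t`; the length of `L` is the number
of the heads. -/
theorem lists_of_next {s t : V} (hst : s ≠ t) {ρ : V → ℕ} {nx : V → V}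
    (h1 : ∀ v, v ≠ s → v ≠ t → nx v ≠ s ∧ (nx v ≠ t → ρ v < ρ (nx v)))
    (h2 : ∀ u v, u ≠ s → u ≠ t → v ≠ s → v ≠ t → nx u = nx v → nx u ≠ t → u = v)
    {G : Finset (Sym2 V)} (hG : ∀ v, v ≠ s → v ≠ t → s(v, nx v) ∈ G)
    (hS : ∀ v, v ≠ s → v ≠ t → (∀ u, u ≠ s → u ≠ t → nx u ≠ v) → s(s, v) ∈ G) :
    ∃ L : List (List V), Th s t G L ∧
      L.length = (univ.filter fun v => v ≠ s ∧ v ≠ t ∧ ∀ u, u ≠ s → u ≠ t → nx u ≠ v).card := by
  obtain ⟨L, hL1, hL2, hL3, hL4, hL5, hL6⟩ := core (t := t) (ρ := ρ) (nx := nx) (P := fun a b => s(a, b) ∈ G) _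
    (univ.filter fun v => v ≠ s ∧ v ≠ t) rfl (by simp)
    (fun v hv => by
      simp only [Finset.mem_filter, Finset.mem_univ, true_and] at hv
      exact hG v hv.1 hv.2)
    (fun v hv h => by
      simp only [Finset.mem_filter, Finset.mem_univ, true_and] at hv ⊢
      exact ⟨⟨(h1 v hv.1 hv.2).1, h⟩, (h1 v hv.1 hv.2).2 h⟩)
    (fun u hu v hv h h' => by
      simp only [Finset.mem_filter, Finset.mem_univ, true_and] at hu hv
      exact h2 u v hu.1 hu.2 hv.1 hv.2 h h')
  refine ⟨L, ⟨hL1, hL2, fun v => by rw [hL3]; simp, fun l hl => ?_⟩, ?_⟩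
  · cases l with
    | nil => exact absurd rfl (hL1 _ hl)
    | cons v l =>
      have h3 := (hL5 v).1 ⟨l, hl⟩
      have h4 := hL4 _ hl
      simp only [Finset.mem_filter, Finset.mem_univ, true_and] at h3
      rw [List.cons_append] at h4 ⊢
      rw [List.isChain_cons_cons]
      exact ⟨hS v h3.1.1 h3.1.2 (fun u hu hu' => h3.2 u ⟨hu, hu'⟩), h4⟩
  · rw [hL6]
    congr 1
    ext v
    simp only [Finset.mem_filter, Finset.mem_univ, true_and]
    constructor
    · rintro ⟨⟨a, b⟩, c⟩
      exact ⟨a, b, fun u hu hu' => c u ⟨hu, hu'⟩⟩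
    · rintro ⟨a, b, c⟩
      exact ⟨⟨a, b⟩, fun u hu => c u hu.1 hu.2⟩

end H47T
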