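import Pool.Agent.Lib.H47T.T1
import Pool.Agent.Lib.H47T.T2
import Pool.Agent.Lib.H47T.T3

/-! # H47T, chunk T: a tight chain with stable blocks gives a theta graph -/

set_option autoImplicit false

namespace H47T

open Finset H98P H98Z H98M H63F H96H

variable {V : Type*} [Fintype V] [DecidableEq V]

private theorem t_px_nonneg (e : Sym2 V) (S : Finset V) : 0 ≤ px e S := by
  unfold px
  split_ifs
  · exact zero_le_one
  · exact le_refl _

private theorem t_star {s t : V} {x : Sym2 V → ℝ} (h0 : ∀ e, 0 ≤ x e) :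
    ∑ v ∈ univ.filter (fun v => v ≠ s ∧ v ≠ t), x s(s, v) ≤ cutw x {s} := by
  classical
  have hinj : Set.InjOn (fun v : V => s(s, v))
      ((univ.filter (fun v => v ≠ s ∧ v ≠ t) : Finset V) : Set V) := by
    intro a _ b _ hab
    have hab' : s(s, a) = s(s, b) := hab
    rcases Sym2.eq_iff.1 hab' with ⟨-, h⟩ | ⟨h, h'⟩
    · exact h
    · rw [h', h]
  have h1 : ∑ v ∈ univ.filter (fun v => v ≠ s ∧ v ≠ t), x s(s, v) =
      ∑ e ∈ (univ.filter (fun v => v ≠ s ∧ v ≠ t)).image (fun v : V => s(s, v)),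
        x e * px e {s} := by
    rw [sum_image hinj]
    refine sum_congr rfl fun v hv => ?_
    obtain ⟨hvs, -⟩ := (mem_filter.1 hv).2
    have h2 : px s(s, v) ({s} : Finset V) = 1 := by
      unfold px
      rw [if_pos]
      exact ⟨s, mem_singleton_self s, v, fun h => hvs (mem_singleton.1 h), rfl⟩
    rw [h2, mul_one]
  rw [h1]
  unfold cutw
  exact sum_le_univ_sum_of_nonneg fun e => mul_nonneg (h0 e) (t_px_nonneg e _)

/-- PROOF. `flow_of_tight`, `next_of_flow` (`c = 1/(n + M)`), `lists_of_next` (positive weight implies `∈ G`), and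
`x st + ∑ v, x sv = cutw x {s} = (2 + M)/(n + M)`. -/
theorem theta_of_tight {s t : V} (hst : s ≠ t) {M : ℝ} (hM : 0 ≤ M) {G : Finset (Sym2 V)} {x : Sym2 V → ℝ}
    (hx : x ∈ Sx G) (hG : ∀ v, s(v, v) ∉ G) (hF : Feas s t M x) (T : Finset (NCut V))
    (hT : ∀ S ∈ T, Sep s t S.1 ∧ cutw x S.1 = rq s t M S.1) (hN : ∀ S ∈ T, ∀ S' ∈ T, NonX S.1 S'.1)
    (hcut : ∀ a b : V, a ≠ b → a ≠ s → a ≠ t → b ≠ s → b ≠ t → s(a, b) ∈ G → ∃ S ∈ T, ¬ (a ∈ S.1 ↔ b ∈ S.1)) :
    ∃ L : List (List V), Th s t G L ∧ (L.length : ℝ) ≤ M + 2 := by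
  classical
  obtain ⟨ρ, hρ⟩ := flow_of_tight hst hM hx hG hF T hT hN hcut
  have hn : 0 < (Fintype.card V : ℝ) := by
    have : Nonempty V := ⟨s⟩
    exact_mod_cast Fintype.card_pos
  have hc : 0 < 1 / ((Fintype.card V : ℝ) + M) := by positivity
  obtain ⟨nx, h1, h2, h3, h4⟩ := next_of_flow hst hx.1 hc hρ
  have hmem : ∀ e, 0 < x e → e ∈ G := by
    intro e he
    by_contra hcon
    have := hx.2.1 e hcon
    linarith
  obtain ⟨L, hL, hlen⟩ := lists_of_next (G := G) hst (ρ := ρ) (nx := nx)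
    (fun v hv hv' => ⟨(h1 v hv hv').1, (h1 v hv hv').2.2⟩) h2
    (fun v hv hv' => hmem _ (h1 v hv hv').2.1) (fun v hv hv' h => hmem _ (h3 v hv hv' h))
  refine ⟨L, hL, ?_⟩
  rw [← hlen] at h4
  have h5 : cutw x {s} = (2 + M) / ((Fintype.card V : ℝ) + M) := by
    rw [hF.1 s]
    unfold rq
    rw [if_pos]
    intro h
    have h6 := h.1 (mem_singleton_self s)
    exact hst (mem_singleton.1 h6).symm
  have h6 := h4.trans (t_star (s := s) (t := t) hx.1)
  rw [h5, mul_one_div, div_le_div_iff_of_pos_right (by positivity)] at h6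
  linarith

end H47T
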