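import Pool.Agent.Lib.H47T.E2
import Pool.Agent.Lib.H47T.F2
import Pool.Agent.Lib.H47T.A3
import Pool.Agent.Lib.H47T.T

/-! # H47T, chunk Z: the fibres of the carrier -/

set_option autoImplicit false

namespace H47T

open Finset H98P H98Z H98M H63F H96H

variable {V : Type*} [Fintype V] [DecidableEq V]

/-- Families of minimizers over a feasible point. -/
private theorem z_bb (hV : 4 ≤ Fintype.card V) {s t : V} (hst : s ≠ t) {M : ℝ} (hM : 0 ≤ M)
    {G : Finset (Sym2 V)} (hG : ∀ v, s(v, v) ∉ G)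
    (hno : ∀ L : List (List V), Th s t G L → ¬ (L.length : ℝ) ≤ M + 2)
    {x : Sym2 V → ℝ} (hx : x ∈ Sx G) (hF : Feas s t M x) {τ : Finset (St V)} (hL : LL τ)
    (hmin : ∀ S ∈ τ, ∀ S', py s t M x S ≤ py s t M x S') : BB s t G τ := by
  classical
  have h0 : ∀ e, 0 ≤ x e := hx.1
  have h1 : ∑ e, x e = 1 := hx.2.2
  have hl : ∀ v, x s(v, v) = 0 := fun v => hx.2.1 _ (hG v)
  have htight : ∀ S : NCut V, (Sum.inr S : St V) ∈ τ → cutw x S.1 = rq s t M S.1 :=
    fun S hS => min_of_feas hV h1 hl hF S (hmin _ hS)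
  refine ⟨hL, fun S hS => tight_uns hst hM hx hG hF S (htight S hS), ?_⟩
  by_contra hc
  push Not at hc
  obtain ⟨L, hL1, hL2⟩ := theta_of_tight hst hM hx hG hF
    (univ.filter fun S : NCut V => (Sum.inr S : St V) ∈ τ ∧ Sep s t S.1)
    (fun S hS => ⟨(mem_filter.1 hS).2.2, htight S (mem_filter.1 hS).2.1⟩)
    (fun S hS S' hS' => hL.1 S S' (mem_filter.1 hS).2.1 (mem_filter.1 hS').2.1)
    (fun a b hab ha1 ha2 hb1 hb2 he => by
      obtain ⟨S, hS1, hS2, hS3⟩ := hc a b hab ha1 ha2 hb1 hb2 he
      exact ⟨S, mem_filter.2 ⟨mem_univ _, hS1, hS2⟩, by tauto⟩)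
  exact hno L hL1 hL2

/-- PROOF. `x ∈ YY G ∅` means `x ∈ Sx G`. If `x` is not feasible: `x ∈ YY G T` iff all members of `T` are in the copy
`false` and `T.image Prod.fst` is in `LL` and consists of minimizers: `hyp_a` and `ac_copy false`. If `x` is feasible
and `st ∉ G`: the same with `hgood`. If `x` is feasible and `st ∈ G`: if `τ` in `LL` consists of minimizers then
`BB s t G τ`: the cuts in `τ` are tight (`min_of_feas`), so unstable (`tight_uns`), and if every edge of `G - s - t` were
separated by a separating cut of `τ`, `theta_of_tight` would contradict `hno`. So `x ∈ YY G T` iff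
`BB s t G (T.image Prod.fst)` and the members of the copy `false` are minimizers (if `T` has no member in the copy
`true` then `T.image Prod.fst` consists of minimizers): `ac_double` with `ac_BB`, `dn_BB`. -/
theorem fiber (hV : 4 ≤ Fintype.card V) {s t : V} (hst : s ≠ t) {M : ℝ} (hM : 0 ≤ M) {G : Finset (Sym2 V)}
    (hG : ∀ v, s(v, v) ∉ G)
    (hno : s(s, t) ∈ G → ∀ L : List (List V), Th s t G L → ¬ (L.length : ℝ) ≤ M + 2)
    (hgood : ∀ x ∈ Sx G, Feas s t M x → s(s, t) ∉ G →
      AC fun T : Finset (St V) => LL T ∧ ∀ S ∈ T, ∀ S', py s t M x S ≤ py s t M x S')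
    {x : Sym2 V → ℝ} (hx : x ∈ YY s t M G ∅) : AC fun T => x ∈ YY s t M G T := by
  have hxS : x ∈ Sx G := hx.1
  have h0 : ∀ e, 0 ≤ x e := hxS.1
  have h1 : ∑ e, x e = 1 := hxS.2.2
  have hl : ∀ v, x s(v, v) = 0 := fun v => hxS.2.1 _ (hG v)
  by_cases hcase : s(s, t) ∈ G ∧ Feas s t M x
  · obtain ⟨hstG, hF⟩ := hcase
    have heq : (fun T => x ∈ YY s t M G T) = fun T : Finset (St V × Bool) =>
        BB s t G (T.image Prod.fst) ∧
          ∀ S, (S, false) ∈ T → (fun S : St V => ∀ S', py s t M x S ≤ py s t M x S') S := by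
      funext T
      refine propext ⟨fun h => ?_, fun h => ?_⟩
      · obtain ⟨_, h2, h3, h4⟩ := h
        refine ⟨?_, h3⟩
        rcases h4 with h4 | h4
        · refine z_bb hV hst hM hG (hno hstG) hxS hF h2 ?_
          intro S hS
          obtain ⟨q, hq1, hq2⟩ := mem_image.1 hS
          obtain ⟨S₁, b⟩ := q
          cases b
          · have : S₁ = S := hq2
            subst this
            exact h3 _ hq1
          · exact absurd hq1 (h4 S₁)
        · exact h4.2.2
      · exact ⟨hxS, h.1.1, h.2, Or.inr ⟨hstG, hF, h.1⟩⟩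
    rw [heq]
    exact ac_double dn_BB (ac_BB hst hstG) _
  · have hK : AC fun T : Finset (St V) => LL T ∧ ∀ S ∈ T, ∀ S', py s t M x S ≤ py s t M x S' := by
      by_cases hF : Feas s t M x
      · exact hgood x hxS hF fun h => hcase ⟨h, hF⟩
      · exact hyp_a hV hst hM h0 h1 hl hF
    have heq : (fun T => x ∈ YY s t M G T) = fun T : Finset (St V × Bool) =>
        (∀ q ∈ T, q.2 = false) ∧
          (fun T : Finset (St V) => LL T ∧ ∀ S ∈ T, ∀ S', py s t M x S ≤ py s t M x S')
            (T.image Prod.fst) := by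
      funext T
      refine propext ⟨fun h => ?_, fun h => ?_⟩
      · obtain ⟨_, h2, h3, h4⟩ := h
        have h5 : ∀ S, (S, true) ∉ T := by
          rcases h4 with h4 | h4
          · exact h4
          · exact absurd ⟨h4.1, h4.2.1⟩ hcase
        refine ⟨?_, h2, ?_⟩
        · rintro ⟨S, b⟩ hq
          cases b
          · rfl
          · exact absurd hq (h5 S)
        · intro S hS
          obtain ⟨q, hq1, hq2⟩ := mem_image.1 hS
          obtain ⟨S₁, b⟩ := q
          cases b
          · have : S₁ = S := hq2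
            subst this
            exact h3 _ hq1
          · exact absurd hq1 (h5 S₁)
      · obtain ⟨h2, h3, h4⟩ := h
        refine ⟨hxS, h3, fun S hS => h4 S (mem_image_of_mem Prod.fst hS), Or.inl fun S hS => ?_⟩
        exact absurd (h2 _ hS) (by simp)
    rw [heq]
    exact ac_copy false hK

end H47T
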