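import Pool.Agent.Lib.H47T.M
import Pool.Agent.Lib.H47T.B
import Pool.Agent.Lib.H47T.Y
import Pool.Agent.Lib.H47T.Z
import Pool.Agent.Lib.H47T.Q
import Pool.Agent.Lib.H96H.B1
import Pool.Agent.Lib.H96H.A3

/-! # H47T, chunk H: Theorem T -/

set_option autoImplicit false

namespace H47T

open Finset H98P H98Z H98M H63F H96H

variable {V : Type*} [Fintype V] [DecidableEq V]

private theorem th_dnK (cross : Sym2 V → Sym2 V → Prop) : Dn (KK cross) := by
  intro a b hab hb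
  exact ⟨fun e he f hf => hb.1 e (hab he) f (hab hf), fun v hv => hb.2 v (hab hv)⟩

private theorem th_dnL : Dn (fun T : Finset (St V × Bool) => LL (T.image Prod.fst)) := by
  intro a b hab hb
  have h : a.image Prod.fst ⊆ b.image Prod.fst := image_subset_image hab
  refine ⟨fun S S' h1 h2 => hb.1 S S' (h h1) (h h2), fun v hv => hb.2.1 v ⟨h hv.1, h hv.2⟩, fun c => ?_⟩
  obtain ⟨v, hv⟩ := hb.2.2 c
  exact ⟨v, fun h1 => hv (h h1)⟩

private theorem th_rq (s t : V) (S : Finset V) : rq s t 0 S = 2 / (Fintype.card V : ℝ) := by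
  unfold rq
  rw [ite_self, add_zero, add_zero]

private theorem th_pT (s t : V) : (pT s t 0 : Sym2 V → St V → ℝ) = pp := by
  funext e S
  rcases S with ⟨v, b⟩ | S
  · show (if e.IsDiag then (-10 : ℝ) else (if b = true then 1 else -1) * (px e {v} - rq s t 0 {v})) =
      if e.IsDiag then (-10 : ℝ) else (if b = true then 1 else -1) * (px e {v} - 2 / (Fintype.card V : ℝ))
    rw [th_rq]
  · show (if e.IsDiag then (-10 : ℝ) else px e S.1 - rq s t 0 S.1) =
      if e.IsDiag then (-10 : ℝ) else px e S.1 - 2 / (Fintype.card V : ℝ)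
    rw [th_rq]

/-- The core theorem. PROOF: otherwise `traceY` (p = pT2, K = KK cross, L T = LL (T.image Prod.fst), Y = YY s t M) with
`ac_KK`, `hyp_b2`, `fiber` contradicts `safe`. -/
theorem core (hV : 4 ≤ Fintype.card V) {cross : Sym2 V → Sym2 V → Prop}
    (hsymm : ∀ e f, cross e f → cross f e) (hHD : ∀ W : Finset V, HD cross W) {s t : V} (hst : s ≠ t) {M : ℝ}
    (hM : 0 ≤ M) :
    ∃ G : Finset (Sym2 V), KK cross G ∧
      ((s(s, t) ∈ G ∧ ∃ L : List (List V), Th s t G L ∧ (L.length : ℝ) ≤ M + 2) ∨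
        (s(s, t) ∉ G ∧ ∃ x ∈ Sx G, Feas s t M x ∧
          ¬ AC fun T : Finset (St V) => LL T ∧ ∀ S ∈ T, ∀ S', py s t M x S ≤ py s t M x S')) := by
  by_contra hng
  have hs2 : Nonempty (Sym2 V) := ⟨s(s, s)⟩
  have hK0 : KK cross (∅ : Finset (Sym2 V)) :=
    ⟨fun e he => absurd he (notMem_empty _), fun v hv => absurd hv (notMem_empty _)⟩
  have hL0 : LL ((∅ : Finset (St V × Bool)).image Prod.fst) := by
    rw [image_empty]
    exact ⟨fun S S' h => absurd h (notMem_empty _), fun v hv => absurd hv.1 (notMem_empty _),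
      fun b => ⟨s, notMem_empty _⟩⟩
  obtain ⟨G, T, hGn, hGK, ⟨x, hx⟩, μ, hμ, hmax⟩ := traceY (pT2 s t M) (KK cross)
    (fun T : Finset (St V × Bool) => LL (T.image Prod.fst)) (th_dnK cross) th_dnL hK0 hL0
    (ac_KK hV hsymm hHD) (YY s t M) (YY_compact s t M) (YY_convex s t M) (YY_anti s t M) (YY_mono s t M)
    (fun G T h => by
      obtain ⟨x, hx⟩ := h
      exact hx.2.1)
    (fun G hG => YY_empty s t M hG)
    (fun G hG hGn x hx => fiber hV hst hM hG.2
      (fun hstG L hL hlen => hng ⟨G, hG, Or.inl ⟨hstG, L, hL, hlen⟩⟩)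
      (fun x hxG hF hstG => by
        by_contra hac
        exact hng ⟨G, hG, Or.inr ⟨hstG, x, hxG, hF, hac⟩⟩) hx)
    (fun T hT μ hμ => hyp_b2 hV hsymm hHD hM hT hμ)
  exact safe hV hst hM hGK.2 hx hμ hmax

/-- THEOREM T. PROOF: `core` with `M = n`; the second case is impossible by `feas_st` (`x st > 0`, so `st ∈ G`). -/
theorem theoremT (hV : 4 ≤ Fintype.card V) {cross : Sym2 V → Sym2 V → Prop}
    (hsymm : ∀ e f, cross e f → cross f e) (hHD : ∀ W : Finset V, HD cross W) {s t : V} (hst : s ≠ t) :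
    ∃ G : Finset (Sym2 V), KK cross G ∧ s(s, t) ∈ G ∧ ∃ L : List (List V), Th s t G L := by
  obtain ⟨G, hG, ⟨h1, L, hL, -⟩ | ⟨h1, x, hx, hF, -⟩⟩ :=
    core hV hsymm hHD hst (Nat.cast_nonneg (Fintype.card V))
  · exact ⟨G, hG, h1, L, hL⟩
  · have h2 := feas_st hst hV hx.1 hx.2.2 (fun v => hx.2.1 _ (hG.2 v)) hF
    rw [hx.2.1 _ h1] at h2
    exact absurd h2 (lt_irrefl _)

/-- THEOREM H FOR ONE EDGE. PROOF: `core` with `M = 0`: `rq = 2/n`, `pT s t 0 = pp`, so in the second case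
`H96H.hyp_a` shows that `x` is `Good`. -/
theorem theoremH (hV : 4 ≤ Fintype.card V) {cross : Sym2 V → Sym2 V → Prop}
    (hsymm : ∀ e f, cross e f → cross f e) (hHD : ∀ W : Finset V, HD cross W) {s t : V} (hst : s ≠ t) :
    ∃ G : Finset (Sym2 V), KK cross G ∧
      ((s(s, t) ∈ G ∧ ∃ L : List (List V), Th s t G L ∧ L.length ≤ 2) ∨
        (s(s, t) ∉ G ∧ ∃ x ∈ Sx G, Good x)) := by
  obtain ⟨G, hG, ⟨h1, L, hL, hlen⟩ | ⟨h1, x, hx, -, hac⟩⟩ := core hV hsymm hHD hst (le_refl (0 : ℝ))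
  · refine ⟨G, hG, Or.inl ⟨h1, L, hL, ?_⟩⟩
    rw [zero_add] at hlen
    exact_mod_cast hlen
  · refine ⟨G, hG, Or.inr ⟨h1, x, hx, ?_⟩⟩
    by_contra hg
    refine hac ?_
    have h2 := H96H.hyp_a hV hx.1 hx.2.2 (fun v => hx.2.1 _ (hG.2 v)) hg
    unfold py
    rw [th_pT]
    exact h2

end H47T
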