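import Pool.Agent.Lib.H96H.M
import Pool.Agent.Lib.H47T.D

/-! # H47T, chunk M: the trace theorem for general convex carriers -/

set_option autoImplicit false

namespace H47T

open Finset H98P H98Z H98M H63F H96H

variable {E C : Type*} [Fintype E] [DecidableEq E] [Fintype C] [DecidableEq C]

private theorem m_mono {A : Type*} [Fintype A] {s t : Finset A} (h : s ⊆ t) : Sx s ⊆ Sx t := by
  rintro x ⟨h1, h2, h3⟩
  exact ⟨h1, fun e he => h2 e fun he' => he (h he'), h3⟩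

private theorem m_ne {A : Type*} [Fintype A] [DecidableEq A] {s : Finset A} (h : s.Nonempty) :
    (Sx s).Nonempty := by
  obtain ⟨a, ha⟩ := h
  refine ⟨Pi.single a 1, ?_, ?_, ?_⟩
  · intro e
    by_cases he : e = a
    · subst he
      rw [Pi.single_eq_same]
      exact zero_le_one
    · rw [Pi.single_eq_of_ne he]
  · intro e he
    exact Pi.single_eq_of_ne (fun h => he (by rw [h]; exact ha)) _
  · rw [Finset.sum_pi_single']
    simp

/-- As `H96H.minimaxK`, with general carriers `G ↦ {T : Y G T nonempty}` in the place of the families of minimizers.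
PROOF: copy of the proof of `H96H.minimaxK`: `ρ` the same, `ψ` the same (`ac_psi`), `θ` = `carriers` (A = E, B = C, on
`K`) with the carrier `fun G T => (Y G T).Nonempty`: monotone by `hYm`, `h0` by `hY0`, acyclic for `K G`, `G` nonempty,
by `H63F.ac_conv` (`P = Y G`; its hypothesis `h` is `ha`); `θ s T ≠ 0` gives `L T` by `hYL`. -/
theorem traceY [Nonempty E] (p : E → C → ℝ) (K : Finset E → Prop) (L : Finset C → Prop)
    (hK : Dn K) (hL : Dn L) (hK0 : K ∅) (hL0 : L ∅) (hAK : AC K)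
    (Y : Finset E → Finset C → Set (E → ℝ))
    (hYc : ∀ G T, IsCompact (Y G T)) (hYv : ∀ G T, Convex ℝ (Y G T))
    (hYa : ∀ G T T', T ⊆ T' → Y G T' ⊆ Y G T)
    (hYm : ∀ G G' T, G ⊆ G' → Y G T ⊆ Y G' T)
    (hYL : ∀ G T, (Y G T).Nonempty → L T)
    (hY0 : ∀ G, G.Nonempty → (Y G ∅).Nonempty)
    (ha : ∀ G, K G → G.Nonempty → ∀ x ∈ Y G ∅, AC fun T => x ∈ Y G T)
    (hb : ∀ T, L T → ∀ μ ∈ Sx T, AC fun G : Finset E => K G ∧ Amax p μ G) :
    ∃ G T, G.Nonempty ∧ K G ∧ (Y G T).Nonempty ∧ ∃ μ ∈ Sx T, Amax p μ G := by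
  obtain ⟨ρ, ρ0, ρ1, ρ2⟩ := carriers (A := E) (B := E) (fun _ => True) (fun _ _ _ _ => trivial)
    (fun s r => K r ∧ (K s → r ⊆ s))
    (fun s t hst _ _ r hr => ⟨hr.1, fun ht => (hr.2 (hK s t hst ht)).trans hst⟩)
    (fun s _ _ => ⟨hK0, fun _ => Finset.empty_subset s⟩)
    (fun s _ hs => by
      by_cases h : K s
      · have e : (fun r : Finset E => K r ∧ (K s → r ⊆ s)) = fun r => r ⊆ s := by
          funext r
          exact propext ⟨fun hr => hr.2 h, fun hr => ⟨hK r s hr h, fun _ => hr⟩⟩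
        rw [e]
        exact ac_simplex hs
      · have e : (fun r : Finset E => K r ∧ (K s → r ⊆ s)) = K := by
          funext r
          exact propext ⟨fun hr => hr.1, fun hr => ⟨hr, fun hs' => absurd hs' h⟩⟩
        rw [e]
        exact hAK)
  obtain ⟨θ, θ0, θ1, θ2⟩ := carriers (A := E) (B := C) K hK
    (fun G T => (Y G T).Nonempty)
    (fun s t hst _ _ r hr => hr.mono (hYm s t r hst))
    (fun s _ hs => hY0 s hs)
    (fun s hKs hs => ac_conv (E := C) (ι := E) (Y s) (hYc s) (hYv s) (hYa s) (hY0 s hs) (ha s hKs hs))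
  obtain ⟨ψ, ψ0, ψ1, ψ2⟩ := carriers (A := C) (B := E) L hL
    (fun T G => K G ∧ ∃ μ ∈ Sx T, Amax p μ G)
    (fun s t hst _ _ r hr => ⟨hr.1, hr.2.imp fun x hx => ⟨m_mono hst hx.1, hx.2⟩⟩)
    (fun s _ hs => ⟨hK0, (m_ne hs).imp fun x hx => ⟨hx, fun S hS => absurd hS (by simp)⟩⟩)
    (fun s hLs hs => ac_psi p K hK hK0 hs (hb s hLs))
  have hne : ∀ s : Finset E, K s → s.Nonempty → ∀ T : Finset C, θ s T ≠ 0 → L T ∧ T.Nonempty := by
    intro s hKs hs T hT
    obtain ⟨h1, h2⟩ := θ1 s hKs hs T hT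
    exact ⟨hYL s T h1, Finset.card_pos.mp (by rw [h2]; exact Finset.card_pos.mpr hs)⟩
  have hneR : ∀ s : Finset E, s.Nonempty → ∀ R : Finset E, ρ s R ≠ 0 → K R ∧ R.Nonempty := by
    intro s hs R hR
    obtain ⟨h1, h2⟩ := ρ1 s trivial hs R hR
    exact ⟨h1.1, Finset.card_pos.mp (by rw [h2]; exact Finset.card_pos.mpr hs)⟩
  -- the composite of the second and the third chain map
  have hg0 : ∀ r : Finset E, ∑ T, θ ∅ T * ψ T r = if r = ∅ then 1 else 0 := by
    intro r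
    rw [Finset.sum_eq_single ∅]
    · rw [θ0, if_pos rfl, one_mul, ψ0]
    · intro T _ hT
      rw [θ0, if_neg hT, zero_mul]
    · intro h
      exact absurd (mem_univ _) h
  have hg : ∀ s : Finset E, K s → s.Nonempty → ∀ r : Finset E,
      bd (fun H => ∑ T, θ s T * ψ T H) r = ∑ a ∈ s, ∑ T, θ (s.erase a) T * ψ T r := by
    intro s hKs hs r
    have e1 : bd (fun H => ∑ T, θ s T * ψ T H) r = ∑ T, θ s T * bd (ψ T) r := by
      rw [bd_sum]
      refine Finset.sum_congr rfl fun T _ => ?_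
      simp only [bd, Finset.mul_sum]
    have e2 : ∑ T, θ s T * bd (ψ T) r = ∑ T, θ s T * ∑ a ∈ T, ψ (T.erase a) r := by
      refine Finset.sum_congr rfl fun T _ => ?_
      by_cases hT : θ s T = 0
      · rw [hT, zero_mul, zero_mul]
      · obtain ⟨h1, h2⟩ := hne s hKs hs T hT
        rw [ψ2 T h1 h2 r]
    have e3 := pairing (fun T => ψ T r) (θ s)
    rw [e1, e2, ← e3]
    have e4 : ∀ T : Finset C, ψ T r * bd (θ s) T = ∑ a ∈ s, θ (s.erase a) T * ψ T r := by
      intro T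
      rw [θ2 s hKs hs T, Finset.mul_sum]
      exact Finset.sum_congr rfl fun a _ => mul_comm _ _
    rw [Finset.sum_congr rfl fun T _ => e4 T, Finset.sum_comm]
  obtain ⟨s, hs, hss⟩ := exists_diag (E := E) (fun G H => ∑ R, ρ G R * ∑ T, θ R T * ψ T H) (by
      intro r
      rw [Finset.sum_eq_single ∅]
      · rw [ρ0, if_pos rfl, one_mul, hg0]
      · intro R _ hR
        rw [ρ0, if_neg hR, zero_mul]
      · intro h
        exact absurd (mem_univ _) h) (by
      intro s hs r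
      have e1 : bd (fun H => ∑ R, ρ s R * ∑ T, θ R T * ψ T H) r =
          ∑ R, ρ s R * bd (fun H => ∑ T, θ R T * ψ T H) r := by
        rw [bd_sum]
        refine Finset.sum_congr rfl fun R _ => ?_
        simp only [bd, Finset.mul_sum]
      have e2 : ∑ R, ρ s R * bd (fun H => ∑ T, θ R T * ψ T H) r =
          ∑ R, ρ s R * ∑ a ∈ R, ∑ T, θ (R.erase a) T * ψ T r := by
        refine Finset.sum_congr rfl fun R _ => ?_
        by_cases hR : ρ s R = 0
        · rw [hR, zero_mul, zero_mul]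
        · obtain ⟨h1, h2⟩ := hneR s hs R hR
          rw [hg R h1 h2 r]
      have e3 := pairing (fun R => ∑ T, θ R T * ψ T r) (ρ s)
      rw [e1, e2, ← e3]
      have e4 : ∀ R : Finset E, (∑ T, θ R T * ψ T r) * bd (ρ s) R =
          ∑ a ∈ s, ρ (s.erase a) R * ∑ T, θ R T * ψ T r := by
        intro R
        rw [ρ2 s trivial hs R, Finset.mul_sum]
        exact Finset.sum_congr rfl fun a _ => mul_comm _ _
      rw [Finset.sum_congr rfl fun R _ => e4 R, Finset.sum_comm])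
  obtain ⟨R, _, hR⟩ := Finset.exists_ne_zero_of_sum_ne_zero hss
  have hR1 : ρ s R ≠ 0 := left_ne_zero_of_mul hR
  obtain ⟨T, _, hT⟩ := Finset.exists_ne_zero_of_sum_ne_zero (right_ne_zero_of_mul hR)
  have hT1 : θ R T ≠ 0 := left_ne_zero_of_mul hT
  have hT2 : ψ T s ≠ 0 := right_ne_zero_of_mul hT
  obtain ⟨hKR, hRn⟩ := hneR s hs R hR1
  obtain ⟨hLT, hTn⟩ := hne R hKR hRn T hT1
  obtain ⟨⟨_, hRs⟩, hcard⟩ := ρ1 s trivial hs R hR1
  obtain ⟨hY, _⟩ := θ1 R hKR hRn T hT1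
  obtain ⟨⟨hKs, μ, hμ, hμ'⟩, _⟩ := ψ1 T hLT hTn s hT2
  have hRs' : R = s := Finset.eq_of_subset_of_card_le (hRs hKs) hcard.ge
  rw [hRs'] at hY
  exact ⟨s, T, hs, hKs, hY, μ, hμ, hμ'⟩

end H47T
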