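import Pool.Agent.Lib.H47T.X1
import Pool.Agent.Lib.H96H.T1

/-! # H47T, chunk T1: a tight chain with stable blocks gives a flow -/

set_option autoImplicit false

namespace H47T

open Finset H98P H98Z H98M H63F H96H

variable {V : Type*} [Fintype V] [DecidableEq V]

private theorem t1_compl (x : Sym2 V → ℝ) (S : Finset V) : cutw x (univ \ S) = cutw x S := by
  unfold cutw
  refine Finset.sum_congr rfl fun e _ => ?_
  have h : (∃ a ∈ univ \ S, ∃ b, b ∉ univ \ S ∧ e = s(a, b)) ↔ ∃ a ∈ S, ∃ b, b ∉ S ∧ e = s(a, b) := by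
    constructor
    · rintro ⟨a, ha, b, hb, rfl⟩
      refine ⟨b, ?_, a, (mem_sdiff.1 ha).2, Sym2.eq_swap⟩
      by_contra hbS
      exact hb (mem_sdiff.2 ⟨mem_univ b, hbS⟩)
    · rintro ⟨a, ha, b, hb, rfl⟩
      exact ⟨b, mem_sdiff.2 ⟨mem_univ b, hb⟩, a, fun h1 => (mem_sdiff.1 h1).2 ha, Sym2.eq_swap⟩
  have h2 : px e (univ \ S) = px e S := by
    unfold px
    by_cases h3 : ∃ a ∈ S, ∃ b, b ∉ S ∧ e = s(a, b)
    · rw [if_pos h3, if_pos (h.2 h3)]
    · rw [if_neg h3, if_neg fun h4 => h3 (h.1 h4)]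
  rw [h2]

/-- The cuts of the family, normalized such that they contain `s`. -/
private theorem t1_norm {s t : V} {x : Sym2 V → ℝ} {c : ℝ} (T : Finset (NCut V))
    (hT : ∀ S ∈ T, Sep s t S.1 ∧ cutw x S.1 = c) (hN : ∀ S ∈ T, ∀ S' ∈ T, NonX S.1 S'.1) :
    ∃ A : Finset (Finset V), (∀ S ∈ A, s ∈ S ∧ t ∉ S ∧ cutw x S = c) ∧ (∀ S ∈ A, ∀ S' ∈ A, S ⊆ S' ∨ S' ⊆ S) ∧
      ∀ S ∈ T, ∀ a b : V, ¬ (a ∈ S.1 ↔ b ∈ S.1) → ∃ B ∈ A, ¬ (a ∈ B ↔ b ∈ B) := by
  classical
  obtain ⟨nr, hnr⟩ : ∃ nr : NCut V → Finset V, ∀ S, nr S = if s ∈ S.1 then S.1 else univ \ S.1 := ⟨_, fun _ => rfl⟩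
  have hm : ∀ S ∈ T, ∀ u, (u ∈ nr S ↔ (u ∈ S.1 ↔ s ∈ S.1)) := by
    intro S _ u
    rw [hnr]
    by_cases h : s ∈ S.1
    · rw [if_pos h]
      exact ⟨fun h1 => ⟨fun _ => h, fun _ => h1⟩, fun h1 => h1.2 h⟩
    · rw [if_neg h, mem_sdiff]
      constructor
      · rintro ⟨_, h1⟩
        exact ⟨fun h2 => absurd h2 h1, fun h2 => absurd h2 h⟩
      · intro h1
        exact ⟨mem_univ u, fun h2 => h (h1.1 h2)⟩
  refine ⟨T.image nr, ?_, ?_, ?_⟩
  · intro B hB
    obtain ⟨S, hS, rfl⟩ := mem_image.1 hB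
    refine ⟨(hm S hS s).2 Iff.rfl, fun h => (hT S hS).1 ((hm S hS t).1 h).symm, ?_⟩
    rw [hnr]
    split_ifs
    · exact (hT S hS).2
    · rw [t1_compl]
      exact (hT S hS).2
  · intro B hB B' hB'
    obtain ⟨S, hS, rfl⟩ := mem_image.1 hB
    obtain ⟨S', hS', rfl⟩ := mem_image.1 hB'
    have h1 := (hT S hS).1
    have h2 := (hT S' hS').1
    unfold Sep at h1 h2
    have sub : ∀ S₁ ∈ T, ∀ S₂ ∈ T, (∀ u, (u ∈ S₁.1 ↔ s ∈ S₁.1) → (u ∈ S₂.1 ↔ s ∈ S₂.1)) → nr S₁ ⊆ nr S₂ := by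
      intro S₁ h₁ S₂ h₂ h u hu
      exact (hm S₂ h₂ u).2 (h u ((hm S₁ h₁ u).1 hu))
    rcases hN S hS S' hS' with h3 | h3 | h3 | h3
    · -- disjoint
      have hd : ∀ u, u ∈ S.1 → u ∉ S'.1 := fun u hu hu' => by
        have : u ∈ S.1 ∩ S'.1 := mem_inter.2 ⟨hu, hu'⟩
        rw [h3] at this
        exact absurd this (notMem_empty u)
      by_cases hs : s ∈ S.1
      · left
        apply sub S hS S' hS'
        intro u hu
        have hu1 : u ∈ S.1 := hu.2 hs
        exact ⟨fun h4 => absurd h4 (hd u hu1), fun h4 => absurd h4 (hd s hs)⟩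
      · right
        have ht : t ∈ S.1 := by
          by_contra ht
          exact h1 ⟨fun h4 => absurd h4 hs, fun h4 => absurd h4 ht⟩
        have ht' : t ∉ S'.1 := hd t ht
        have hs' : s ∈ S'.1 := by
          by_contra hs'
          exact h2 ⟨fun h4 => absurd h4 hs', fun h4 => absurd h4 ht'⟩
        apply sub S' hS' S hS
        intro u hu
        have hu1 : u ∈ S'.1 := hu.2 hs'
        exact ⟨fun h4 => absurd hu1 (hd u h4), fun h4 => absurd h4 hs⟩
    · -- `S ⊆ S'`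
      by_cases hs : s ∈ S.1
      · left
        apply sub S hS S' hS'
        intro u hu
        exact ⟨fun _ => h3 hs, fun _ => h3 (hu.2 hs)⟩
      · have ht : t ∈ S.1 := by
          by_contra ht
          exact h1 ⟨fun h4 => absurd h4 hs, fun h4 => absurd h4 ht⟩
        have hs' : s ∉ S'.1 := fun hs' => h2 ⟨fun _ => h3 ht, fun _ => hs'⟩
        right
        apply sub S' hS' S hS
        intro u hu
        have hu1 : u ∉ S'.1 := fun h4 => hs' (hu.1 h4)
        exact ⟨fun h4 => absurd (h3 h4) hu1, fun h4 => absurd h4 hs⟩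
    · -- `S' ⊆ S`
      by_cases hs' : s ∈ S'.1
      · right
        apply sub S' hS' S hS
        intro u hu
        exact ⟨fun _ => h3 hs', fun _ => h3 (hu.2 hs')⟩
      · have ht' : t ∈ S'.1 := by
          by_contra ht
          exact h2 ⟨fun h4 => absurd h4 hs', fun h4 => absurd h4 ht⟩
        have hs : s ∉ S.1 := fun hs => h1 ⟨fun _ => h3 ht', fun _ => hs⟩
        left
        apply sub S hS S' hS'
        intro u hu
        have hu1 : u ∉ S.1 := fun h4 => hs (hu.1 h4)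
        exact ⟨fun h4 => absurd (h3 h4) hu1, fun h4 => absurd h4 hs'⟩
    · -- `S ∪ S' = univ`
      have hd : ∀ u, u ∈ S.1 ∨ u ∈ S'.1 := fun u => by
        have : u ∈ S.1 ∪ S'.1 := by
          rw [h3]
          exact mem_univ u
        exact mem_union.1 this
      by_cases hs : s ∈ S.1
      · have ht : t ∉ S.1 := fun ht => h1 ⟨fun _ => ht, fun _ => hs⟩
        have ht' : t ∈ S'.1 := (hd t).resolve_left ht
        have hs' : s ∉ S'.1 := fun hs' => h2 ⟨fun _ => ht', fun _ => hs'⟩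
        right
        apply sub S' hS' S hS
        intro u hu
        have hu1 : u ∉ S'.1 := fun h4 => hs' (hu.1 h4)
        exact ⟨fun _ => hs, fun _ => (hd u).resolve_right hu1⟩
      · have hs' : s ∈ S'.1 := (hd s).resolve_left hs
        left
        apply sub S hS S' hS'
        intro u hu
        have hu1 : u ∉ S.1 := fun h4 => hs (hu.1 h4)
        exact ⟨fun _ => hs', fun _ => (hd u).resolve_left hu1⟩
  · intro S hS a b hab
    refine ⟨nr S, mem_image_of_mem _ hS, ?_⟩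
    rw [hm S hS, hm S hS]
    intro h
    apply hab
    by_cases hs : s ∈ S.1
    · exact ⟨fun h1 => (h.1 ⟨fun _ => hs, fun _ => h1⟩).2 hs, fun h1 => (h.2 ⟨fun _ => hs, fun _ => h1⟩).2 hs⟩
    · constructor
      · intro h1
        by_contra h2
        exact hs ((h.2 ⟨fun h4 => absurd h4 h2, fun h4 => absurd h4 hs⟩).1 h1)
      · intro h1
        by_contra h2
        exact hs ((h.1 ⟨fun h4 => absurd h4 h2, fun h4 => absurd h4 hs⟩).1 h1)

omit [Fintype V] in
private theorem t1_lt (A : Finset (Finset V)) (hA : ∀ S ∈ A, ∀ S' ∈ A, S ⊆ S' ∨ S' ⊆ S) (u v : V) :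
    (A.filter fun S => u ∉ S).card < (A.filter fun S => v ∉ S).card ↔ ∃ S ∈ A, u ∈ S ∧ v ∉ S := by
  constructor
  · intro h
    by_contra hno
    push Not at hno
    apply absurd h
    rw [not_lt]
    apply card_le_card
    intro S hS
    rw [mem_filter] at hS ⊢
    exact ⟨hS.1, fun h1 => hS.2 (hno S hS.1 h1)⟩
  · rintro ⟨S, hS, hu, hv⟩
    apply card_lt_card
    rw [Finset.ssubset_iff_of_subset]
    · exact ⟨S, mem_filter.2 ⟨hS, hv⟩, fun h1 => (mem_filter.1 h1).2 hu⟩
    · intro B hB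
      rw [mem_filter] at hB ⊢
      refine ⟨hB.1, fun h1 => ?_⟩
      rcases hA S hS B hB.1 with h2 | h2
      · exact hB.2 (h2 hu)
      · exact hv (h2 h1)

omit [Fintype V] in
/-- The lower level set of `v`. -/
private theorem t1_low (A : Finset (Finset V)) (hA : ∀ S ∈ A, ∀ S' ∈ A, S ⊆ S' ∨ S' ⊆ S) (v : V)
    (h : ∃ S ∈ A, v ∉ S) : ∃ S ∈ A, v ∉ S ∧ ∀ u, u ∈ S ↔
      (A.filter fun S => u ∉ S).card < (A.filter fun S => v ∉ S).card := by
  obtain ⟨S₀, hS₀, hv₀⟩ := h
  obtain ⟨S, hS, hmax⟩ := exists_max_image (A.filter fun S => v ∉ S) (fun S => S.card)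
    ⟨S₀, mem_filter.2 ⟨hS₀, hv₀⟩⟩
  rw [mem_filter] at hS
  refine ⟨S, hS.1, hS.2, fun u => ?_⟩
  rw [t1_lt A hA]
  constructor
  · intro hu
    exact ⟨S, hS.1, hu, hS.2⟩
  · rintro ⟨B, hB, hu, hv⟩
    rcases hA B hB S hS.1 with h1 | h1
    · exact h1 hu
    · rw [eq_of_subset_of_card_le h1 (hmax B (mem_filter.2 ⟨hB, hv⟩))]
      exact hu

omit [Fintype V] in
/-- The upper level set of `v`. -/
private theorem t1_up (A : Finset (Finset V)) (hA : ∀ S ∈ A, ∀ S' ∈ A, S ⊆ S' ∨ S' ⊆ S) (v : V)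
    (h : ∃ S ∈ A, v ∈ S) : ∃ S ∈ A, v ∈ S ∧ ∀ u, u ∉ S ↔
      (A.filter fun S => v ∉ S).card < (A.filter fun S => u ∉ S).card := by
  obtain ⟨S₀, hS₀, hv₀⟩ := h
  obtain ⟨S, hS, hmin⟩ := exists_min_image (A.filter fun S => v ∈ S) (fun S => S.card)
    ⟨S₀, mem_filter.2 ⟨hS₀, hv₀⟩⟩
  rw [mem_filter] at hS
  refine ⟨S, hS.1, hS.2, fun u => ?_⟩
  rw [t1_lt A hA]
  constructor
  · intro hu
    exact ⟨S, hS.1, hS.2, hu⟩
  · rintro ⟨B, hB, hv, hu⟩ huS
    rcases hA S hS.1 B hB with h1 | h1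
    · exact hu (h1 huS)
    · rw [← eq_of_subset_of_card_le h1 (hmin B (mem_filter.2 ⟨hB, hv⟩))] at huS
      exact hu huS

/-- PROOF. `ρ v` = the number of the `S ∈ T` which separate `s` and `v`. For `S ∈ T` let `S'` be `S` or its complement,
with `s ∈ S'`, `t ∉ S'`; the `S'` form a chain (`NonX`), so `S'` contains `w` iff ...: if `ρ u < ρ v` some `S'` contains
`u` and not `v`; if some `S'` contains `u` and not `v` then `ρ u < ρ v`. Let `v ≠ s, t` and `A = {s} ∪ {u : ρ u < ρ v}`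
(`u ≠ t` automatically as `ρ t = |T|` is maximal). `A` is `{s}` (if `ρ v = 0`) or the largest `S'` without `v`, so
`cutw x A = rq A = (2 + M)/(n + M)`; `insert v A` separates, so `cutw x (insert v A) ≥ (2 + M)/(n + M)`, and
`cutw_insert` gives `∑ a ∈ A, x s(v, a) ≤ cutw x {v} / 2 = 1/(n + M)`. In the same way for
`A' = {t} ∪ {u : ρ v < ρ u}`. By `hcut` the edges at `v` of positive weight go to `A ∪ A'`, and `cutw x {v} = 2/(n+M)`
is the sum of both: both are `1/(n + M)`. -/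
theorem flow_of_tight {s t : V} (hst : s ≠ t) {M : ℝ} (hM : 0 ≤ M) {G : Finset (Sym2 V)} {x : Sym2 V → ℝ} (hx : x ∈ Sx G)
    (hG : ∀ v, s(v, v) ∉ G) (hF : Feas s t M x) (T : Finset (NCut V))
    (hT : ∀ S ∈ T, Sep s t S.1 ∧ cutw x S.1 = rq s t M S.1) (hN : ∀ S ∈ T, ∀ S' ∈ T, NonX S.1 S'.1)
    (hcut : ∀ a b : V, a ≠ b → a ≠ s → a ≠ t → b ≠ s → b ≠ t → s(a, b) ∈ G → ∃ S ∈ T, ¬ (a ∈ S.1 ↔ b ∈ S.1)) :
    ∃ ρ : V → ℕ, Flow s t x (1 / ((Fintype.card V : ℝ) + M)) ρ := by
  classical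
  have hn : (0 : ℝ) < (Fintype.card V : ℝ) := by
    have : 0 < Fintype.card V := Fintype.card_pos_iff.2 ⟨s⟩
    exact_mod_cast this
  have hden : 0 < (Fintype.card V : ℝ) + M := by linarith
  have hl : ∀ v, x s(v, v) = 0 := fun v => hx.2.1 _ (hG v)
  obtain ⟨c0, hc0⟩ : ∃ c0 : ℝ, c0 = (2 + M) / ((Fintype.card V : ℝ) + M) := ⟨_, rfl⟩
  obtain ⟨c, hc⟩ : ∃ c : ℝ, c = 1 / ((Fintype.card V : ℝ) + M) := ⟨_, rfl⟩
  have hrs : ∀ S : Finset V, Sep s t S → rq s t M S = c0 := by
    intro S h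
    unfold rq
    rw [if_pos h, hc0]
  have hrn : ∀ v : V, v ≠ s → v ≠ t → rq s t M {v} = 2 * c := by
    intro v h1 h2
    unfold rq
    rw [if_neg, hc, add_zero, mul_one_div]
    unfold Sep
    rw [not_not, mem_singleton, mem_singleton]
    exact ⟨fun h => absurd h.symm h1, fun h => absurd h.symm h2⟩
  obtain ⟨A, hA1, hA2, hA3⟩ := t1_norm (x := x) (c := c0) T
    (fun S hS => ⟨(hT S hS).1, (hT S hS).2.trans (hrs _ (hT S hS).1)⟩) hN
  obtain ⟨ρ, hρ⟩ : ∃ ρ : V → ℕ, ∀ v, ρ v = (A.filter fun S => v ∉ S).card := ⟨_, fun _ => rfl⟩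
  -- one side
  have side : ∀ (v : V) (B : Finset V), v ≠ s → v ≠ t → v ∉ B → cutw x B = c0 → Sep s t (insert v B) →
      (insert v B) ≠ univ → ∑ a ∈ B, x s(v, a) ≤ c := by
    intro v B hvs hvt hvB hB hsep hne
    have h1 := hF.2 (insert v B) (insert_nonempty v B) hne
    rw [hrs _ hsep] at h1
    have h2 := cutw_insert hl hvB
    have h3 : cutw x {v} = 2 * c := by rw [hF.1 v, hrn v hvs hvt]
    rw [hB, h3] at h2
    linarith
  refine ⟨ρ, fun v hvs hvt => ?_⟩
  rw [← hc]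
  have hlow : cutw x (insert s (univ.filter fun u => u ≠ s ∧ u ≠ t ∧ ρ u < ρ v)) = c0 := by
    by_cases h : ∃ S ∈ A, v ∉ S
    · obtain ⟨S, hS, hvS, hSm⟩ := t1_low A hA2 v h
      have h1 : insert s (univ.filter fun u => u ≠ s ∧ u ≠ t ∧ ρ u < ρ v) = S := by
        ext u
        rw [mem_insert, mem_filter]
        constructor
        · rintro (h2 | h2)
          · rw [h2]
            exact (hA1 S hS).1
          · rw [hSm u, ← hρ, ← hρ]
            exact h2.2.2.2
        · intro hu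
          by_cases hus : u = s
          · exact Or.inl hus
          · right
            refine ⟨mem_univ u, hus, ?_, ?_⟩
            · rintro rfl
              exact (hA1 S hS).2.1 hu
            · rw [hρ, hρ]
              exact (hSm u).1 hu
      rw [h1]
      exact (hA1 S hS).2.2
    · have h1 : insert s (univ.filter fun u => u ≠ s ∧ u ≠ t ∧ ρ u < ρ v) = {s} := by
        ext u
        rw [mem_insert, mem_filter, mem_singleton]
        constructor
        · rintro (h2 | h2)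
          · exact h2
          · exfalso
            have h3 := h2.2.2.2
            rw [hρ, hρ, t1_lt A hA2] at h3
            obtain ⟨S, hS, _, hv⟩ := h3
            exact h ⟨S, hS, hv⟩
        · exact Or.inl
      rw [h1, hF.1 s]
      apply hrs
      unfold Sep
      rw [mem_singleton, mem_singleton]
      exact fun h2 => hst (h2.1 rfl).symm
  have hup : cutw x (insert t (univ.filter fun u => u ≠ s ∧ u ≠ t ∧ ρ v < ρ u)) = c0 := by
    by_cases h : ∃ S ∈ A, v ∈ S
    · obtain ⟨S, hS, hvS, hSm⟩ := t1_up A hA2 v h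
      have h1 : insert t (univ.filter fun u => u ≠ s ∧ u ≠ t ∧ ρ v < ρ u) = univ \ S := by
        ext u
        rw [mem_insert, mem_filter, mem_sdiff]
        constructor
        · rintro (h2 | h2)
          · rw [h2]
            exact ⟨mem_univ t, (hA1 S hS).2.1⟩
          · refine ⟨mem_univ u, ?_⟩
            rw [hSm u, ← hρ, ← hρ]
            exact h2.2.2.2
        · rintro ⟨_, hu⟩
          by_cases hut : u = t
          · exact Or.inl hut
          · right
            refine ⟨mem_univ u, ?_, hut, ?_⟩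
            · rintro rfl
              exact hu (hA1 S hS).1
            · rw [hρ, hρ]
              exact (hSm u).1 hu
      rw [h1, t1_compl]
      exact (hA1 S hS).2.2
    · have h1 : insert t (univ.filter fun u => u ≠ s ∧ u ≠ t ∧ ρ v < ρ u) = {t} := by
        ext u
        rw [mem_insert, mem_filter, mem_singleton]
        constructor
        · rintro (h2 | h2)
          · exact h2
          · exfalso
            have h3 := h2.2.2.2
            rw [hρ, hρ, t1_lt A hA2] at h3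
            obtain ⟨S, hS, hv, _⟩ := h3
            exact h ⟨S, hS, hv⟩
        · exact Or.inl
      rw [h1, hF.1 t]
      apply hrs
      unfold Sep
      rw [mem_singleton, mem_singleton]
      exact fun h2 => hst (h2.2 rfl)
  have hv1 : v ∉ insert s (univ.filter fun u => u ≠ s ∧ u ≠ t ∧ ρ u < ρ v) := by
    rw [mem_insert, mem_filter]
    rintro (h | h)
    · exact hvs h
    · exact lt_irrefl _ h.2.2.2
  have hv2 : v ∉ insert t (univ.filter fun u => u ≠ s ∧ u ≠ t ∧ ρ v < ρ u) := by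
    rw [mem_insert, mem_filter]
    rintro (h | h)
    · exact hvt h
    · exact lt_irrefl _ h.2.2.2
  have ht1 : t ∉ insert v (insert s (univ.filter fun u => u ≠ s ∧ u ≠ t ∧ ρ u < ρ v)) := by
    rw [mem_insert, mem_insert, mem_filter]
    rintro (h | h | h)
    · exact hvt h.symm
    · exact hst h.symm
    · exact h.2.2.1 rfl
  have hs1 : s ∈ insert v (insert s (univ.filter fun u => u ≠ s ∧ u ≠ t ∧ ρ u < ρ v)) :=
    mem_insert_of_mem (mem_insert_self _ _)
  have hs2 : s ∉ insert v (insert t (univ.filter fun u => u ≠ s ∧ u ≠ t ∧ ρ v < ρ u)) := by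
    rw [mem_insert, mem_insert, mem_filter]
    rintro (h | h | h)
    · exact hvs h.symm
    · exact hst h
    · exact h.2.1 rfl
  have ht2 : t ∈ insert v (insert t (univ.filter fun u => u ≠ s ∧ u ≠ t ∧ ρ v < ρ u)) :=
    mem_insert_of_mem (mem_insert_self _ _)
  have k1 := side v _ hvs hvt hv1 hlow (fun h => ht1 (h.1 hs1)) (fun h => ht1 (by rw [h]; exact mem_univ t))
  have k2 := side v _ hvs hvt hv2 hup (fun h => hs2 (h.2 ht2)) (fun h => hs2 (by rw [h]; exact mem_univ s))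
  -- the sum of both is the degree
  have hdisj : Disjoint (insert s (univ.filter fun u => u ≠ s ∧ u ≠ t ∧ ρ u < ρ v))
      (insert t (univ.filter fun u => u ≠ s ∧ u ≠ t ∧ ρ v < ρ u)) := by
    rw [Finset.disjoint_left]
    intro u hu hu'
    rw [mem_insert, mem_filter] at hu hu'
    rcases hu with h | h
    · rcases hu' with h' | h'
      · exact hst (h.symm.trans h')
      · exact h'.2.1 h
    · rcases hu' with h' | h'
      · exact h.2.2.1 h'
      · exact lt_asymm h.2.2.2 h'.2.2.2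
  have hdeg : cutw x {v} = ∑ a ∈ univ \ {v}, x s(v, a) := by
    rw [cutw_eq]
    unfold bw
    rw [sum_singleton]
  have hsum : ∑ a ∈ insert s (univ.filter fun u => u ≠ s ∧ u ≠ t ∧ ρ u < ρ v), x s(v, a) +
      ∑ a ∈ insert t (univ.filter fun u => u ≠ s ∧ u ≠ t ∧ ρ v < ρ u), x s(v, a) = 2 * c := by
    rw [← sum_union hdisj, ← hrn v hvs hvt, ← hF.1 v, hdeg]
    apply sum_subset
    · intro a ha
      rw [mem_sdiff, mem_singleton]
      refine ⟨mem_univ a, ?_⟩
      rintro rfl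
      rcases mem_union.1 ha with h | h
      · exact hv1 h
      · exact hv2 h
    · intro a ha ha'
      rw [mem_sdiff, mem_singleton] at ha
      rw [mem_union, not_or, mem_insert, mem_insert, not_or, not_or, mem_filter, mem_filter] at ha'
      obtain ⟨⟨has, h1⟩, ⟨hat, h2⟩⟩ := ha'
      apply hx.2.1
      intro hG'
      obtain ⟨S, hS, hsep⟩ := hcut v a (fun h => ha.2 h.symm) hvs hvt has hat hG'
      obtain ⟨B, hB, hB'⟩ := hA3 S hS v a hsep
      by_cases hvB : v ∈ B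
      · have haB : a ∉ B := fun h => hB' ⟨fun _ => h, fun _ => hvB⟩
        apply h2
        refine ⟨mem_univ a, has, hat, ?_⟩
        rw [hρ, hρ, t1_lt A hA2]
        exact ⟨B, hB, hvB, haB⟩
      · have haB : a ∈ B := by
          by_contra h
          exact hB' ⟨fun h3 => absurd h3 hvB, fun h3 => absurd h3 h⟩
        apply h1
        refine ⟨mem_univ a, has, hat, ?_⟩
        rw [hρ, hρ, t1_lt A hA2]
        exact ⟨B, hB, haB, hvB⟩
  have e1 : ∑ a ∈ insert s (univ.filter fun u => u ≠ s ∧ u ≠ t ∧ ρ u < ρ v), x s(v, a) =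
      x s(s, v) + ∑ u ∈ univ.filter (fun u => u ≠ s ∧ u ≠ t ∧ ρ u < ρ v), x s(u, v) := by
    rw [sum_insert (fun h => (mem_filter.1 h).2.1 rfl), Sym2.eq_swap]
    congr 1
    exact sum_congr rfl fun u _ => by rw [Sym2.eq_swap]
  have e2 : ∑ a ∈ insert t (univ.filter fun u => u ≠ s ∧ u ≠ t ∧ ρ v < ρ u), x s(v, a) =
      x s(v, t) + ∑ u ∈ univ.filter (fun u => u ≠ s ∧ u ≠ t ∧ ρ v < ρ u), x s(v, u) := by
    rw [sum_insert (fun h => (mem_filter.1 h).2.2.1 rfl)]
  rw [e1] at k1 hsum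
  rw [e2] at k2 hsum
  exact ⟨by linarith, by linarith⟩

end H47T
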