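import Pool.Agent.Lib.H47T.H
import Pool.Agent.Lib.H97W.FinQ
import Pool.Agent.Lib.H63F.G5
import Pool.Agent.Lib.H98W.FIN

/-! # H47T, file W: Theorem T and Theorem H for one edge in the language of simple drawings -/

set_option autoImplicit false

open H53P SimpleDraw

namespace H47T

open Finset H98P H98Z H98M H63F H96H H63L H97W

/-- `L` describes internally disjoint paths from `s` to `t` in `G` which together contain all vertices. -/
def SP {n : ℕ} (G : SimpleGraph (Fin n)) (s t : Fin n) (L : List (List (Fin n))) : Prop :=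
  (∀ l ∈ L, l ≠ []) ∧ L.flatten.Nodup ∧ (∀ v, v ∈ L.flatten ↔ v ≠ s ∧ v ≠ t) ∧
    ∀ l ∈ L, (s :: (l ++ [t])).IsChain G.Adj

theorem sp_of_th {n : ℕ} {G : Finset (Sym2 (Fin n))} (hl : ∀ v, s(v, v) ∉ G) {s t : Fin n} {L : List (List (Fin n))}
    (h : Th s t G L) : SP (gr G) s t L := by
  obtain ⟨h1, h2, h3, h5⟩ := h
  exact ⟨h1, h2, h3, fun l hl' => (h5 l hl').imp fun a b hab => adj_of hl hab⟩

/-- Three vertices. -/
theorem three (D : SimpleDrawing 3) {s t : Fin 3} (hst : s ≠ t) :
    ∃ G : SimpleGraph (Fin 3), D.Plane G ∧ (∀ a b : Fin 3, a ≠ b → G.Adj a b) ∧ ∃ c, SP G s t [[c]] := by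
  have hsymm := H53P.crossT_symm (H53P.table D)
  have hHD := H98W.hd_table (H53P.table D)
  obtain ⟨G, y, g1, g2⟩ := H63F.fracHam_of_G (by rw [Fintype.card_fin]) hsymm hHD
  have hex : ∀ a b : Fin 3, ∃ c : Fin 3, c ≠ a ∧ c ≠ b := by decide
  have hall3 : ∀ a b c v : Fin 3, a ≠ b → c ≠ a → c ≠ b → v ≠ a → v ≠ b → v = c := by decide
  have hall : ∀ a b : Fin 3, a ≠ b → s(a, b) ∈ G := by
    intro a b hab
    by_contra h
    have h0 := g2.supp _ h
    obtain ⟨c, hc1, hc2⟩ := hex a b
    have h1 := integral_three (by rw [Fintype.card_fin]) g2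
    have h2 := g2.vert a
    rw [cutw_vertex (g2.supp _ (g2.loop a))] at h2
    have hu : (univ : Finset (Fin 3)) = {a, b, c} := by
      refine (eq_univ_of_card _ ?_).symm
      rw [card_insert_of_notMem, card_pair, Fintype.card_fin]
      · exact hc2.symm
      · simp [hab, hc1.symm]
    rw [hu, sum_insert (by simp [hab, hc1.symm]), sum_pair hc2.symm, h0, g2.supp _ (g2.loop a)] at h2
    rcases h1 s(a, c) with h5 | h5 <;> rw [h5] at h2 <;> norm_num at h2
  have hadj : ∀ a b : Fin 3, a ≠ b → (gr G).Adj a b := fun a b hab => adj_of g2.loop (hall a b hab)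
  obtain ⟨c, hc1, hc2⟩ := hex s t
  refine ⟨gr G, plane_of D g1, hadj, c, by simp, by simp, fun v => ?_, ?_⟩
  · simp only [List.flatten_cons, List.flatten_nil, List.append_nil, List.mem_singleton]
    constructor
    · rintro rfl
      exact ⟨hc1, hc2⟩
    · rintro ⟨h1, h2⟩
      exact hall3 s t c v hst hc1 hc2 h1 h2
  · intro l hl
    rw [List.mem_singleton] at hl
    subst hl
    simp only [List.cons_append, List.nil_append, List.isChain_cons_cons, List.isChain_singleton, and_true]
    exact ⟨hadj s c hc1.symm, hadj c t hc2⟩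

/-- Theorem T in the language of simple drawings. -/
theorem theta_drawing {n : ℕ} (hn : 3 ≤ n) (D : SimpleDrawing n) {s t : Fin n} (hst : s ≠ t) :
    ∃ G : SimpleGraph (Fin n), D.Plane G ∧ G.Adj s t ∧ ∃ L : List (List (Fin n)), SP G s t L := by
  rcases Nat.lt_or_ge n 4 with h4 | h4
  · have h3 : n = 3 := by omega
    subst h3
    obtain ⟨G, h1, h2, c, h3⟩ := three D hst
    exact ⟨G, h1, h2 s t hst, [[c]], h3⟩
  · obtain ⟨G, hG, hG1, L, hL⟩ := theoremT (by rw [Fintype.card_fin]; exact h4)
      (H53P.crossT_symm (H53P.table D)) (H98W.hd_table (H53P.table D)) hst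
    exact ⟨gr G, plane_of D hG.1, adj_of hG.2 hG1, L, sp_of_th hG.2 hL⟩

/-- The core theorem in the language of simple drawings. -/
theorem interp {n : ℕ} (hn : 3 ≤ n) (D : SimpleDrawing n) {s t : Fin n} (hst : s ≠ t) {M : ℝ} (hM : 0 ≤ M) :
    (∃ G : SimpleGraph (Fin n), D.Plane G ∧ G.Adj s t ∧ ∃ L : List (List (Fin n)), SP G s t L ∧
      (L.length : ℝ) ≤ M + 2) ∨
    ∃ (G : SimpleGraph (Fin n)) (y : Fin n → Fin n → ℝ), D.Plane G ∧ ¬ G.Adj s t ∧
      ((∀ a b, 0 ≤ y a b) ∧ (∀ a b, y a b = y b a) ∧ ∀ a b, y a b ≠ 0 → G.Adj a b) ∧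
      (∀ a, ∑ b, y a b = if a = s ∨ a = t then M + 2 else 2) ∧
      ∀ S : Finset (Fin n), S.Nonempty → S ≠ univ →
        (if (s ∈ S ↔ t ∈ S) then 2 else M + 2) ≤ ∑ a ∈ S, ∑ b ∈ Sᶜ, y a b := by
  classical
  rcases Nat.lt_or_ge n 4 with h4 | h4
  · have h3 : n = 3 := by omega
    subst h3
    obtain ⟨G, h1, h2, c, h3⟩ := three D hst
    refine Or.inl ⟨G, h1, h2 s t hst, [[c]], h3, ?_⟩
    simp only [List.length_cons, List.length_nil]
    norm_num
    linarith
  · obtain ⟨G, hG, h⟩ := core (by rw [Fintype.card_fin]; exact h4)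
      (H53P.crossT_symm (H53P.table D)) (H98W.hd_table (H53P.table D)) hst hM
    rcases h with ⟨h1, L, h2, h3⟩ | ⟨h1, x, hx, hF, -⟩
    · exact Or.inl ⟨gr G, plane_of D hG.1, adj_of hG.2 h1, L, sp_of_th hG.2 h2, h3⟩
    · right
      obtain ⟨hx0, hx1, hx2⟩ := hx
      obtain ⟨hF1, hF2⟩ := hF
      have hn0 : (0 : ℝ) < (Fintype.card (Fin n) : ℝ) + M := by
        rw [Fintype.card_fin]
        have : (4 : ℝ) ≤ (n : ℝ) := by exact_mod_cast h4
        linarith
      obtain ⟨N, hN⟩ : ∃ N : ℝ, N = (Fintype.card (Fin n) : ℝ) + M := ⟨_, rfl⟩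
      rw [← hN] at hn0
      have hl : ∀ v, x s(v, v) = 0 := fun v => hx1 _ (hG.2 v)
      have hrq : ∀ S : Finset (Fin n), N * rq s t M S = if (s ∈ S ↔ t ∈ S) then 2 else M + 2 := by
        intro S
        unfold rq Sep
        rw [← hN, mul_div_cancel₀ _ hn0.ne']
        by_cases h5 : (s ∈ S ↔ t ∈ S)
        · rw [if_neg (not_not.2 h5), if_pos h5, add_zero]
        · rw [if_pos h5, if_neg h5, add_comm]
      refine ⟨gr G, fun a b => N * x s(a, b), plane_of D hG.1, ?_, ⟨fun a b => ?_, fun a b => ?_, fun a b h5 => ?_⟩,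
        fun a => ?_, fun S h5 h6 => ?_⟩
      · intro h5
        rw [SimpleGraph.fromEdgeSet_adj] at h5
        exact h1 (mem_coe.1 h5.1)
      · exact mul_nonneg hn0.le (hx0 _)
      · show N * x s(a, b) = N * x s(b, a)
        rw [Sym2.eq_swap]
      · refine adj_of hG.2 (by_contra fun h6 => h5 ?_)
        show N * x s(a, b) = 0
        rw [hx1 _ h6, mul_zero]
      · rw [← mul_sum, ← cutw_vertex (hl a), hF1 a, hrq]
        have e : (s ∈ ({a} : Finset (Fin n)) ↔ t ∈ ({a} : Finset (Fin n))) ↔ ¬ (a = s ∨ a = t) := by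
          rw [mem_singleton, mem_singleton]
          constructor
          · intro h5 h6
            rcases h6 with h6 | h6
            · exact hst (h6 ▸ (h5.1 h6.symm).symm ▸ rfl)
            · exact hst ((h5.2 h6.symm).trans h6)
          · intro h5
            rw [not_or] at h5
            exact ⟨fun h6 => absurd h6.symm h5.1, fun h6 => absurd h6.symm h5.2⟩
        by_cases h5 : a = s ∨ a = t
        · rw [if_pos h5, if_neg (fun h6 => (e.1 h6) h5)]
        · rw [if_neg h5, if_pos (e.2 h5)]
      · have h7 := mul_le_mul_of_nonneg_left (hF2 S h5 h6) hn0.le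
        rw [hrq, H97W.cutw_compl] at h7
        refine h7.trans (le_of_eq ?_)
        rw [mul_sum]
        exact sum_congr rfl fun a _ => by rw [mul_sum]

/-- A Hamiltonian cycle from one or two paths. -/
theorem ham_of_sp {n : ℕ} (hn : 3 ≤ n) {G : SimpleGraph (Fin n)} {s t : Fin n} (hst : s ≠ t) (hG : G.Adj s t)
    {L : List (List (Fin n))} (h : SP G s t L) (hL : L.length ≤ 2) :
    ∃ (a : Fin n) (c : G.Walk a a), c.IsHamiltonianCycle := by
  obtain ⟨h1, h2, h3, h5⟩ := h
  obtain ⟨v, hv1, hv2⟩ : ∃ v : Fin n, v ≠ s ∧ v ≠ t := by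
    by_contra hcon
    push Not at hcon
    have h6 : (univ : Finset (Fin n)) ⊆ {s, t} := fun v _ => by
      rw [mem_insert, mem_singleton]
      by_cases h7 : v = s
      · exact Or.inl h7
      · exact Or.inr (hcon v h7)
    have h7 := card_le_card h6
    rw [card_univ, Fintype.card_fin, card_pair hst] at h7
    omega
  rcases L with _ | ⟨l, _ | ⟨l', _ | ⟨l'', L⟩⟩⟩
  · have := (h3 v).2 ⟨hv1, hv2⟩
    simp at this
  · simp only [List.flatten_cons, List.flatten_nil, List.append_nil] at h2 h3
    have hs : s ∉ l := fun h6 => ((h3 s).1 h6).1 rfl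
    have ht : t ∉ l := fun h6 => ((h3 t).1 h6).2 rfl
    refine ham_of_list (s :: (l ++ [t])) ?_ ?_ ?_ (h5 l (by simp)) (a := s) (b := t) rfl ?_ hG.symm
    · have : l ≠ [] := h1 l (by simp)
      have : 0 < l.length := List.length_pos_iff.2 this
      simp only [List.length_cons, List.length_append, List.length_nil]
      omega
    · rw [List.nodup_cons, List.nodup_append]
      refine ⟨?_, h2, by simp, ?_⟩
      · simp only [List.mem_append, List.mem_singleton, not_or]
        exact ⟨hs, hst⟩
      · intro a ha b hb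
        rw [List.mem_singleton] at hb
        subst hb
        rintro rfl
        exact ht ha
    · intro w
      simp only [List.mem_cons, List.mem_append, List.mem_singleton, List.not_mem_nil, or_false]
      by_cases e1 : w = s
      · exact Or.inl e1
      · by_cases e2 : w = t
        · exact Or.inr (Or.inr e2)
        · exact Or.inr (Or.inl ((h3 w).2 ⟨e1, e2⟩))
    · rw [List.getLast?_cons, List.getLast?_append]
      rfl
  · simp only [List.flatten_cons, List.flatten_nil, List.append_nil] at h2 h3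
    have hmem : ∀ w, w ∈ l ∨ w ∈ l' ↔ w ≠ s ∧ w ≠ t := fun w => by rw [← h3 w, List.mem_append]
    have hs : s ∉ l := fun h6 => ((hmem s).1 (Or.inl h6)).1 rfl
    have ht : t ∉ l := fun h6 => ((hmem t).1 (Or.inl h6)).2 rfl
    have hs' : s ∉ l' := fun h6 => ((hmem s).1 (Or.inr h6)).1 rfl
    have ht' : t ∉ l' := fun h6 => ((hmem t).1 (Or.inr h6)).2 rfl
    have hne : l ≠ [] := h1 l (by simp)
    have hne' : l' ≠ [] := h1 l' (by simp)
    rw [List.nodup_append] at h2
    obtain ⟨n1, n2, n3⟩ := h2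
    have c1 := h5 l (by simp)
    have c2 := h5 l' (by simp)
    have c3 : ((s :: (l' ++ [t])).reverse).IsChain G.Adj := by
      rw [List.isChain_reverse]
      exact c2.imp fun a b hab => hab.symm
    have e3 : (s :: (l' ++ [t])).reverse = t :: (l'.reverse ++ [s]) := by simp
    rw [e3] at c3
    obtain ⟨z, hz⟩ : ∃ z, (l'.reverse).getLast? = some z := by
      rw [← Option.ne_none_iff_exists', Ne, List.getLast?_eq_none_iff, List.reverse_eq_nil_iff]
      exact hne'
    have hchain : (s :: (l ++ (t :: l'.reverse))).IsChain G.Adj := by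
      have e4 : s :: (l ++ (t :: l'.reverse)) = (s :: l) ++ (t :: l'.reverse) := by simp
      have e5 : s :: (l ++ [t]) = (s :: l) ++ [t] := by simp
      have e6 : t :: (l'.reverse ++ [s]) = (t :: l'.reverse) ++ [s] := by simp
      rw [e5, List.isChain_append] at c1
      rw [e6, List.isChain_append] at c3
      rw [e4, List.isChain_append]
      exact ⟨c1.1, c3.1, fun x hx y hy => c1.2.2 x hx y (by simpa using hy)⟩
    have hclose : G.Adj z s := by
      have e6 : t :: (l'.reverse ++ [s]) = (t :: l'.reverse) ++ [s] := by simp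
      rw [e6, List.isChain_append] at c3
      refine c3.2.2 z ?_ s (by simp)
      have : (t :: l'.reverse).getLast? = some z := by
        rw [List.getLast?_cons, hz]
        rfl
      exact this
    refine ham_of_list (s :: (l ++ (t :: l'.reverse))) ?_ ?_ ?_ hchain (a := s) (b := z) rfl ?_ hclose
    · have : 0 < l.length := List.length_pos_iff.2 hne
      simp only [List.length_cons, List.length_append]
      omega
    · rw [List.nodup_cons, List.nodup_append, List.nodup_cons]
      refine ⟨?_, n1, ⟨?_, List.nodup_reverse.2 n2⟩, ?_⟩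
      · simp only [List.mem_append, List.mem_cons, List.mem_reverse, not_or]
        exact ⟨hs, hst, hs'⟩
      · rw [List.mem_reverse]
        exact ht'
      · intro a ha b hb
        rw [List.mem_cons, List.mem_reverse] at hb
        rcases hb with hb | hb
        · subst hb
          rintro rfl
          exact ht ha
        · exact n3 a ha b hb
    · intro w
      simp only [List.mem_cons, List.mem_append, List.mem_reverse]
      by_cases e1 : w = s
      · exact Or.inl e1
      · by_cases e2 : w = t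
        · exact Or.inr (Or.inr (Or.inl e2))
        · rcases (hmem w).2 ⟨e1, e2⟩ with h6 | h6
          · exact Or.inr (Or.inl h6)
          · exact Or.inr (Or.inr (Or.inr h6))
    · have : (s :: (l ++ (t :: l'.reverse))).getLast? = some z := by
        rw [List.getLast?_cons, List.getLast?_append, List.getLast?_cons, hz]
        rfl
      exact this
  · simp only [List.length_cons] at hL
    omega

/-- Theorem H for one edge. -/
theorem avoid {n : ℕ} (hn : 3 ≤ n) (D : SimpleDrawing n) {s t : Fin n} (hst : s ≠ t) :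
    (∃ G : SimpleGraph (Fin n), D.Plane G ∧ ∃ (a : Fin n) (c : G.Walk a a), c.IsHamiltonianCycle) ∨
    ∃ (G : SimpleGraph (Fin n)) (y : Fin n → Fin n → ℝ), D.Plane G ∧ ¬ G.Adj s t ∧
      ((∀ a b, 0 ≤ y a b) ∧ (∀ a b, y a b = y b a) ∧ ∀ a b, y a b ≠ 0 → G.Adj a b) ∧
      (∀ X : Finset (Fin n), X.card ≤ 2 → (G.induce {v | v ∉ X}).Connected) ∧
      (∀ a b, G.Adj a b → 0 < y a b ∧ y a b < 1) ∧
      (∀ a, ∑ b, y a b = 2) ∧
      (∀ S : Finset (Fin n), 2 ≤ S.card → 2 ≤ Sᶜ.card → 2 < ∑ a ∈ S, ∑ b ∈ Sᶜ, y a b) := by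
  classical
  rcases Nat.lt_or_ge n 4 with h4 | h4
  · have h3 : n = 3 := by omega
    subst h3
    obtain ⟨G, h1, h2, c, h3⟩ := three D hst
    exact Or.inl ⟨G, h1, ham_of_sp hn hst (h2 s t hst) h3 (by simp)⟩
  · obtain ⟨G, hG, h⟩ := theoremH (by rw [Fintype.card_fin]; exact h4)
      (H53P.crossT_symm (H53P.table D)) (H98W.hd_table (H53P.table D)) hst
    have hV : 3 ≤ Fintype.card (Fin n) := by rw [Fintype.card_fin]; omega
    rcases h with ⟨h1, L, h2, h3⟩ | ⟨h1, x, hx, hgood⟩
    · exact Or.inl ⟨gr G, plane_of D hG.1, ham_of_sp hn hst (adj_of hG.2 h1) (sp_of_th hG.2 h2) h3⟩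
    · obtain ⟨hx0, hx1, hx2⟩ := hx
      have hn0 : (0 : ℝ) < (Fintype.card (Fin n) : ℝ) := by
        rw [Fintype.card_fin]
        exact_mod_cast (by omega : 0 < n)
      have hn2 : (Fintype.card (Fin n) : ℝ) * (2 / (Fintype.card (Fin n) : ℝ)) = 2 := by field_simp
      have hn1 : (Fintype.card (Fin n) : ℝ) * (1 / (Fintype.card (Fin n) : ℝ)) = 1 := by field_simp
      obtain ⟨N, hN⟩ : ∃ N : ℝ, N = (Fintype.card (Fin n) : ℝ) := ⟨_, rfl⟩
      rw [← hN] at hn0 hn1 hn2
      have hsm : ∀ S : Finset (Fin n), cutw (fun e => N * x e) S = N * cutw x S := by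
        intro S
        unfold cutw
        rw [mul_sum]
        exact sum_congr rfl fun e _ => by ring
      obtain ⟨G', hG'⟩ : ∃ G', G' = G.filter fun e => 0 < x e := ⟨_, rfl⟩
      have hfr : FracHam G' fun e => N * x e := by
        refine ⟨fun e => mul_nonneg hn0.le (hx0 e), fun e he => ?_, fun v hv => ?_, fun v => ?_, fun S h5 h6 => ?_⟩
        · have h0 : x e = 0 := by
            by_contra hne
            rw [hG'] at he
            refine he (mem_filter.2 ⟨by_contra fun h6 => hne (hx1 e h6), lt_of_le_of_ne (hx0 e) (Ne.symm hne)⟩)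
          show N * x e = 0
          rw [h0, mul_zero]
        · rw [hG'] at hv
          exact hG.2 v (mem_filter.1 hv).1
        · rw [hsm, hgood.1 v, ← hN, hn2]
        · rw [hsm]
          calc (2 : ℝ) = N * (2 / N) := hn2.symm
            _ ≤ _ := mul_le_mul_of_nonneg_left (by have := hgood.2.1 S h5 h6; rwa [← hN] at this) hn0.le
      have hP : Plane (crossT (table D)) G' := by
        rw [hG']
        exact fun e he f hf => hG.1 e (mem_filter.1 he).1 f (mem_filter.1 hf).1
      rcases hgood.2.2 with h | h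
      · refine Or.inl ⟨gr G', plane_of D hP, ham_walk hV hfr fun e => ?_⟩
        rcases h e with h0 | h0
        · left
          show N * x e = 0
          rw [h0, mul_zero]
        · right
          show N * x e = 1
          rw [h0, ← hN, hn1]
      · have hs : ∀ S : Finset (Fin n), 2 ≤ S.card → 2 ≤ (univ \ S).card →
            2 < cutw (fun e => N * x e) S := by
          intro S h5 h6
          rw [hsm]
          calc (2 : ℝ) = N * (2 / N) := hn2.symm
            _ < _ := mul_lt_mul_of_pos_left (by have := h ⟨S, h5, h6⟩; rwa [← hN] at this) hn0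
        obtain ⟨f1, f2, f3, f4, f5, -⟩ := strict_all h4 hfr hs
        refine Or.inr ⟨gr G', fun a b => N * x s(a, b), plane_of D hP, ?_, f1, f2, fun a b hab => ?_, f4, f5⟩
        · intro h5
          rw [SimpleGraph.fromEdgeSet_adj, hG'] at h5
          exact h1 (mem_filter.1 (mem_coe.1 h5.1)).1
        · rw [SimpleGraph.fromEdgeSet_adj, hG'] at hab
          exact ⟨mul_pos hn0 (mem_filter.1 (mem_coe.1 hab.1)).2, f3 a b⟩

end H47T
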