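import Pool.Agent.Lib.H47T.A0

/-! # H47T, chunk X1: feasible points -/

set_option autoImplicit false
set_option linter.unusedSectionVars false

namespace H47T

open Finset H98P H98Z H98M H63F H96H

variable {V : Type*} [Fintype V] [DecidableEq V]

private theorem x1_px (a b : V) (S : Finset V) : px s(a, b) S = if (a ∈ S ↔ b ∈ S) then 0 else 1 := by
  unfold px
  by_cases ha : a ∈ S <;> by_cases hb : b ∈ S
  · rw [if_neg, if_pos (by simp [ha, hb])]
    rintro ⟨x, hx, y, hy, h⟩
    rcases Sym2.eq_iff.1 h with ⟨h1, h2⟩ | ⟨h1, h2⟩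
    · exact hy (h2 ▸ hb)
    · exact hy (h1 ▸ ha)
  · rw [if_pos ⟨a, ha, b, hb, rfl⟩, if_neg (by simp [ha, hb])]
  · rw [if_pos ⟨b, hb, a, ha, Sym2.eq_swap⟩, if_neg (by simp [ha, hb])]
  · rw [if_neg, if_pos (by simp [ha, hb])]
    rintro ⟨x, hx, y, hy, h⟩
    rcases Sym2.eq_iff.1 h with ⟨h1, h2⟩ | ⟨h1, h2⟩
    · exact ha (h1 ▸ hx)
    · exact hb (h2 ▸ hx)

private theorem x1_sep_left {s t : V} (hst : s ≠ t) : Sep s t ({s} : Finset V) := by
  intro h
  exact hst (Finset.mem_singleton.1 (h.1 (Finset.mem_singleton_self s))).symm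

private theorem x1_sep_right {s t : V} (hst : s ≠ t) : Sep s t ({t} : Finset V) := by
  intro h
  exact hst (Finset.mem_singleton.1 (h.2 (Finset.mem_singleton_self t)))

/-- A set `A` with at least two elements whose cut is tight contains an edge of positive weight. -/
private theorem x1_in {s t : V} (hst : s ≠ t) {M : ℝ} (hM : 0 ≤ M) {x : Sym2 V → ℝ}
    (hF : Feas s t M x) (A : Finset V) (hA : 2 ≤ A.card) (hT : cutw x A = rq s t M A) :
    ∃ a ∈ A, ∃ b ∈ A, x s(a, b) ≠ 0 := by
  classical
  by_contra hcon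
  push Not at hcon
  have hn : (0 : ℝ) < (Fintype.card V : ℝ) + M := by
    have h1 : A.card ≤ Fintype.card V := Finset.card_le_univ A
    have h2 : (2 : ℝ) ≤ (Fintype.card V : ℝ) := by exact_mod_cast hA.trans h1
    linarith
  have h1 : cutw x A = ∑ v ∈ A, cutw x {v} := by
    unfold cutw
    rw [Finset.sum_comm]
    refine Finset.sum_congr rfl fun e _ => ?_
    rw [← Finset.mul_sum]
    induction e using Sym2.ind with
    | _ a b =>
      by_cases ha : a ∈ A <;> by_cases hb : b ∈ A
      · rw [hcon a ha b hb, zero_mul, zero_mul]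
      · congr 1
        rw [x1_px, if_neg (by simp [ha, hb]), Finset.sum_eq_single a]
        · rw [x1_px, if_neg]
          intro h
          have h2 : b = a := Finset.mem_singleton.1 (h.1 (Finset.mem_singleton_self a))
          exact hb (h2 ▸ ha)
        · intro v hv hva
          rw [x1_px, if_pos]
          constructor
          · intro h
            exact absurd (Finset.mem_singleton.1 h).symm hva
          · intro h
            exact absurd ((Finset.mem_singleton.1 h) ▸ hv) hb
        · intro h
          exact absurd ha h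
      · congr 1
        rw [x1_px, if_neg (by simp [ha, hb]), Finset.sum_eq_single b]
        · rw [x1_px, if_neg]
          intro h
          have h2 : a = b := Finset.mem_singleton.1 (h.2 (Finset.mem_singleton_self b))
          exact ha (h2 ▸ hb)
        · intro v hv hvb
          rw [x1_px, if_pos]
          constructor
          · intro h
            exact absurd ((Finset.mem_singleton.1 h) ▸ hv) ha
          · intro h
            exact absurd (Finset.mem_singleton.1 h).symm hvb
        · intro h
          exact absurd hb h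
      · congr 1
        rw [x1_px, if_pos (by simp [ha, hb])]
        refine (Finset.sum_eq_zero fun v hv => ?_).symm
        rw [x1_px, if_pos]
        constructor
        · intro h
          exact absurd ((Finset.mem_singleton.1 h) ▸ hv) ha
        · intro h
          exact absurd ((Finset.mem_singleton.1 h) ▸ hv) hb
  rw [hT, Finset.sum_congr rfl fun v _ => hF.1 v] at h1
  unfold rq at h1
  rw [← Finset.sum_div, div_left_inj' hn.ne', Finset.sum_add_distrib, Finset.sum_const, nsmul_eq_mul] at h1
  have h2 : (if Sep s t A then M else 0) ≤ ∑ v ∈ A, (if Sep s t ({v} : Finset V) then M else 0) := by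
    have h3 : ∀ v ∈ A, (0 : ℝ) ≤ (if Sep s t ({v} : Finset V) then M else 0) := by
      intro v _
      split_ifs
      · exact hM
      · exact le_rfl
    by_cases hs : Sep s t A
    · rw [if_pos hs]
      by_cases hsA : s ∈ A
      · have h4 := Finset.single_le_sum h3 hsA
        rwa [if_pos (x1_sep_left hst)] at h4
      · have htA : t ∈ A := by
          by_contra htA
          exact hs (by simp [hsA, htA])
        have h4 := Finset.single_le_sum h3 htA
        rwa [if_pos (x1_sep_right hst)] at h4
    · rw [if_neg hs]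
      exact Finset.sum_nonneg h3
  have h5 : (2 : ℝ) ≤ (A.card : ℝ) := by exact_mod_cast hA
  linarith

/-- PROOF. `cutw x {s} + cutw x {t} = (4 + 2 M)/(n + M)`; every pair `e` is counted `≤ 1` times, `st` twice:
`≤ 1 + x st`. For `M = n`: `x st ≥ 2/n`. -/
theorem feas_st {s t : V} (hst : s ≠ t) (hV : 4 ≤ Fintype.card V) {x : Sym2 V → ℝ} (h0 : ∀ e, 0 ≤ x e)
    (h1 : ∑ e, x e = 1) (hl : ∀ v, x s(v, v) = 0) (hF : Feas s t (Fintype.card V : ℝ) x) : 0 < x s(s, t) := by
  have hn : (4 : ℝ) ≤ (Fintype.card V : ℝ) := by exact_mod_cast hV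
  have e1 := hF.1 s
  have e2 := hF.1 t
  unfold rq at e1 e2
  rw [if_pos (x1_sep_left hst)] at e1
  rw [if_pos (x1_sep_right hst)] at e2
  have h2 : cutw x {s} + cutw x {t} ≤ 1 + x s(s, t) := by
    have h3 : ∑ e, (x e + if e = s(s, t) then x e else 0) = 1 + x s(s, t) := by
      rw [Finset.sum_add_distrib, h1, Finset.sum_ite_eq' univ s(s, t) x, if_pos (Finset.mem_univ _)]
    rw [← h3]
    unfold cutw
    rw [← Finset.sum_add_distrib]
    refine Finset.sum_le_sum fun e _ => ?_
    have h4 := h0 e
    induction e using Sym2.ind with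
    | _ a b =>
      by_cases he : s(a, b) = s(s, t)
      · rw [if_pos he]
        have h5 : px s(a, b) {s} ≤ 1 := by
          rw [x1_px]
          split_ifs <;> norm_num
        have h6 : px s(a, b) {t} ≤ 1 := by
          rw [x1_px]
          split_ifs <;> norm_num
        nlinarith
      · rw [if_neg he]
        have h5 : px s(a, b) {s} + px s(a, b) {t} ≤ 1 := by
          rw [x1_px, x1_px]
          by_cases ha : a = s <;> by_cases hb : b = s
          · simp [ha, hb]
          · have hbt : b ≠ t := by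
              rintro rfl
              exact he (by rw [ha])
            have hat : a ≠ t := by
              rw [ha]
              exact hst
            simp [ha, hb, hbt, hst]
          · have hat : a ≠ t := by
              rintro rfl
              exact he (by rw [hb, Sym2.eq_swap])
            simp [ha, hb, hat, hst]
          · simp [ha, hb]
            split_ifs <;> norm_num
        nlinarith
  have h7 : (2 + (Fintype.card V : ℝ)) / ((Fintype.card V : ℝ) + (Fintype.card V : ℝ)) * 2 =
      1 + 2 / (Fintype.card V : ℝ) := by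
    field_simp
    ring
  have h8 : (0 : ℝ) < 2 / (Fintype.card V : ℝ) := by positivity
  linarith

/-- PROOF. `cutw x S + 2 * (sum of the x e inside of S) = ∑ v ∈ S, cutw x {v} = ∑ v ∈ S, rq {v}`, and this is larger
than `rq S` (`|S| ≥ 2`), so some edge inside of `S` has positive weight, so it is in `G`. The same for the complement
(`cutw_compl`, `rq_compl`). -/
theorem tight_uns {s t : V} (hst : s ≠ t) {M : ℝ} (hM : 0 ≤ M) {G : Finset (Sym2 V)} {x : Sym2 V → ℝ} (hx : x ∈ Sx G)
    (hG : ∀ v, s(v, v) ∉ G) (hF : Feas s t M x) (S : NCut V) (hS : cutw x S.1 = rq s t M S.1) : Uns G S.1 := by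
  have hx0 : ∀ e, x e ≠ 0 → e ∈ G := by
    intro e he
    by_contra h
    exact he (hx.2.1 e h)
  have key : ∀ A : Finset V, 2 ≤ A.card → cutw x A = rq s t M A →
      ∃ a ∈ A, ∃ b ∈ A, a ≠ b ∧ s(a, b) ∈ G := by
    intro A hA hT
    obtain ⟨a, ha, b, hb, h⟩ := x1_in hst hM hF A hA hT
    refine ⟨a, ha, b, hb, ?_, hx0 _ h⟩
    rintro rfl
    exact hG a (hx0 _ h)
  refine ⟨key S.1 S.2.1 hS, ?_⟩
  obtain ⟨a, ha, b, hb, h1, h2⟩ := key (univ \ S.1) S.2.2 (by rw [cutw_compl, rq_compl, hS])
  exact ⟨a, (Finset.mem_sdiff.1 ha).2, b, (Finset.mem_sdiff.1 hb).2, h1, h2⟩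

/-- PROOF. `cutw x (insert v A) = cutw x A + cutw x {v} - 2 ∑ a ∈ A, x s(v, a)` (edge by edge). -/
theorem cutw_insert {x : Sym2 V → ℝ} (hl : ∀ v, x s(v, v) = 0) {A : Finset V} {v : V} (hv : v ∉ A) :
    cutw x (insert v A) + 2 * ∑ a ∈ A, x s(v, a) = cutw x A + cutw x {v} := by
  classical
  have _ := hl
  have h1 : ∑ a ∈ A, x s(v, a) = ∑ e, (if e ∈ A.image (fun a => s(v, a)) then x e else 0) := by
    rw [Finset.sum_ite_mem, Finset.univ_inter, Finset.sum_image]
    intro a _ b _ h
    exact Sym2.congr_right.1 h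
  rw [h1, Finset.mul_sum]
  unfold cutw
  rw [← Finset.sum_add_distrib, ← Finset.sum_add_distrib]
  refine Finset.sum_congr rfl fun e _ => ?_
  induction e using Sym2.ind with
  | _ p q =>
    have hm : s(p, q) ∈ A.image (fun a => s(v, a)) ↔ (p = v ∧ q ∈ A) ∨ (q = v ∧ p ∈ A) := by
      rw [Finset.mem_image]
      constructor
      · rintro ⟨a, ha, h⟩
        rcases Sym2.eq_iff.1 h with ⟨h2, h3⟩ | ⟨h2, h3⟩
        · exact Or.inl ⟨h2.symm, h3 ▸ ha⟩
        · exact Or.inr ⟨h2.symm, h3 ▸ ha⟩
      · rintro (⟨h2, h3⟩ | ⟨h2, h3⟩)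
        · exact ⟨q, h3, by rw [h2]⟩
        · exact ⟨p, h3, by rw [h2, Sym2.eq_swap]⟩
    rw [x1_px, x1_px, x1_px]
    by_cases hp : p = v <;> by_cases hq : q = v
    · subst hp
      subst hq
      simp [hm, hv]
    · subst hp
      by_cases hqA : q ∈ A
      · rw [if_pos (hm.2 (Or.inl ⟨rfl, hqA⟩))]
        simp [hq, hqA, hv]
        ring
      · rw [if_neg (fun h => (hm.1 h).elim (fun h => hqA h.2) (fun h => hq h.1))]
        simp [hq, hqA, hv]
    · subst hq
      by_cases hpA : p ∈ A
      · rw [if_pos (hm.2 (Or.inr ⟨rfl, hpA⟩))]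
        simp [hp, hpA, hv]
        ring
      · rw [if_neg (fun h => (hm.1 h).elim (fun h => hp h.1) (fun h => hpA h.2))]
        simp [hp, hpA, hv]
    · rw [if_neg (fun h => (hm.1 h).elim (fun h => hp h.1) (fun h => hq h.1))]
      simp [hp, hq]

end H47T
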